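import Pool.Agent.Lib.LinSpace.Shrink

/-!
Recursive nondeterministic algorithms whose depth first search is bounded by a budget.
-/

set_option autoImplicit false
set_option linter.unusedSimpArgs false

namespace Pool.Agent.Lib.LinSpace

variable {α β γ σ δ ω : Type} [Enc α] [Enc β] [Enc γ] [Enc σ] [Enc δ] [Enc ω]

/-- Dropping as many elements as another list has. -/
theorem Lin.dropLen {l : α → List γ} {s : α → List δ} (hl : Lin l) (hs : Lin s) :
    Lin (fun x => (s x).drop (l x).length) := by
  obtain ⟨q, hq, Hq⟩ := hs.size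
  have h := Lin.foldl (step := fun y : α × (List δ × γ) => y.2.1.tail) hl hs
    (Lin.fst.comp Lin.snd).tail hq (by
      intro x m _
      show sz (m.foldl (fun s _ => s.tail) (s x)) ≤ q (sz x)
      rw [foldl_tail_eq]
      exact (sz_drop_le _ _).trans (Hq x))
  refine h.of_eq fun x => ?_
  show (l x).foldl (fun s _ => s.tail) (s x) = _
  rw [foldl_tail_eq]

/-- Budgets in unary. -/
def rn (n : ℕ) : List Bool := List.replicate n false

theorem sz_rn (n : ℕ) : sz (rn n) = 2 * n + 1 := by
  induction n with
  | zero => rfl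
  | succ n ih =>
    have h1 : rn (n + 1) = false :: rn n := rfl
    have h2 : sz false = 1 := rfl
    rw [h1, sz_cons, ih, h2]
    omega

/-- One step of the search. -/
noncomputable def bstep [Rd β] (C : ℕ) (d : α)
    (chk : α × β → Bool) (subs : α × β → List α) (s : Sg α × List Bool) : Sg α × List Bool :=
  let f := s.1.1.headD (d, ([], []))
  let z := s.1.2.1.headD d
  if s.1.2.1.isEmpty then
    if s.1.2.2 then
      if f.2.2.isEmpty then ((s.1.1.tail, ([], true)), rn (sz f.1) ++ s.2)
      else (((f.1, (f.2.1, f.2.2.tail)) :: s.1.1.tail, ([f.2.2.headD d], true)), s.2)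
    else
      if f.2.1.all id then ((s.1.1.tail, ([], false)), rn (sz f.1) ++ s.2)
      else
        if chk (f.1, (Rd.rd (parse (incr f.2.1)) : β)) then
          (((f.1, (incr f.2.1, subs (f.1, (Rd.rd (parse (incr f.2.1)) : β)))) :: s.1.1.tail,
            ([], true)), s.2)
        else (((f.1, (incr f.2.1, [])) :: s.1.1.tail, ([], false)), s.2)
  else
    if decide ((rn (sz z)).length ≤ s.2.length) then
      (((z, (zw C z, [])) :: s.1.1, ([], false)), s.2.drop (rn (sz z)).length)
    else ((s.1.1, ([], false)), s.2)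

theorem lin_bstep [Rd β] {C : ℕ} {d : α} {chk : α × β → Bool} {subs : α × β → List α}
    (hc : Lin chk) (hs : Lin subs) : Lin (bstep C d chk subs) := by
  have g0 : Lin (fun s : Sg α × List Bool => s.1) := Lin.fst
  have g1 : Lin (fun s : Sg α × List Bool => s.1.1) := Lin.fst.comp g0
  have g2 : Lin (fun s : Sg α × List Bool => s.1.2.1) := Lin.fst.comp (Lin.snd.comp g0)
  have g3 : Lin (fun s : Sg α × List Bool => s.1.2.2) := Lin.snd.comp (Lin.snd.comp g0)
  have gr : Lin (fun s : Sg α × List Bool => s.2) := Lin.snd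
  have hf : Lin (fun s : Sg α × List Bool => s.1.1.headD (d, ([], []))) := Lin.headD g1 _
  have hz : Lin (fun s : Sg α × List Bool => s.1.2.1.headD d) := Lin.headD g2 _
  have hf1 : Lin (fun s : Sg α × List Bool => (s.1.1.headD (d, ([], []))).1) := Lin.fst.comp hf
  have hf21 : Lin (fun s : Sg α × List Bool => (s.1.1.headD (d, ([], []))).2.1) :=
    Lin.fst.comp (Lin.snd.comp hf)
  have hf22 : Lin (fun s : Sg α × List Bool => (s.1.1.headD (d, ([], []))).2.2) :=
    Lin.snd.comp (Lin.snd.comp hf)
  have ht : Lin (fun s : Sg α × List Bool => s.1.1.tail) := Lin.tail g1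
  have hinc : Lin (fun s : Sg α × List Bool => incr (s.1.1.headD (d, ([], []))).2.1) :=
    Lin.incr hf21
  have hp : Lin (fun s : Sg α × List Bool => ((s.1.1.headD (d, ([], []))).1,
      (Rd.rd (parse (incr (s.1.1.headD (d, ([], []))).2.1)) : β))) :=
    hf1.pair (Rd.lin.comp (Lin.parse hinc))
  have hnil : Lin (fun _ : Sg α × List Bool => ([] : List α)) := Lin.const []
  have hu1 : Lin (fun s : Sg α × List Bool => rn (sz (s.1.1.headD (d, ([], []))).1)) :=
    Lin.unary.comp hf1
  have hu2 : Lin (fun s : Sg α × List Bool => rn (sz (s.1.2.1.headD d))) := Lin.unary.comp hz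
  refine (Lin.isEmpty g2).ite (g3.ite
    ((Lin.isEmpty hf22).ite ((ht.pair (Lin.const _)).pair (hu1.append gr))
      ((((hf1.pair (hf21.pair hf22.tail)).cons
      ht).pair (((hf22.headD d).cons hnil).pair (Lin.const true))).pair gr))
    ((Lin.all hf21).ite ((ht.pair (Lin.const _)).pair (hu1.append gr)) ((hc.comp hp).ite
      ((((hf1.pair (hinc.pair (hs.comp hp))).cons ht).pair (Lin.const _)).pair gr)
      ((((hf1.pair (hinc.pair hnil)).cons ht).pair (Lin.const _)).pair gr))))
    ((Lin.lenLe hu2 gr).ite ((((hz.pair (((Lin.zw C).comp hz).pair hnil)).cons g1).pair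
      (Lin.const _)).pair (Lin.dropLen hu2 gr)) ((g1.pair (Lin.const _)).pair gr))

/-- The instances accepted by the algorithm with a given budget. -/
inductive BAcc (C : ℕ) (chk : α × β → Bool) (subs : α × β → List α) : ℕ → α → Prop
  | step (n : ℕ) (x : α) (y : β) : sz x ≤ n → sz y ≤ C * sz x + C → chk (x, y) = true →
      (∀ z ∈ subs (x, y), BAcc C chk subs (n - sz x) z) → BAcc C chk subs n x

section Correct

variable [Rd β] {C : ℕ} {d : α} {chk : α × β → Bool} {subs : α × β → List α}

/-- The condition of the main loop. -/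
def bcond (s : Sg α × List Bool) : Bool := dcond s.1

theorem sz_bstate_nil (fr : List (α × (List Bool × List α))) (b : Bool) (n : ℕ) :
    sz (((fr, (([] : List α), b)), rn n) : Sg α × List Bool) ≤ sz fr + 2 * n + 8 := by
  rw [sz_pair, sz_rn]
  have := sz_state_nil fr b
  omega

theorem sz_bstate_call (fr : List (α × (List Bool × List α))) (z : α) (b : Bool) (n : ℕ) :
    sz (((fr, ([z], b)), rn n) : Sg α × List Bool) ≤ sz fr + sz z + 2 * n + 10 := by
  rw [sz_pair, sz_rn]
  have := sz_state_call fr z b
  omega

theorem rn_append (m n : ℕ) : rn m ++ rn n = rn (m + n) := by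
  simp [rn, List.replicate_append_replicate]

theorem rn_drop (m n : ℕ) : (rn n).drop m = rn (n - m) := by
  simp [rn]

theorem rn_length (n : ℕ) : (rn n).length = n := by simp [rn]

theorem bud_list {K' : ℕ}
    (hK : ∀ x : α, ∀ w l, w.length = C * sz x + C + 1 →
      l <:+ subs (x, (Rd.rd (parse w) : β)) → sz (x, (w, l)) + 10 ≤ K' * sz x)
    (n : ℕ) (x : α) (hn : sz x ≤ n)
    (ih : ∀ z fr b,
      ∃ v, (v = true ↔ BAcc C chk subs (n - sz x) z) ∧ Go bcond (bstep C d chk subs)
        (sz fr + sz z + (2 * K' + 3) * (n - sz x) + 20)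
        ((fr, ([z], b)), rn (n - sz x)) ((fr, ([], v)), rn (n - sz x)))
    (w : List Bool) (hw : w.length = C * sz x + C + 1) (fr : List (α × (List Bool × List α))) :
    ∀ l : List α, l <:+ subs (x, (Rd.rd (parse w) : β)) →
      ((∀ z ∈ l, BAcc C chk subs (n - sz x) z) ∧ Go bcond (bstep C d chk subs)
        (sz fr + (2 * K' + 3) * n + 20) (((x, (w, l)) :: fr, ([], true)), rn (n - sz x))
          ((fr, ([], true)), rn n)) ∨
      (¬ (∀ z ∈ l, BAcc C chk subs (n - sz x) z) ∧ ∃ l',
        l' <:+ subs (x, (Rd.rd (parse w) : β)) ∧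
        Go bcond (bstep C d chk subs)
        (sz fr + (2 * K' + 3) * n + 20) (((x, (w, l)) :: fr, ([], true)), rn (n - sz x))
          (((x, (w, l')) :: fr, ([], false)), rn (n - sz x))) := by
  intro l
  have hpos := sz_pos x
  have hm : (2 * K' + 3) * n = (2 * K' + 3) * sz x + (2 * K' + 3) * (n - sz x) := by
    rw [← Nat.mul_add]; congr 1; omega
  have hm2 : (2 * K' + 3) * sz x = 2 * (K' * sz x) + 3 * sz x := by ring
  have hm3 : 2 * (n - sz x) ≤ (2 * K' + 3) * (n - sz x) := Nat.mul_le_mul_right _ (by omega)
  induction l with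
  | nil =>
    intro hl
    left
    refine ⟨by simp, Go.one ?_ ?_ ?_⟩
    · simp [bcond, dcond]
    · have h1 := sz_bstate_nil ((x, (w, ([] : List α))) :: fr) true (n - sz x)
      have h2 := hK x w [] hw hl
      rw [sz_cons] at h1
      omega
    · simp only [bstep, List.isEmpty_nil, if_true, List.headD_cons, List.tail_cons, rn_append]
      rw [show sz x + (n - sz x) = n by omega]
  | cons z l ihl =>
    intro hl
    have hl2 : l <:+ subs (x, (Rd.rd (parse w) : β)) := (List.suffix_cons z l).trans hl
    obtain ⟨v, hv, hgo⟩ := ih z ((x, (w, l)) :: fr) true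
    have h1 := hK x w (z :: l) hw hl
    have h2 := hK x w l hw hl2
    have h1' : sz z ≤ sz (x, (w, z :: l)) := by
      rw [sz_pair, sz_pair, sz_cons]; omega
    have s1 : Go bcond (bstep C d chk subs)
        (sz fr + (2 * K' + 3) * n + 20) (((x, (w, z :: l)) :: fr, ([], true)), rn (n - sz x))
        (((x, (w, l)) :: fr, ([z], true)), rn (n - sz x)) := by
      refine Go.one (by simp [bcond, dcond]) ?_ (by simp [bstep])
      have h3 := sz_bstate_nil ((x, (w, z :: l)) :: fr) true (n - sz x)
      rw [sz_cons] at h3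
      omega
    have s2 := s1.trans (hgo.mono (B' := sz fr + (2 * K' + 3) * n + 20) (by
      rw [sz_cons]; omega))
    cases v with
    | false =>
      right
      refine ⟨fun h => ?_, l, hl2, s2⟩
      have := hv.2 (h z (List.mem_cons_self ..))
      simp at this
    | true =>
      have hFz := hv.1 rfl
      rcases ihl hl2 with ⟨h3, h4⟩ | ⟨h3, l', h4, h5⟩
      · left
        refine ⟨?_, s2.trans h4⟩
        intro z' hz'
        rcases List.mem_cons.1 hz' with h | h
        · subst h; exact hFz
        · exact h3 z' h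
      · right
        exact ⟨fun h => h3 fun z' hz' => h z' (List.mem_cons_of_mem _ hz'), l', h4, s2.trans h5⟩

theorem bud_guess {K' : ℕ}
    (hK : ∀ x : α, ∀ w l, w.length = C * sz x + C + 1 →
      l <:+ subs (x, (Rd.rd (parse w) : β)) → sz (x, (w, l)) + 10 ≤ K' * sz x)
    (n : ℕ) (x : α) (hn : sz x ≤ n)
    (ih : ∀ z fr b,
      ∃ v, (v = true ↔ BAcc C chk subs (n - sz x) z) ∧ Go bcond (bstep C d chk subs)
        (sz fr + sz z + (2 * K' + 3) * (n - sz x) + 20)
        ((fr, ([z], b)), rn (n - sz x)) ((fr, ([], v)), rn (n - sz x)))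
    (fr : List (α × (List Bool × List α))) (r : ℕ) :
    ∀ i, i < 2 ^ (C * sz x + C + 1) → 2 ^ (C * sz x + C + 1) - 1 - i = r →
      ∀ l, l <:+ subs (x, (Rd.rd (parse (bits (C * sz x + C + 1) i)) : β)) →
      ∃ v, (v = true ↔ ∃ j, i < j ∧ j < 2 ^ (C * sz x + C + 1) ∧
          chk (x, (Rd.rd (parse (bits (C * sz x + C + 1) j)) : β)) = true ∧
          ∀ z ∈ subs (x, (Rd.rd (parse (bits (C * sz x + C + 1) j)) : β)),
            BAcc C chk subs (n - sz x) z) ∧
        Go bcond (bstep C d chk subs)
        (sz fr + (2 * K' + 3) * n + 20)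
          (((x, (bits (C * sz x + C + 1) i, l)) :: fr, ([], false)), rn (n - sz x))
          ((fr, ([], v)), rn n) := by
  set N := C * sz x + C + 1 with hN
  have hpos := sz_pos x
  have hm : (2 * K' + 3) * n = (2 * K' + 3) * sz x + (2 * K' + 3) * (n - sz x) := by
    rw [← Nat.mul_add]; congr 1; omega
  have hm2 : (2 * K' + 3) * sz x = 2 * (K' * sz x) + 3 * sz x := by ring
  have hm3 : 2 * (n - sz x) ≤ (2 * K' + 3) * (n - sz x) := Nat.mul_le_mul_right _ (by omega)
  have hszb : ∀ (j : ℕ) (l : List α), l <:+ subs (x, (Rd.rd (parse (bits N j)) : β)) → ∀ b,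
      sz ((((x, (bits N j, l)) :: fr, ([], b)), rn (n - sz x)) : Sg α × List Bool) ≤
        sz fr + (2 * K' + 3) * n + 20 := by
    intro j l hl b
    have h1 := sz_bstate_nil ((x, (bits N j, l)) :: fr) b (n - sz x)
    have h2 := hK x (bits N j) l (bits_length _ _) hl
    rw [sz_cons] at h1
    omega
  induction r with
  | zero =>
    intro i hi hr l hl
    refine ⟨false, ?_, Go.one (by simp [bcond, dcond]) (hszb i l hl false) ?_⟩
    · simp only [Bool.false_eq_true, false_iff, not_exists, not_and]
      intro j h1 h2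
      omega
    · have h1 : (bits N i).all id = true := (bits_all N i hi).2 (by omega)
      simp only [bstep, List.isEmpty_nil, if_true, List.headD_cons, Bool.false_eq_true, if_false,
        h1, List.tail_cons, rn_append]
      rw [show sz x + (n - sz x) = n by omega]
  | succ r ihr =>
    intro i hi hr l hl
    have h1 : ¬ (bits N i).all id = true := by
      rw [bits_all N i hi]; omega
    have h2 : incr (bits N i) = bits N (i + 1) := incr_bits N i
    by_cases hc : chk (x, (Rd.rd (parse (bits N (i + 1))) : β)) = true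
    · have s1 : Go bcond (bstep C d chk subs)
          (sz fr + (2 * K' + 3) * n + 20)
          (((x, (bits N i, l)) :: fr, ([], false)), rn (n - sz x))
          (((x, (bits N (i + 1), subs (x, (Rd.rd (parse (bits N (i + 1))) : β)))) :: fr,
            ([], true)), rn (n - sz x)) := by
        refine Go.one (by simp [bcond, dcond]) (hszb i l hl false) ?_
        simp only [bstep, List.isEmpty_nil, if_true, List.headD_cons, Bool.false_eq_true,
          if_false, h1, h2, hc, List.tail_cons]
      rcases bud_list (d := d) hK n x hn ih (bits N (i + 1)) (bits_length _ _) fr _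
        (List.suffix_refl _) with ⟨h3, h4⟩ | ⟨h3, l', h4, h5⟩
      · refine ⟨true, ?_, s1.trans h4⟩
        simp only [true_iff]
        exact ⟨i + 1, by omega, by omega, hc, h3⟩
      · obtain ⟨v, hv, hgo⟩ := ihr (i + 1) (by omega) (by omega) l' h4
        refine ⟨v, ?_, s1.trans (h5.trans hgo)⟩
        rw [hv]
        constructor
        · rintro ⟨j, a, b, c⟩
          exact ⟨j, by omega, b, c⟩
        · rintro ⟨j, a, b, c⟩
          rcases Nat.lt_or_ge (i + 1) j with h | h
          · exact ⟨j, h, b, c⟩
          · have : j = i + 1 := by omega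
            subst this
            exact absurd c.2 h3
    · have s1 : Go bcond (bstep C d chk subs)
          (sz fr + (2 * K' + 3) * n + 20)
          (((x, (bits N i, l)) :: fr, ([], false)), rn (n - sz x))
          (((x, (bits N (i + 1), [])) :: fr, ([], false)), rn (n - sz x)) := by
        refine Go.one (by simp [bcond, dcond]) (hszb i l hl false) ?_
        simp only [bstep, List.isEmpty_nil, if_true, List.headD_cons, Bool.false_eq_true,
          if_false, h1, h2, hc, List.tail_cons]
      obtain ⟨v, hv, hgo⟩ := ihr (i + 1) (by omega) (by omega) [] (List.nil_suffix)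
      refine ⟨v, ?_, s1.trans hgo⟩
      rw [hv]
      constructor
      · rintro ⟨j, a, b, c⟩
        exact ⟨j, by omega, b, c⟩
      · rintro ⟨j, a, b, c⟩
        rcases Nat.lt_or_ge (i + 1) j with h | h
        · exact ⟨j, h, b, c⟩
        · have : j = i + 1 := by omega
          subst this
          exact absurd c.1 hc

theorem bud_main {K' : ℕ}
    (hK : ∀ x : α, ∀ w l, w.length = C * sz x + C + 1 →
      l <:+ subs (x, (Rd.rd (parse w) : β)) → sz (x, (w, l)) + 10 ≤ K' * sz x)
    (hchk : ∀ x y, chk (x, y) = true → sz y ≤ C * sz x + C) (n : ℕ) :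
    ∀ z fr b, ∃ v, (v = true ↔ BAcc C chk subs n z) ∧ Go bcond (bstep C d chk subs)
        (sz fr + sz z + (2 * K' + 3) * n + 20) ((fr, ([z], b)), rn n) ((fr, ([], v)), rn n) := by
  induction n using Nat.strong_induction_on with
  | _ n ih =>
    intro z fr b
    have hpos := sz_pos z
    have hm4 : 2 * n ≤ (2 * K' + 3) * n := Nat.mul_le_mul_right _ (by omega)
    have hcall : sz (((fr, ([z], b)), rn n) : Sg α × List Bool) ≤
        sz fr + sz z + (2 * K' + 3) * n + 20 := by
      have h1 := sz_bstate_call fr z b n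
      omega
    rcases Nat.lt_or_ge n (sz z) with hlt | hge
    · refine ⟨false, ?_, Go.one (by simp [bcond, dcond]) hcall ?_⟩
      · simp only [Bool.false_eq_true, false_iff]
        intro h
        cases h with
        | step _ _ y h1 _ _ _ => omega
      · simp only [bstep, List.isEmpty_cons, Bool.false_eq_true, if_false, List.headD_cons,
          rn_length, decide_eq_true_eq]
        rw [if_neg (by omega)]
    · have s1 : Go bcond (bstep C d chk subs)
          (sz fr + sz z + (2 * K' + 3) * n + 20) ((fr, ([z], b)), rn n)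
          (((z, (bits (C * sz z + C + 1) 0, [])) :: fr, ([], false)), rn (n - sz z)) := by
        refine Go.one (by simp [bcond, dcond]) hcall ?_
        simp only [bstep, List.isEmpty_cons, Bool.false_eq_true, if_false, List.headD_cons,
          rn_length, decide_eq_true_eq, zw_eq, rn_drop]
        rw [if_pos hge]
      obtain ⟨v, hv, hgo⟩ := bud_guess (d := d) hK n z hge (ih (n - sz z) (by omega)) fr _ 0
        (Nat.two_pow_pos _) rfl [] List.nil_suffix
      refine ⟨v, ?_, s1.trans (hgo.mono (by omega))⟩
      rw [hv]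
      constructor
      · rintro ⟨j, _, _, h1, h2⟩
        exact BAcc.step _ _ _ hge (hchk _ _ h1) h1 h2
      · intro hF
        cases hF with
        | step _ _ y _ hy hc hsub =>
        set N := C * sz z + C + 1 with hN
        have hlen : (word y ++ List.replicate (N - sz y) true).length = N := by
          rw [List.length_append, List.length_replicate]
          have : (word y).length = sz y := rfl
          omega
        obtain ⟨j, hj, hw⟩ := exists_bits (word y ++ List.replicate (N - sz y) true)
        rw [hlen] at hj hw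
        have hparse : (Rd.rd (parse (bits N j)) : β) = y := by
          rw [hw, word, parse_code, Rd.rd_enc]
        refine ⟨j, ?_, hj, ?_, ?_⟩
        · rcases Nat.eq_zero_or_pos j with h | h
          · exfalso
            rw [h, bits_zero] at hw
            have h1 : true ∈ word y ++ List.replicate (N - sz y) true := by
              rw [List.mem_append, List.mem_replicate]
              right
              exact ⟨by omega, rfl⟩
            rw [← hw, List.mem_replicate] at h1
            simp at h1
          · exact h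
        · rw [hparse]
          exact hc
        · rw [hparse]
          exact fun z' hz' => hsub z' hz'

/-- Recursive nondeterministic algorithms with a linear budget run in linear space. -/
theorem lin_bacc (hc : Lin chk) (hs : Lin subs)
    (hchk : ∀ x y, chk (x, y) = true → sz y ≤ C * sz x + C)
    {x0 : ω → α} (hx0 : Lin x0) {m : ω → ℕ} (hm : Lin fun w => rn (m w)) {f : ω → Bool}
    (hf : ∀ w, f w = true ↔ BAcc C chk subs (m w) (x0 w)) : Lin f := by
  rcases isEmpty_or_nonempty α with hα | ⟨⟨d⟩⟩
  · refine ⟨.skip, fun _ => 1, LB.const 1, fun w => (hα.false (x0 w)).elim⟩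
  -- the bound for frames
  have hrp : Lin (fun w : List Bool => (Rd.rd (parse w) : β)) := Rd.lin.comp (Lin.parse Lin.id)
  obtain ⟨g1, hg1, Hg1⟩ := hrp.size
  obtain ⟨g2, hg2, Hg2⟩ := hs.size
  obtain ⟨g3, hg3, Hg3⟩ := hm.size
  obtain ⟨g4, hg4, Hg4⟩ := hx0.size
  obtain ⟨K1, hK1⟩ : ∃ K1, ∀ n, n + (4 * (C * n + C + 1) + 1) +
      g2 (n + g1 (4 * (C * n + C + 1) + 1) + 1) + 12 ≤ K1 * n + K1 := by
    have h1 : LB fun n : ℕ => 4 * (C * n + C + 1) + 1 :=
      (((((LB.id.smul C).add (LB.const C)).add (LB.const 1)).smul 4).add (LB.const 1))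
    have h2 : LB fun n : ℕ => n + (4 * (C * n + C + 1) + 1) +
        g2 (n + g1 (4 * (C * n + C + 1) + 1) + 1) + 12 :=
      ((LB.id.add h1).add (hg2.comp ((LB.id.add (hg1.comp h1)).add (LB.const 1)))).add
        (LB.const 12)
    exact h2.2
  have hK : ∀ x : α, ∀ w l, w.length = C * sz x + C + 1 →
      l <:+ subs (x, (Rd.rd (parse w) : β)) →
      sz (x, (w, l)) + 10 ≤ (2 * K1) * sz x := by
    intro x w l hw hl
    have e1 := sz_word_bool w
    rw [hw] at e1
    have e2 := Hg1 w
    have e3 := hg1.1 e1
    have e4 := Hg2 (x, (Rd.rd (parse w) : β))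
    rw [sz_pair] at e4
    have e5 := hg2.1 (show sz x + sz (Rd.rd (parse w) : β) + 1 ≤
      sz x + g1 (4 * (C * sz x + C + 1) + 1) + 1 by omega)
    have e6 := sz_suffix_le hl
    have e7 := hK1 (sz x)
    have e9 : K1 ≤ K1 * sz x := Nat.le_mul_of_pos_right _ (sz_pos x)
    rw [sz_pair, sz_pair, Nat.mul_assoc]
    omega
  have key : Lin (fun w => (((([] : List (α × (List Bool × List α))), (([] : List α), f w)) :
      Sg α), rn (m w))) := by
    refine Lin.while (init := fun w => ((([] : List (α × (List Bool × List α))),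
        ([x0 w], false)), rn (m w)))
      (cond := bcond) (step := bstep C d chk subs)
      (((Lin.const _).pair ((hx0.cons (Lin.const _)).pair (Lin.const _))).pair hm)
      ((((Lin.isEmpty (Lin.fst.comp (Lin.snd.comp Lin.fst))).and
        (Lin.isEmpty (Lin.fst.comp Lin.fst)))).not)
      (lin_bstep hc hs)
      (g := fun n => g4 n + (2 * (2 * K1) + 3) * g3 n + 30)
      ((hg4.add (hg3.smul _)).add (LB.const 30))
      fun w => ?_
    obtain ⟨v, hv, n, hn, H⟩ := bud_main (d := d) hK hchk (m w) (x0 w) [] false
    have hvf : v = f w := by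
      rw [Bool.eq_iff_iff, hv, hf]
    have h4 := Hg4 w
    have h3 := Hg3 w
    rw [sz_rn] at h3
    have h5 : (2 * (2 * K1) + 3) * m w ≤ (2 * (2 * K1) + 3) * g3 (sz w) :=
      Nat.mul_le_mul_left _ (by omega)
    have h6 : 2 * m w ≤ (2 * (2 * K1) + 3) * m w := Nat.mul_le_mul_right _ (by omega)
    refine ⟨n, fun i hi => (H i hi).1, ?_, fun i hi => ?_, ?_⟩
    · rw [hn]; simp [bcond, dcond]
    · rcases Nat.lt_or_ge i n with h | h
      · refine (H i h).2.trans ?_
        rw [sz_nil]
        omega
      · have : i = n := by omega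
        subst this
        rw [hn]
        have := sz_bstate_nil ([] : List (α × (List Bool × List α))) v (m w)
        rw [sz_nil] at this
        omega
    · rw [hn, hvf]
  exact (Lin.snd.comp (Lin.snd.comp (Lin.fst.comp key)))

/-- Recursive nondeterministic algorithms with a linear budget and a gap between soundness and
completeness. -/
theorem lin_budget {S : ℕ → α → Prop} {W : α → Prop} (hc : Lin chk) (hs : Lin subs)
    (hsound : ∀ x y, chk (x, y) = true → (∀ z ∈ subs (x, y), W z) → W x)
    (hcomp : ∀ n x, S n x → sz x ≤ n ∧ ∃ y : β, sz y ≤ C * sz x + C ∧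
      chk (x, y) = true ∧ ∀ z ∈ subs (x, y), S (n - sz x) z)
    {x0 : ω → α} (hx0 : Lin x0) {m : ω → ℕ} (hm : Lin fun w => rn (m w)) :
    ∃ f : ω → Bool, Lin f ∧ (∀ w, S (m w) (x0 w) → f w = true) ∧
      ∀ w, f w = true → W (x0 w) := by
  classical
  let chk' : α × β → Bool := fun p => chk p &&
        decide ((List.replicate (sz p.2) false).length ≤
        (rep C (List.replicate (sz p.1) false) ++ List.replicate C false).length)
  have hchk' : ∀ x y, chk' (x, y) = true ↔ chk (x, y) = true ∧ sz y ≤ C * sz x + C := by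
    intro x y
    simp only [chk', Bool.and_eq_true, decide_eq_true_eq, List.length_replicate,
      List.length_append, rep_length]
  have hSA : ∀ n : ℕ, ∀ x, S n x → BAcc C chk' subs n x := by
    intro n
    induction n using Nat.strong_induction_on with
    | _ n ih =>
      intro x hS
      obtain ⟨h0, y, h1, h2, h3⟩ := hcomp n x hS
      have hpos := sz_pos x
      exact BAcc.step n x y h0 h1 ((hchk' x y).2 ⟨h2, h1⟩) fun z hz =>
        ih (n - sz x) (by omega) z (h3 z hz)
  have hAW : ∀ n x, BAcc C chk' subs n x → W x := by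
    intro n x h
    induction h with
    | step n x y h1 h2 h3 h4 ih => exact hsound x y ((hchk' x y).1 h3).1 ih
  refine ⟨fun w => decide (BAcc C chk' subs (m w) (x0 w)), ?_, ?_, ?_⟩
  · exact lin_bacc (hc.and (Lin.lenLe (Lin.unary.comp Lin.snd)
      ((Lin.rep (Lin.unary.comp Lin.fst) C).append (Lin.const _)))) hs
      (fun x y h => ((hchk' x y).1 h).2) hx0 hm fun w => by rw [decide_eq_true_eq]
  · intro w hS
    rw [decide_eq_true_eq]
    exact hSA _ _ hS
  · intro w hf
    rw [decide_eq_true_eq] at hf
    exact hAW _ _ hf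

end Correct

end Pool.Agent.Lib.LinSpace
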