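import Pool.Agent.Lib.LinSpace.Quad.Budget

/-!
Existential quantification over objects of linear size.
-/

set_option autoImplicit false

namespace Pool.Agent.Lib.LinSpace

variable {α β : Type} [Enc α] [Enc β]

/-- Existential quantification over objects of linear size. -/
theorem Lin.ex [Rd β] {f : α × β → Bool} (hf : Lin f) (C : ℕ) {g : α → Bool}
    (hg : ∀ x, g x = true ↔ ∃ y : β, sz y ≤ C * sz x + C ∧ f (x, y) = true) : Lin g := by
  classical
  rcases isEmpty_or_nonempty β with hβ | ⟨⟨d⟩⟩
  · refine (Lin.const false).of_eq fun x => ?_
    rw [eq_comm, Bool.eq_false_iff, ne_eq, hg]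
    rintro ⟨y, _⟩
    exact hβ.false y
  have hfst : Lin (fun p : (α × List β) × β => p.1.1) := Lin.fst.comp Lin.fst
  have hlst : Lin (fun p : (α × List β) × β => p.1.2) := Lin.snd.comp Lin.fst
  have hm : Lin (fun x : α => rn ((C + 3) * sz x + (C + 10))) := by
    refine ((Lin.rep Lin.unary (C + 3)).append (Lin.const (rn (C + 10)))).of_eq fun x => ?_
    rw [rep_replicate]
    exact rn_append _ _
  obtain ⟨h, hh, h1, h2⟩ := lin_budget (α := α × List β) (β := β) (C := C + sz d + 1)
    (S := fun n z => if z.2.isEmpty then g z.1 = true ∧ (C + 3) * sz z.1 + (C + 10) ≤ n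
      else f (z.1, z.2.headD d) = true ∧ sz z ≤ n)
    (W := fun z => if z.2.isEmpty then g z.1 = true else f (z.1, z.2.headD d) = true)
    (chk := fun p => if p.1.2.isEmpty then decide ((List.replicate (sz p.2) false).length ≤
        (LinSpace.rep C (List.replicate (sz p.1.1) false) ++ List.replicate C false).length)
      else f (p.1.1, p.1.2.headD d))
    (subs := fun p => if p.1.2.isEmpty then [(p.1.1, [p.2])] else [])
    ((Lin.isEmpty hlst).ite (Lin.lenLe (Lin.unary.comp Lin.snd)
      ((Lin.rep (Lin.unary.comp hfst) C).append (Lin.const _)))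
      (hf.comp (hfst.pair (hlst.headD d))))
    ((Lin.isEmpty hlst).ite ((hfst.pair (Lin.snd.cons (Lin.const _))).cons (Lin.const _))
      (Lin.const []))
    (by
      rintro ⟨x, l⟩ y hy hz
      cases l with
      | nil =>
        simp only [List.isEmpty_nil, if_true, decide_eq_true_eq, List.length_replicate,
          List.length_append, rep_length] at hy hz ⊢
        have h1 := hz (x, [y]) (List.mem_singleton_self _)
        simp only [List.isEmpty_cons, Bool.false_eq_true, if_false, List.headD_cons] at h1
        exact (hg x).2 ⟨y, hy, h1⟩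
      | cons y' l =>
        simp only [List.isEmpty_cons, Bool.false_eq_true, if_false] at hy ⊢
        exact hy)
    (by
      rintro n ⟨x, l⟩ hS
      cases l with
      | nil =>
        simp only [List.isEmpty_nil, if_true] at hS ⊢
        obtain ⟨hS, hn⟩ := hS
        obtain ⟨y, h1, h2⟩ := (hg x).1 hS
        have e1 : sz (x, ([] : List β)) = sz x + 2 := by rw [sz_pair, sz_nil]
        have e2 : (C + 3) * sz x = C * sz x + 3 * sz x := by ring
        have e3 : (C + sz d + 1) * (sz x + 2) = C * sz x + 2 * C + (sz d + 1) * (sz x + 2) := by
          ring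
        refine ⟨by omega, y, by rw [e1]; omega, ?_, ?_⟩
        · simp only [decide_eq_true_eq, List.length_replicate,
            List.length_append, rep_length]
          exact h1
        · intro z hz
          rw [List.mem_singleton] at hz
          subst hz
          simp only [List.isEmpty_cons, Bool.false_eq_true, if_false, List.headD_cons]
          refine ⟨h2, ?_⟩
          rw [e1, sz_pair, sz_cons, sz_nil]
          omega
      | cons y' l =>
        simp only [List.isEmpty_cons, Bool.false_eq_true, if_false, List.headD_cons] at hS ⊢
        obtain ⟨hS, hn⟩ := hS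
        refine ⟨hn, d, by omega, hS, ?_⟩
        intro z hz
        simp at hz)
    (x0 := fun x => (x, [])) (Lin.id.pair (Lin.const _))
    (m := fun x => (C + 3) * sz x + (C + 10)) hm
  refine hh.of_eq fun x => ?_
  rw [Bool.eq_iff_iff]
  constructor
  · intro h3
    have := h2 x h3
    simpa using this
  · intro h3
    refine h1 x ?_
    simp only [List.isEmpty_nil, if_true]
    exact ⟨h3, le_refl _⟩

end Pool.Agent.Lib.LinSpace
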