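import Pool.Agent.Lib.LinSpace.Quad.Sys
import Pool.Agent.Lib.LinSpace.Load

/-!
Noncontracting grammars with short derivations.
-/

set_option autoImplicit false

namespace Pool.Agent.Lib.LinSpace

/-- A noncontracting grammar with terminal alphabet `A`. -/
structure Gram (A : Type) where
  /-- the nonterminals -/
  N : Type
  /-- there are finitely many nonterminals -/
  finN : Finite N
  /-- the start symbol -/
  start : N
  /-- the rules -/
  rules : Set (List (A ⊕ N) × List (A ⊕ N))
  /-- there are finitely many rules -/
  finRules : rules.Finite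
  /-- the right-hand side of a rule is at least as long as its left-hand side -/
  noncontracting : ∀ p ∈ rules, p.1.length ≤ p.2.length

namespace Gram

variable {A : Type} (G : Gram A)

/-- `G.Derives u v m`: the word `v` is obtained from `u` by a sequence of rule applications,
exactly `m` of which use a rule with at least two symbols on the left-hand side. -/
inductive Derives : List (A ⊕ G.N) → List (A ⊕ G.N) → ℕ → Prop
  | refl (u : List (A ⊕ G.N)) : Derives u u 0
  | step {u : List (A ⊕ G.N)} {m : ℕ} (x a b y : List (A ⊕ G.N)) : Derives u (x ++ a ++ y) m →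
      (a, b) ∈ G.rules → Derives u (x ++ b ++ y) (m + if 2 ≤ a.length then 1 else 0)

/-- The language generated by the grammar. -/
def language : Language A := {w | ∃ m, G.Derives [Sum.inr G.start] (w.map Sum.inl) m}

/-- The symbols of the padded system. -/
abbrev Sym : Type := Option (A ⊕ G.N)

/-- The rules of the padded system. -/
def prules : Set (List G.Sym × List G.Sym) :=
  {p | p = ([], []) ∨
    (∃ r ∈ G.rules, p = (r.1.map some ++ List.replicate (r.2.length - r.1.length) none,
      r.2.map some)) ∨
    ∃ s, p = ([some s, none], [none, some s])}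

theorem prules_len : ∀ p ∈ G.prules, p.1.length = p.2.length := by
  rintro p (rfl | ⟨r, hr, rfl⟩ | ⟨s, rfl⟩)
  · rfl
  · have := G.noncontracting r hr
    simp only [List.length_append, List.length_map, List.length_replicate]
    omega
  · rfl

theorem prules_finite [Finite A] : G.prules.Finite := by
  have _ := G.finN
  refine ((Set.finite_singleton (([], []) : List G.Sym × List G.Sym)).union
    ((G.finRules.image fun r => ((r.1.map some ++
      List.replicate (r.2.length - r.1.length) none, r.2.map some) :
      List G.Sym × List G.Sym)).union
    (Set.finite_range fun s : A ⊕ G.N => (([some s, none], [none, some s]) :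
      List G.Sym × List G.Sym)))).subset ?_
  rintro p (rfl | ⟨r, hr, rfl⟩ | ⟨s, rfl⟩)
  · exact Or.inl rfl
  · exact Or.inr (Or.inl ⟨r, hr, rfl⟩)
  · exact Or.inr (Or.inr ⟨s, rfl⟩)

/-- Runs with a bound for the number of all crossings. -/
def Rk (n : ℕ) (u v : List G.Sym) (s : ℕ) : Prop :=
  ∃ c k, Quad.Run G.prules (fun e : Quad.splits G.prules => (e : Quad.Ev G.Sym)) u [] [] v c k ∧
    ∑ q ∈ Finset.Ico 1 n, c q ≤ s

variable {G}

theorem Rk.refl (n : ℕ) (u : List G.Sym) : G.Rk n u u 0 :=
  ⟨0, 0, Quad.Run.nil u, by simp⟩

theorem Rk.trans {n s t : ℕ} {u v w : List G.Sym} (h : G.Rk n u v s) (h' : G.Rk n v w t) :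
    G.Rk n u w (s + t) := by
  obtain ⟨c, k, h1, h2⟩ := h
  obtain ⟨c', k', h3, h4⟩ := h'
  refine ⟨c + c', k + k', h1.append h3, ?_⟩
  simp only [Pi.add_apply, Finset.sum_add_distrib]
  omega

theorem Rk.mono {n s t : ℕ} {u v : List G.Sym} (h : G.Rk n u v s) (hst : s ≤ t) :
    G.Rk n u v t := by
  obtain ⟨c, k, h1, h2⟩ := h
  exact ⟨c, k, h1, h2.trans hst⟩

theorem Rk.one {n : ℕ} (x y : List G.Sym) {a b : List G.Sym} (h : (a, b) ∈ G.prules) :
    G.Rk n (x ++ a ++ y) (x ++ b ++ y) (if 2 ≤ a.length then a.length else 0) := by
  refine ⟨0 + Quad.ind x.length a.length, 0 + 1,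
    Quad.Run.int _ _ ⟨x, a, b, y, h, rfl, rfl, rfl, rfl⟩ (Quad.Run.nil _), ?_⟩
  split_ifs with h1
  · simp only [zero_add]
    exact Quad.sum_ind_le _ _ _
  · refine (Finset.sum_eq_zero fun q _ => ?_).le
    simp only [zero_add, Quad.ind]
    rw [if_neg (by omega)]

/-- Moving a symbol across blanks. -/
theorem Rk.move1 {n : ℕ} (x y : List G.Sym) (s : A ⊕ G.N) (d : ℕ) :
    G.Rk n (x ++ some s :: (List.replicate d none ++ y))
      (x ++ (List.replicate d none ++ some s :: y)) (2 * d) := by
  induction d generalizing x with
  | zero => exact Rk.refl _ _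
  | succ d ih =>
    have h1 : G.Rk n (x ++ [some s, none] ++ (List.replicate d none ++ y))
      (x ++ [none, some s] ++ (List.replicate d none ++ y)) 2 :=
      Rk.one x _ (Or.inr (Or.inr ⟨s, rfl⟩))
    have h2 := ih (x ++ [none])
    have h3 : G.Rk n (x ++ some s :: (List.replicate (d + 1) none ++ y))
        ((x ++ [none]) ++ some s :: (List.replicate d none ++ y)) 2 := by
      have e1 : x ++ some s :: (List.replicate (d + 1) none ++ y) =
        x ++ [some s, none] ++ (List.replicate d none ++ y) := by
        simp [List.replicate_succ]
      have e2 : (x ++ [none]) ++ some s :: (List.replicate d none ++ y) =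
        x ++ [none, some s] ++ (List.replicate d none ++ y) := by simp
      rw [e1, e2]
      exact h1
    have e3 : x ++ (List.replicate (d + 1) none ++ some s :: y) =
        (x ++ [none]) ++ (List.replicate d none ++ some s :: y) := by
      simp [List.replicate_succ]
    rw [e3]
    exact (h3.trans h2).mono (by omega)

/-- Moving a word across blanks. -/
theorem Rk.move {n : ℕ} (x z : List G.Sym) (y : List (A ⊕ G.N)) (d : ℕ) :
    G.Rk n (x ++ (y.map some ++ (List.replicate d none ++ z)))
      (x ++ (List.replicate d none ++ (y.map some ++ z))) (2 * d * y.length) := by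
  induction y using List.reverseRecOn generalizing z with
  | nil => simpa using Rk.refl n _
  | append_singleton y s ih =>
    have h1 := Rk.move1 (n := n) (x ++ y.map some) z s d
    have h2 := ih (some s :: z)
    have e1 : x ++ ((y ++ [s]).map some ++ (List.replicate d none ++ z)) =
        (x ++ y.map some) ++ some s :: (List.replicate d none ++ z) := by simp
    have e2 : (x ++ y.map some) ++ (List.replicate d none ++ some s :: z) =
        x ++ (y.map some ++ (List.replicate d none ++ some s :: z)) := by simp
    have e3 : x ++ (List.replicate d none ++ ((y ++ [s]).map some ++ z)) =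
        x ++ (List.replicate d none ++ (y.map some ++ some s :: z)) := by simp
    rw [e2] at h1
    rw [e1, e3]
    refine (h1.trans h2).mono ?_
    rw [List.length_append, List.length_singleton, Nat.mul_add]
    omega

theorem Derives.length_le {u v : List (A ⊕ G.N)} {m : ℕ} (h : G.Derives u v m) :
    u.length ≤ v.length := by
  induction h with
  | refl => exact le_refl _
  | step x a b y _ hr ih =>
    have := G.noncontracting _ hr
    simp only [List.length_append] at ih ⊢
    simp only at this
    omega

/-- Derivations are runs of the padded system. -/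
theorem Derives.rk {L : ℕ} (hL : ∀ p ∈ G.rules, p.2.length ≤ L) {u v : List (A ⊕ G.N)} {m : ℕ}
    (h : G.Derives u v m) {n : ℕ} (hn : v.length ≤ n) :
    G.Rk n (u.map some ++ List.replicate (n - u.length) none)
      (v.map some ++ List.replicate (n - v.length) none)
      (L * m + (v.length - u.length) * (2 * n + L)) := by
  induction h with
  | refl => exact (Rk.refl _ _).mono (Nat.zero_le _)
  | @step m x a b y hd hr ih =>
    have h1 := G.noncontracting _ hr
    have h2 := hL _ hr
    have h3 := hd.length_le
    simp only at h1 h2
    simp only [List.length_append] at ih hn h3 ⊢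
    have h4 := ih (by omega)
    obtain ⟨d, hd⟩ : ∃ d, b.length = a.length + d := ⟨b.length - a.length, by omega⟩
    -- moving the blanks
    have h5 := Rk.move (G := G) (n := n) (x.map some ++ a.map some)
      (List.replicate (n - (x.length + b.length + y.length)) none) y d
    have h6 := Rk.one (G := G) (n := n) (x.map some)
      (y.map some ++ List.replicate (n - (x.length + b.length + y.length)) none)
      (Or.inr (Or.inl ⟨_, hr, rfl⟩))
    simp only at h6
    rw [hd, Nat.add_sub_cancel_left] at h6
    have e1 : (x ++ a ++ y).map some ++
        List.replicate (n - (x.length + a.length + y.length)) none =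
        (x.map some ++ a.map some) ++ (y.map some ++ (List.replicate d none ++
        List.replicate (n - (x.length + b.length + y.length)) none)) := by
      rw [← List.replicate_add, show d + (n - (x.length + b.length + y.length)) =
        n - (x.length + a.length + y.length) by omega]
      simp
    have e2 : (x.map some ++ a.map some) ++ (List.replicate d none ++ (y.map some ++
        List.replicate (n - (x.length + b.length + y.length)) none)) =
        x.map some ++ (a.map some ++ List.replicate d none) ++ (y.map some ++
        List.replicate (n - (x.length + (a.length + d) + y.length)) none) := by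
      rw [hd]
      simp
    have e3 : (x ++ b ++ y).map some ++
        List.replicate (n - (x.length + b.length + y.length)) none =
        x.map some ++ b.map some ++ (y.map some ++
        List.replicate (n - (x.length + (a.length + d) + y.length)) none) := by
      rw [hd]
      simp
    rw [e1] at h4
    rw [e2] at h5
    rw [e3]
    refine ((h4.trans h5).trans h6).mono ?_
    simp only [List.length_append, List.length_map, List.length_replicate]
    have e4 : (x.length + a.length + y.length - u.length) * (2 * n + L) + d * (2 * n + L) =
        (x.length + b.length + y.length - u.length) * (2 * n + L) := by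
      rw [← Nat.add_mul]
      congr 1
      omega
    have e5 : 2 * d * y.length ≤ d * (2 * n) := by
      have : 2 * d * y.length = d * (2 * y.length) := by ring
      rw [this]
      exact Nat.mul_le_mul_left _ (by omega)
    have e6 : d * (2 * n + L) = d * (2 * n) + d * L := by ring
    rw [← e4, e6, Nat.mul_add L]
    rcases Nat.eq_zero_or_pos d with h0 | h0
    · subst h0
      simp only [Nat.add_zero, Nat.zero_mul, Nat.mul_zero] at *
      split_ifs <;> omega
    · have e7 : L ≤ d * L := Nat.le_mul_of_pos_left _ h0
      have e8 : (if 2 ≤ a.length + d then a.length + d else 0) ≤ L := by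
        split_ifs <;> omega
      omega

/-- Erasing the blanks. -/
def er (u : List G.Sym) : List (A ⊕ G.N) := u.filterMap id

theorem er_append (u v : List G.Sym) : er (u ++ v) = er u ++ er v := by
  simp [er, List.filterMap_append]

theorem er_map (u : List (A ⊕ G.N)) : er (u.map some : List G.Sym) = u := by
  simp [er, List.filterMap_map]

theorem er_replicate (d : ℕ) : er (List.replicate d none : List G.Sym) = [] := by
  induction d with
  | zero => rfl
  | succ d _ => simp [er]

theorem derives_istep {i j : ℕ} {u v : List G.Sym} (h : Quad.IStep G.prules i j u v)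
    {z : List (A ⊕ G.N)} {m : ℕ} (hz : G.Derives z (er u) m) :
    ∃ m', G.Derives z (er v) m' := by
  obtain ⟨x, a, b, y, hR, rfl, rfl, _, _⟩ := h
  rcases hR with hR | ⟨r, hr, hR⟩ | ⟨s, hR⟩
  · simp only [Prod.mk.injEq] at hR
    obtain ⟨rfl, rfl⟩ := hR
    exact ⟨m, hz⟩
  · simp only [Prod.mk.injEq] at hR
    obtain ⟨rfl, rfl⟩ := hR
    rw [er_append, er_append, er_append, er_map, er_replicate, List.append_nil] at hz
    rw [er_append, er_append, er_map]
    exact ⟨_, Derives.step _ r.1 r.2 _ hz hr⟩
  · simp only [Prod.mk.injEq] at hR
    obtain ⟨rfl, rfl⟩ := hR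
    refine ⟨m, ?_⟩
    rw [er_append, er_append] at hz ⊢
    exact hz

theorem derives_run {u v : List G.Sym} {cr : ℕ → ℕ} {k : ℕ}
    {l r : List (Quad.splits G.prules)}
    (h : Quad.Run G.prules (fun e : Quad.splits G.prules => (e : Quad.Ev G.Sym)) u l r v cr k)
    (hl : l = []) (hr : r = []) {z : List (A ⊕ G.N)} {m : ℕ} (hz : G.Derives z (er u) m) :
    ∃ m', G.Derives z (er v) m' := by
  induction h generalizing m with
  | nil u => exact ⟨m, hz⟩
  | int i j hs _ ih =>
    obtain ⟨m', h1⟩ := derives_istep hs hz
    exact ih hl hr h1
  | left e hs _ ih => simp at hl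
  | right e hs _ ih => simp at hr

variable (G)

/-- Noncontracting grammars with quadratically short derivations generate deterministic
context-sensitive languages. -/
theorem mem_DCS [Finite A] {C : ℕ} (hC : ∀ w ∈ G.language, ∃ m ≤ C * w.length ^ 2,
    G.Derives [Sum.inr G.start] (w.map Sum.inl) m) {L : Language A}
    (hL : ∀ w ≠ [], w ∈ L ↔ w ∈ G.language) : L ∈ DCS A := by
  classical
  have _ := G.finN
  have hne : Nonempty G.Sym := ⟨none⟩
  let _ : Enc A := encFinite A
  let _ : Enc G.Sym := encFinite G.Sym
  let _ : Rd G.Sym := rdFinite G.Sym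
  obtain ⟨D, hD⟩ : ∃ D, ∀ p ∈ G.rules, p.2.length ≤ D := by
    obtain ⟨D, hD⟩ := (G.finRules.image fun p => p.2.length).bddAbove
    exact ⟨D, fun p hp => hD ⟨p, hp, rfl⟩⟩
  let u : List A → List G.Sym := fun w => some (Sum.inr G.start) :: w.tail.map (fun _ => none)
  let v : List A → List G.Sym := fun w => w.map (fun a => some (Sum.inl a))
  have hu : Lin u := (Lin.const _).cons (Lin.map' Lin.id.tail (Lin.const none))
  have hv : Lin v := Lin.map' Lin.id (Lin.of_finite _)
  obtain ⟨f, hf, f1, f2⟩ := Quad.lin_rw (R := G.prules) G.prules_finite G.prules_len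
    (Or.inl rfl) Quad.mono_log Quad.summable_log' (8 * (D * C + (D + 2)) + 100) hu hv
  have hv' : ∀ w, v w = (w.map Sum.inl).map some := by
    intro w; simp [v]
  refine mem_DCS_of_lin (f := fun w => if w.isEmpty then decide ([] ∈ L) else f w)
    ((Lin.isEmpty Lin.id).ite (Lin.const _) hf) L fun w => ?_
  cases hw : w with
  | nil => simp
  | cons a t =>
    rw [← hw]
    have hne' : w ≠ [] := by rw [hw]; simp
    have hnn : w.isEmpty = false := by rw [hw]; rfl
    have hpos : 1 ≤ w.length := List.length_pos_iff.2 hne'
    rw [hL w hne', hnn]
    simp only [Bool.false_eq_true, if_false]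
    have hul : (u w).length = w.length := by
      simp only [u, List.length_cons, List.length_map, List.length_tail]; omega
    have hu' : u w = [Sum.inr G.start].map some ++
        List.replicate (w.length - [(Sum.inr G.start : A ⊕ G.N)].length) none := by
      simp only [u, List.map_cons, List.map_nil, List.length_singleton, List.singleton_append,
        List.map_const', List.length_tail]
    constructor
    · intro h
      obtain ⟨c, k, h1⟩ := f2 w h
      have h2 : G.Derives [Sum.inr G.start] (er (u w)) 0 := by
        rw [hu', er_append, er_map, er_replicate, List.append_nil]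
        exact Derives.refl _
      obtain ⟨m, h3⟩ := derives_run h1 rfl rfl h2
      rw [hv', er_map] at h3
      exact ⟨m, h3⟩
    · intro h
      obtain ⟨m, h1, h2⟩ := hC w h
      obtain ⟨c, k, h3, h4⟩ := h2.rk hD (n := w.length) (by simp)
      rw [← hu', List.length_map, Nat.sub_self, List.replicate_zero, List.append_nil, ← hv'] at h3
      refine f1 w c k (by omega) h3 (Quad.hier_of_sum ?_)
      rw [hul]
      refine h4.trans ?_
      rw [List.length_map, List.length_singleton]
      have e1 : D * m ≤ D * (C * w.length ^ 2) := Nat.mul_le_mul_left _ h1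
      have e2 : (w.length - 1) * (2 * w.length + D) ≤ w.length * (2 * w.length + D * w.length) :=
        Nat.mul_le_mul (by omega) (Nat.add_le_add_left (Nat.le_mul_of_pos_right _ hpos) _)
      have e3 : w.length * (2 * w.length + D * w.length) = (D + 2) * w.length ^ 2 := by ring
      have e4 : (D * C + (D + 2)) * w.length ^ 2 =
        D * (C * w.length ^ 2) + (D + 2) * w.length ^ 2 := by ring
      omega

end Gram

end Pool.Agent.Lib.LinSpace
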