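import Pool.Agent.Lib.LinSpace.Quad.Sys
import Pool.Agent.Lib.LinSpace.Quad.Ex
import Pool.Agent.Lib.LinSpace.Load

/-!
Linear bounded automata in the classical one-tape form, numbers of crossings, and their
simulation by length-preserving rewriting systems.
-/

set_option autoImplicit false

namespace Pool.Agent.Lib.LinSpace

/-- A nondeterministic linear bounded automaton in the classical form: one tape, which holds the
input between two end markers and is rewritten by the automaton; the head never leaves the cells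
holding the input and the end markers. -/
structure LBA (A : Type) where
  /-- the states -/
  Q : Type
  /-- the tape symbols -/
  Γ : Type
  /-- there are finitely many states -/
  finQ : Finite Q
  /-- there are finitely many tape symbols -/
  finΓ : Finite Γ
  /-- input letters as tape symbols -/
  ι : A → Γ
  /-- the left end marker -/
  lend : Γ
  /-- the right end marker -/
  rend : Γ
  /-- the initial state -/
  start : Q
  /-- the accepting states -/
  acc : Set Q
  /-- the possible actions in state `q` when the head reads `x`: new state, symbol written, move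
  of the head -/
  δ : Q → Γ → Set (Q × Γ × Dir)

namespace LBA

variable {A : Type} (M : LBA A)

/-- A configuration. -/
@[ext] structure Cfg where
  /-- the state -/
  state : M.Q
  /-- the content of the tape -/
  tape : List M.Γ
  /-- the position of the head; the cells have the numbers `0, 1, ..., tape.length - 1` -/
  pos : ℕ

/-- The initial configuration on the input `w`: the tape consists of `w.length + 2` cells, which
hold the left end marker, the input, and the right end marker; the head is on the left end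
marker. -/
def init (w : List A) : M.Cfg := ⟨M.start, M.lend :: (w.map M.ι ++ [M.rend]), 0⟩

/-- One step; the head does not leave the tape. -/
def Step (c c' : M.Cfg) : Prop :=
  ∃ x q y d, c.tape[c.pos]? = some x ∧ (q, y, d) ∈ M.δ c.state x ∧ c'.state = q ∧
    c'.tape = c.tape.set c.pos y ∧ (c'.pos : ℤ) = c.pos + d.toInt ∧ c'.pos < c.tape.length

/-- `c 0, c 1, ..., c n` is a computation on the input `w`. -/
def IsComputation (w : List A) (n : ℕ) (c : ℕ → M.Cfg) : Prop :=
  c 0 = M.init w ∧ ∀ i < n, M.Step (c i) (c (i + 1))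

/-- The language accepted by the automaton. -/
def language : Language A :=
  {w | ∃ n c, M.IsComputation w n c ∧ (c n).state ∈ M.acc}

/-- The number of the steps of `c 0, c 1, ..., c n` in which the head moves from one of the cells
`p - 1` and `p` to the other one. -/
def crossings (n : ℕ) (c : ℕ → M.Cfg) (p : ℕ) : ℕ :=
  ((Finset.range n).filter fun i =>
    ((c i).pos + 1 = p ∧ (c (i + 1)).pos = p) ∨ ((c i).pos = p ∧ (c (i + 1)).pos + 1 = p)).card

theorem crossings_succ (n : ℕ) (c : ℕ → M.Cfg) (p : ℕ) :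
    M.crossings (n + 1) c p = M.crossings n c p +
      if ((c n).pos + 1 = p ∧ (c (n + 1)).pos = p) ∨ ((c n).pos = p ∧ (c (n + 1)).pos + 1 = p)
      then 1 else 0 := by
  unfold crossings
  rw [Finset.range_add_one, Finset.filter_insert]
  split_ifs with h
  · rw [Finset.card_insert_of_notMem (by simp)]
  · rfl

/-- The symbols of the rewriting system. -/
abbrev Sym : Type := M.Γ × Option M.Q

/-- The words representing configurations. -/
def wd (l : List M.Γ) (x : M.Γ) (q : M.Q) (r : List M.Γ) : List M.Sym :=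
  l.map (fun z => (z, none)) ++ (x, some q) :: r.map (fun z => (z, none))

theorem wd_inj {l r : List M.Γ} {x : M.Γ} {q : M.Q} {X Y : List M.Sym} {x' : M.Γ} {q' : M.Q}
    (h : M.wd l x q r = X ++ (x', some q') :: Y) :
    X = l.map (fun z => (z, none)) ∧ x = x' ∧ q = q' ∧ Y = r.map (fun z => (z, none)) := by
  induction l generalizing X with
  | nil =>
    cases X with
    | nil =>
      simp only [wd, List.map_nil, List.nil_append, List.cons.injEq, Prod.mk.injEq,
        Option.some.injEq] at h
      exact ⟨rfl, h.1.1, h.1.2, h.2.symm⟩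
    | cons a X =>
      simp only [wd, List.map_nil, List.nil_append, List.cons_append, List.cons.injEq] at h
      have h1 : ((x', some q') : M.Sym) ∈ r.map (fun z => ((z, none) : M.Sym)) := by
        rw [h.2]; simp
      simp at h1
  | cons z l ih =>
    cases X with
    | nil => simp [wd] at h
    | cons a X =>
      simp only [wd, List.map_cons, List.cons_append, List.cons.injEq] at h
      obtain ⟨h1, h2⟩ := h
      obtain ⟨e1, e2, e3, e4⟩ := ih h2
      exact ⟨by rw [e1, List.map_cons, h1], e2, e3, e4⟩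

/-- The rules. -/
def rules : Set (List M.Sym × List M.Sym) :=
  {p | p = ([], []) ∨
    (∃ x q y q', (q', y, Dir.stay) ∈ M.δ q x ∧ p = ([(x, some q)], [(y, some q')])) ∨
    (∃ x q y q' z, (q', y, Dir.right) ∈ M.δ q x ∧
      p = ([(x, some q), (z, none)], [(y, none), (z, some q')])) ∨
    (∃ x q y q' z, (q', y, Dir.left) ∈ M.δ q x ∧
      p = ([(z, none), (x, some q)], [(z, some q'), (y, none)]))}

theorem rules_len : ∀ p ∈ M.rules, p.1.length = p.2.length := by
  rintro p (rfl | ⟨x, q, y, q', _, rfl⟩ | ⟨x, q, y, q', z, _, rfl⟩ | ⟨x, q, y, q', z, _, rfl⟩) <;>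
    rfl

theorem rules_finite : M.rules.Finite := by
  have _ := M.finQ
  have _ := M.finΓ
  have h : ({[]} ∪ Set.range (fun a : M.Sym => [a]) ∪
      Set.range (fun a : M.Sym × M.Sym => [a.1, a.2]) : Set (List M.Sym)).Finite :=
    ((Set.finite_singleton _).union (Set.finite_range _)).union (Set.finite_range _)
  refine (h.prod h).subset ?_
  rintro p (rfl | ⟨x, q, y, q', _, rfl⟩ | ⟨x, q, y, q', z, _, rfl⟩ | ⟨x, q, y, q', z, _, rfl⟩) <;>
    simp

/-- The words representing a configuration. -/
def Rp (c : M.Cfg) (u : List M.Sym) : Prop :=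
  ∃ l x r, c.tape = l ++ x :: r ∧ c.pos = l.length ∧ u = M.wd l x c.state r

theorem step_istep {c c' : M.Cfg} (h : M.Step c c') {u : List M.Sym} (hu : M.Rp c u) :
    ∃ u' i j, M.Rp c' u' ∧ Quad.IStep M.rules i j u u' ∧ ∀ p, Quad.ind i j p =
      if (c.pos + 1 = p ∧ c'.pos = p) ∨ (c.pos = p ∧ c'.pos + 1 = p) then 1 else 0 := by
  obtain ⟨x, q, y, d, h1, h2, h3, h4, h5, h6⟩ := h
  obtain ⟨l, x', r, e1, e2, rfl⟩ := hu
  have hx : x' = x := by
    rw [e1, e2] at h1
    simpa using h1
  subst hx
  have hset : c'.tape = l ++ y :: r := by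
    rw [h4, e1, e2]
    simp
  cases d with
  | stay =>
    simp only [Dir.toInt, add_zero, Nat.cast_inj] at h5
    refine ⟨M.wd l y q r, l.length, 1, ⟨l, y, r, hset, by rw [h5, e2], by rw [h3]⟩, ?_, ?_⟩
    · exact ⟨l.map (fun z => (z, none)), [(x', some c.state)], [(y, some q)],
        r.map (fun z => (z, none)), Or.inr (Or.inl ⟨_, _, _, _, h2, rfl⟩), by simp [wd],
        by simp [wd], by simp, rfl⟩
    · intro p
      unfold Quad.ind
      rw [if_neg (by omega), if_neg (by omega)]
  | right =>
    simp only [Dir.toInt] at h5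
    have h7 : c'.pos = l.length + 1 := by omega
    cases r with
    | nil =>
      rw [e1, h7] at h6
      simp at h6
    | cons z r =>
      refine ⟨M.wd (l ++ [y]) z q r, l.length, 2,
        ⟨l ++ [y], z, r, by rw [hset]; simp, by rw [h7]; simp, by rw [h3]⟩, ?_, ?_⟩
      · exact ⟨l.map (fun z => (z, none)), [(x', some c.state), (z, none)],
          [(y, none), (z, some q)], r.map (fun z => (z, none)),
          Or.inr (Or.inr (Or.inl ⟨_, _, _, _, _, h2, rfl⟩)), by simp [wd],
          by simp [wd], by simp, rfl⟩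
      · intro p
        unfold Quad.ind
        rw [h7, e2]
        congr 1
        rw [eq_iff_iff]
        omega
  | left =>
    simp only [Dir.toInt] at h5
    rcases List.eq_nil_or_concat l with rfl | ⟨l', z, rfl⟩
    · rw [e2] at h5
      simp at h5
    · rw [List.concat_eq_append] at *
      rw [List.length_append, List.length_singleton] at e2
      have h7 : c'.pos = l'.length := by omega
      refine ⟨M.wd l' z q (y :: r), l'.length, 2,
        ⟨l', z, y :: r, by rw [hset]; simp, h7, by rw [h3]⟩, ?_, ?_⟩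
      · exact ⟨l'.map (fun z => (z, none)), [(z, none), (x', some c.state)],
          [(z, some q), (y, none)], r.map (fun z => (z, none)),
          Or.inr (Or.inr (Or.inr ⟨_, _, _, _, _, h2, rfl⟩)), by simp [wd],
          by simp [wd], by simp, rfl⟩
      · intro p
        unfold Quad.ind
        rw [h7, e2]
        congr 1
        rw [eq_iff_iff]
        omega

theorem istep_step {c : M.Cfg} {u u' : List M.Sym} (hu : M.Rp c u) {i j : ℕ}
    (h : Quad.IStep M.rules i j u u') : ∃ c', M.Rp c' u' ∧ (c' = c ∨ M.Step c c') := by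
  obtain ⟨l, x₀, r, e1, e2, e3⟩ := hu
  obtain ⟨X, a, b, Y, hR, rfl, rfl, _, _⟩ := h
  rcases hR with hR | ⟨x, q, y, q', hδ, hR⟩ | ⟨x, q, y, q', z, hδ, hR⟩ | ⟨x, q, y, q', z, hδ, hR⟩
  · simp only [Prod.mk.injEq] at hR
    obtain ⟨rfl, rfl⟩ := hR
    exact ⟨c, ⟨l, x₀, r, e1, e2, e3⟩, Or.inl rfl⟩
  · simp only [Prod.mk.injEq] at hR
    obtain ⟨rfl, rfl⟩ := hR
    rw [List.append_assoc, List.singleton_append] at e3
    obtain ⟨f1, f2, f3, f4⟩ := M.wd_inj e3.symm
    subst f2
    refine ⟨⟨q', l ++ y :: r, l.length⟩, ⟨l, y, r, rfl, rfl, ?_⟩, Or.inr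
      ⟨x₀, q', y, Dir.stay, ?_, ?_, rfl, ?_, ?_, ?_⟩⟩
    · rw [f1, f4]; simp [wd]
    · rw [e1, e2]; simp
    · rw [f3]; exact hδ
    · rw [e1, e2]; simp
    · rw [e2]; simp [Dir.toInt]
    · rw [e1]; simp
  · simp only [Prod.mk.injEq] at hR
    obtain ⟨rfl, rfl⟩ := hR
    have e4 : M.wd l x₀ c.state r = X ++ (x, some q) :: ((z, none) :: Y) := by
      rw [← e3]; simp
    obtain ⟨f1, f2, f3, f4⟩ := M.wd_inj e4
    subst f2
    cases r with
    | nil => simp at f4
    | cons z' r =>
      simp only [List.map_cons, List.cons.injEq, Prod.mk.injEq, and_true] at f4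
      obtain ⟨rfl, f4⟩ := f4
      refine ⟨⟨q', l ++ y :: z :: r, l.length + 1⟩, ⟨l ++ [y], z, r, by simp, by simp, ?_⟩,
        Or.inr ⟨x₀, q', y, Dir.right, ?_, ?_, rfl, ?_, ?_, ?_⟩⟩
      · rw [f1, f4]; simp [wd]
      · rw [e1, e2]; simp
      · rw [f3]; exact hδ
      · rw [e1, e2]; simp
      · rw [e2]; simp [Dir.toInt]
      · rw [e1]; simp
  · simp only [Prod.mk.injEq] at hR
    obtain ⟨rfl, rfl⟩ := hR
    have e4 : M.wd l x₀ c.state r = (X ++ [(z, none)]) ++ (x, some q) :: Y := by
      rw [← e3]; simp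
    obtain ⟨f1, f2, f3, f4⟩ := M.wd_inj e4
    subst f2
    rcases List.eq_nil_or_concat l with rfl | ⟨l', z', rfl⟩
    · simp at f1
    · rw [List.concat_eq_append] at *
      rw [List.map_append, List.map_singleton] at f1
      obtain ⟨f5, f6⟩ := List.append_inj' f1 rfl
      simp only [List.cons.injEq, Prod.mk.injEq, and_true] at f6
      subst f6
      refine ⟨⟨q', l' ++ z :: y :: r, l'.length⟩, ⟨l', z, y :: r, rfl, rfl, ?_⟩,
        Or.inr ⟨x₀, q', y, Dir.left, ?_, ?_, rfl, ?_, ?_, ?_⟩⟩
      · rw [f5, f4]; simp [wd]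
      · rw [e1, e2]; simp
      · rw [f3]; exact hδ
      · rw [e1, e2]; simp
      · rw [e2]; simp [Dir.toInt]
      · rw [e1]; simp

/-- Computations are runs of the rewriting system. -/
theorem exists_run {c : ℕ → M.Cfg} {n : ℕ} (h : ∀ i < n, M.Step (c i) (c (i + 1)))
    {u : List M.Sym} (hu : M.Rp (c 0) u) :
    ∃ v k, M.Rp (c n) v ∧ Quad.Run M.rules (fun e : Quad.splits M.rules => (e : Quad.Ev M.Sym))
      u [] [] v (M.crossings n c) k := by
  induction n with
  | zero =>
    have : M.crossings 0 c = 0 := by funext p; simp [crossings]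
    rw [this]
    exact ⟨u, 0, hu, Quad.Run.nil u⟩
  | succ n ih =>
    obtain ⟨v, k, h1, h2⟩ := ih fun i hi => h i (by omega)
    obtain ⟨v', i, j, h3, h4, h5⟩ := M.step_istep (h n (Nat.lt_succ_self n)) h1
    refine ⟨v', k + (0 + 1), h3, ?_⟩
    have h6 := h2.append (Quad.Run.int i j h4 (Quad.Run.nil v'))
    have h7 : M.crossings (n + 1) c = M.crossings n c + (0 + Quad.ind i j) := by
      funext p
      rw [Pi.add_apply, Pi.add_apply, h5, crossings_succ]
      simp
    rw [h7]
    exact h6

/-- Runs of the rewriting system are computations. -/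
theorem exists_comp {u v : List M.Sym} {cr : ℕ → ℕ} {k : ℕ} {l r : List (Quad.splits M.rules)}
    (h : Quad.Run M.rules (fun e : Quad.splits M.rules => (e : Quad.Ev M.Sym)) u l r v cr k)
    (hl : l = []) (hr : r = []) {c₀ : M.Cfg} {n₀ : ℕ} {c : ℕ → M.Cfg} (h0 : c 0 = c₀)
    (hc : ∀ i < n₀, M.Step (c i) (c (i + 1))) (hu : M.Rp (c n₀) u) :
    ∃ (n : ℕ) (c' : ℕ → M.Cfg), c' 0 = c₀ ∧ (∀ i < n, M.Step (c' i) (c' (i + 1))) ∧
      M.Rp (c' n) v := by
  induction h generalizing n₀ c with
  | nil u => exact ⟨n₀, c, h0, hc, hu⟩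
  | int i j hs _ ih =>
    obtain ⟨d, h1, h2⟩ := M.istep_step hu hs
    rcases h2 with rfl | h2
    · exact ih hl hr h0 hc h1
    · refine ih hl hr (c := fun i => if i ≤ n₀ then c i else d) (n₀ := n₀ + 1) ?_ ?_ ?_
      · simp only [Nat.zero_le, if_true]; exact h0
      · intro i hi
        rcases Nat.lt_or_ge i n₀ with h3 | h3
        · simp only [if_pos h3.le, if_pos (show i + 1 ≤ n₀ by omega)]
          exact hc i h3
        · have : i = n₀ := by omega
          subst this
          simp only [le_refl, if_true, if_neg (show ¬ i + 1 ≤ i by omega)]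
          exact h2
      · simp only [if_neg (show ¬ n₀ + 1 ≤ n₀ by omega)]
        exact h1
  | left e hs _ ih => simp at hl
  | right e hs _ ih => simp at hr

/-- Acceptance. -/
noncomputable def accB (p : M.Sym) : Bool := by
  classical exact decide (∃ q ∈ M.acc, p.2 = some q)

theorem accB_iff {c : M.Cfg} {u : List M.Sym} (h : M.Rp c u) :
    (¬ (u.all fun p => !M.accB p) = true) ↔ c.state ∈ M.acc := by
  classical
  obtain ⟨l, x, r, _, _, rfl⟩ := h
  simp only [List.all_eq_true, Bool.not_eq_true', not_forall, Bool.not_eq_false, wd,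
    List.mem_append, List.mem_cons, List.mem_map, accB, decide_eq_true_eq]
  constructor
  · rintro ⟨p, hp, q, hq, hpq⟩
    rcases hp with ⟨z, _, rfl⟩ | rfl | ⟨z, _, rfl⟩
    · simp at hpq
    · simp only [Option.some.injEq] at hpq; rw [hpq]; exact hq
    · simp at hpq
  · intro hc
    exact ⟨_, Or.inr (Or.inl rfl), _, hc, rfl⟩

/-- The condition on the automaton: every accepted word has an accepting computation such that
every interval of `b` cells, with `b ^ 2 ≥ C * N`, where `N` is the number of all cells, has a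
boundary in its middle third that is crossed at most `C * N * 2 ^ φ (N / b)` times. -/
def RarelyMovesFar (φ : ℕ → ℕ) (C : ℕ) : Prop :=
  ∀ w ∈ M.language, ∃ n c, M.IsComputation w n c ∧ (c n).state ∈ M.acc ∧
    ∀ x b, 0 < b → x + b ≤ w.length + 2 → C * (w.length + 2) ≤ b ^ 2 →
      ∃ p, b ≤ 3 * p ∧ 3 * p ≤ 2 * b ∧
        M.crossings n c (x + p) ≤ C * (w.length + 2) * 2 ^ φ ((w.length + 2) / b)

/-- Linear bounded automata that rarely move far accept deterministic context-sensitive
languages. -/
theorem mem_DCS [Finite A] {φ : ℕ → ℕ} (hφ : Monotone φ)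
    (hs : Summable fun m : ℕ => (φ m : ℝ) / (m : ℝ) ^ 2) {C : ℕ} (hM : M.RarelyMovesFar φ C) :
    M.language ∈ DCS A := by
  classical
  have _ := M.finQ
  have _ := M.finΓ
  have hne : Nonempty M.Sym := ⟨(M.lend, none)⟩
  let _ : Enc A := encFinite A
  let _ : Enc M.Sym := encFinite M.Sym
  let _ : Rd M.Sym := rdFinite M.Sym
  obtain ⟨B, hB⟩ : ∃ B, ∀ a : M.Sym, sz a ≤ B := by
    obtain ⟨a, ha⟩ := (Set.finite_range fun l : M.Sym => sz l).bddAbove
    exact ⟨a, fun l => ha ⟨l, rfl⟩⟩
  -- the initial word
  let u : List A → List M.Sym := fun w =>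
    (M.lend, some M.start) :: (w.map (fun a => (M.ι a, none)) ++ [(M.rend, none)])
  have hu : Lin u := (Lin.const _).cons ((Lin.map' Lin.id (Lin.of_finite _)).append
    (Lin.const _))
  have hRp : ∀ w, M.Rp (M.init w) (u w) := by
    intro w
    refine ⟨[], M.lend, w.map M.ι ++ [M.rend], rfl, rfl, ?_⟩
    simp [wd, u, init]
  have hul : ∀ w, (u w).length = w.length + 2 := by
    intro w; simp [u]
  obtain ⟨f, hf, f1, f2⟩ := Quad.lin_rw (R := M.rules) M.rules_finite M.rules_len (Or.inl rfl) hφ hs C
    (ω := List A × List M.Sym) (u := fun p => u p.1) (v := fun p => p.2) (hu.comp Lin.fst)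
    Lin.snd
  have hacc : Lin (fun p : List A × List M.Sym => f p && !(p.2.all fun p => !M.accB p)) :=
    hf.and (Lin.all' Lin.snd (Lin.of_finite fun p => !M.accB p)).not
  refine mem_DCS_of_lin (f := fun w => decide (∃ v : List M.Sym,
    sz v ≤ (3 * B + 4) * sz w + (3 * B + 4) ∧ (f (w, v) && !(v.all fun p => !M.accB p)) = true))
    (Lin.ex hacc _ fun w => by rw [decide_eq_true_eq]) M.language fun w => ?_
  rw [decide_eq_true_eq]
  constructor
  · rintro ⟨v, _, h2⟩
    simp only [Bool.and_eq_true, Bool.not_eq_true'] at h2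
    obtain ⟨c, k, h3⟩ := f2 _ h2.1
    obtain ⟨n, c', h4, h5, h6⟩ := M.exists_comp h3 rfl rfl (c := fun _ => M.init w) (n₀ := 0)
      rfl (fun i hi => by omega) (hRp w)
    refine ⟨n, c', ⟨h4, h5⟩, (M.accB_iff h6).1 ?_⟩
    rw [h2.2]
    simp
  · intro hw
    obtain ⟨n, c, ⟨h1, h2⟩, h3, h4⟩ := hM w hw
    obtain ⟨v, k, h5, h6⟩ := M.exists_run h2 (u := u w) (by rw [h1]; exact hRp w)
    refine ⟨v, ?_, ?_⟩
    · have h7 := h6.length (Quad.splits_good M.rules_len (L := 2) (by
        rintro p (rfl | ⟨x, q, y, q', _, rfl⟩ | ⟨x, q, y, q', z, _, rfl⟩ |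
          ⟨x, q, y, q', z, _, rfl⟩) <;> simp))
      rw [hul] at h7
      have h8 := sz_le_length hB v
      have h9 := length_le_sz w
      rw [h7] at h8
      have h10 : (B + 1) * (w.length + 2) ≤ (3 * B + 4) * sz w + 2 * (B + 1) := by
        have e1 : (B + 1) * (w.length + 2) = (B + 1) * w.length + 2 * (B + 1) := by ring
        have e2 : (B + 1) * w.length ≤ (3 * B + 4) * sz w :=
          Nat.mul_le_mul (by omega) h9.le
        omega
      omega
    · simp only [Bool.and_eq_true]
      refine ⟨f1 (w, v) _ k ?_ h6 ?_, ?_⟩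
      · simp only
        rw [hul]
        omega
      · simp only
        rw [hul]
        exact h4
      · have := (M.accB_iff h5).2 h3
        simpa using this

end LBA

end Pool.Agent.Lib.LinSpace
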