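import Pool.Agent.Lib.LinSpace.Quad.Gram

/-!
Noncontracting grammars with derivations of quadratic length generate deterministic
context-sensitive languages.
-/

set_option autoImplicit false

namespace Pool.Agent.Results.MP_768539_lc.QuadraticDerivations

open Pool.Agent.Lib.LinSpace

/-- Let `G` be a noncontracting grammar and `C` a constant such that every word `w` generated by
`G` has a derivation in which rules with at least two symbols on the left-hand side are applied
at most `C * |w| ^ 2` times. Then every language that agrees with the language of `G` up to the
empty word is deterministic context-sensitive. -/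
theorem result (A : Type) [Finite A] (G : Gram A) (C : ℕ)
    (hC : ∀ w ∈ G.language, ∃ m ≤ C * w.length ^ 2,
      G.Derives [Sum.inr G.start] (w.map Sum.inl) m)
    (L : Language A) (hL : ∀ w ≠ [], w ∈ L ↔ w ∈ G.language) : L ∈ DCS A :=
  G.mem_DCS hC hL

end Pool.Agent.Results.MP_768539_lc.QuadraticDerivations
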