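import Mathlib
import Pool.Agent.Lib.LinSpace.Quad.Budget

section

/-!
Runs of a length-preserving rewriting system inside a block of cells, with prescribed sequences
of rule applications across the two ends of the block.
-/

set_option autoImplicit false

namespace Pool.Agent.Lib.LinSpace.Quad

/-- An application of a rule across the boundary between two blocks: what the left part of the
rule replaces and by what, and what the right part replaces and by what. -/
abbrev Ev (Γ : Type) := (List Γ × List Γ) × (List Γ × List Γ)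

variable {Γ ι : Type}

/-- A rule is applied inside the block: at the cells `i, ..., i + j - 1`. -/
def IStep (R : Set (List Γ × List Γ)) (i j : ℕ) (u u' : List Γ) : Prop :=
  ∃ x a b y, (a, b) ∈ R ∧ u = x ++ a ++ y ∧ u' = x ++ b ++ y ∧ x.length = i ∧ a.length = j

/-- A rule is applied across the left end of the block. -/
def LStep (e : Ev Γ) (u u' : List Γ) : Prop := ∃ y, u = e.2.1 ++ y ∧ u' = e.2.2 ++ y

/-- A rule is applied across the right end of the block. -/
def RStep (e : Ev Γ) (u u' : List Γ) : Prop := ∃ x, u = x ++ e.1.1 ∧ u' = x ++ e.1.2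

/-- The boundaries crossed by a rule application. -/
def ind (i j : ℕ) : ℕ → ℕ := fun p => if i < p ∧ p < i + j then 1 else 0

/-- `Run R ev u l r v c k`: the content of the block changes from `u` to `v`, with the sequence
`l` of rule applications across the left end, the sequence `r` across the right end, and `k`
rule applications inside the block; the boundary `p` inside the block is crossed `c p` times. -/
inductive Run (R : Set (List Γ × List Γ)) (ev : ι → Ev Γ) :
    List Γ → List ι → List ι → List Γ → (ℕ → ℕ) → ℕ → Prop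
  | nil (u : List Γ) : Run R ev u [] [] u 0 0
  | int {u u' v : List Γ} {l r : List ι} {c : ℕ → ℕ} {k : ℕ} (i j : ℕ) : IStep R i j u u' →
      Run R ev u' l r v c k → Run R ev u l r v (c + ind i j) (k + 1)
  | left {u u' v : List Γ} {l r : List ι} {c : ℕ → ℕ} {k : ℕ} (e : ι) : LStep (ev e) u u' →
      Run R ev u' l r v c k → Run R ev u (e :: l) r v c k
  | right {u u' v : List Γ} {l r : List ι} {c : ℕ → ℕ} {k : ℕ} (e : ι) : RStep (ev e) u u' →
      Run R ev u' l r v c k → Run R ev u l (e :: r) v c k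

/-- The conditions on rules and split rules. -/
structure Good (R : Set (List Γ × List Γ)) (ev : ι → Ev Γ) (L : ℕ) : Prop where
  /-- rules preserve lengths -/
  len : ∀ p ∈ R, p.1.length = p.2.length
  /-- rules are short -/
  le : ∀ p ∈ R, p.1.length ≤ L
  /-- split rules preserve lengths -/
  evl : ∀ e, (ev e).1.1.length = (ev e).1.2.length
  /-- split rules preserve lengths -/
  evr : ∀ e, (ev e).2.1.length = (ev e).2.2.length
  /-- split rules are rules -/
  mem : ∀ e, ((ev e).1.1 ++ (ev e).2.1, (ev e).1.2 ++ (ev e).2.2) ∈ R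
  /-- all rules can be split everywhere -/
  split : ∀ p ∈ R, ∀ q, 0 < q → q < p.1.length →
    ∃ e, ev e = ((p.1.take q, p.2.take q), (p.1.drop q, p.2.drop q))

variable {R : Set (List Γ × List Γ)} {ev : ι → Ev Γ} {L : ℕ}

theorem IStep.length (hG : Good R ev L) {i j : ℕ} {u u' : List Γ} (h : IStep R i j u u') :
    u'.length = u.length ∧ i + j ≤ u.length ∧ j ≤ L := by
  obtain ⟨x, a, b, y, hR, rfl, rfl, rfl, rfl⟩ := h
  have h1 := hG.len _ hR
  have h2 := hG.le _ hR
  simp only [List.length_append]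
  simp only at h1 h2
  omega

theorem Run.length (hG : Good R ev L) {u v : List Γ} {l r : List ι} {c : ℕ → ℕ} {k : ℕ}
    (h : Run R ev u l r v c k) : v.length = u.length := by
  induction h with
  | nil u => rfl
  | int i j hs _ ih => rw [ih, (hs.length hG).1]
  | left e hs _ ih =>
    obtain ⟨y, rfl, rfl⟩ := hs
    have := hG.evr e
    simp only [List.length_append] at ih ⊢
    omega
  | right e hs _ ih =>
    obtain ⟨x, rfl, rfl⟩ := hs
    have := hG.evl e
    simp only [List.length_append] at ih ⊢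
    omega

theorem Run.append {u u' v : List Γ} {l r l' r' : List ι} {c c' : ℕ → ℕ} {k k' : ℕ}
    (h : Run R ev u l r u' c k) (h' : Run R ev u' l' r' v c' k') :
    Run R ev u (l ++ l') (r ++ r') v (c + c') (k + k') := by
  induction h with
  | nil u => simpa using h'
  | @int u u₁ v₁ l r c k i j hs _ ih =>
    have := Run.int i j hs (ih h')
    rwa [Nat.add_right_comm, add_right_comm c] at this
  | left e hs _ ih => exact Run.left e hs (ih h')
  | right e hs _ ih => exact Run.right e hs (ih h')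

/-- Runs in two adjacent blocks with the same rule applications across their common boundary
are glued to a run in the union. -/
theorem Run.glue (hG : Good R ev L) {u₁ v₁ : List Γ} {l m : List ι} {c₁ : ℕ → ℕ} {k₁ : ℕ}
    (h₁ : Run R ev u₁ l m v₁ c₁ k₁) : ∀ {u₂ v₂ : List Γ} {r : List ι} {c₂ : ℕ → ℕ} {k₂ : ℕ},
    Run R ev u₂ m r v₂ c₂ k₂ → ∃ c k, Run R ev (u₁ ++ u₂) l r (v₁ ++ v₂) c k := by
  induction h₁ with
  | nil u₁ =>
    intro u₂ v₂ r c₂ k₂ h₂
    have aux : ∀ (u₂ v₂ : List Γ) (r m : List ι) (c₂ : ℕ → ℕ) (k₂ : ℕ),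
        Run R ev u₂ m r v₂ c₂ k₂ → m = [] →
        ∃ c k, Run R ev (u₁ ++ u₂) [] r (u₁ ++ v₂) c k := by
      intro u₂ v₂ r m c₂ k₂ h
      induction h with
      | nil u => exact fun _ => ⟨0, 0, Run.nil _⟩
      | int i j hs _ ih =>
        intro hm
        obtain ⟨c, k, hk⟩ := ih hm
        obtain ⟨x, a, b, y, hR, rfl, rfl, _, _⟩ := hs
        exact ⟨_, k + 1, Run.int _ _ ⟨u₁ ++ x, a, b, y, hR, by simp, by simp, rfl, rfl⟩ hk⟩
      | left e _ _ _ => intro hm; simp at hm
      | right e hs _ ih =>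
        intro hm
        obtain ⟨c, k, hk⟩ := ih hm
        obtain ⟨x, rfl, rfl⟩ := hs
        exact ⟨c, k, Run.right e ⟨u₁ ++ x, by simp, by simp⟩ hk⟩
    exact aux u₂ v₂ r [] c₂ k₂ h₂ rfl
  | int i j hs _ ih =>
    intro u₂ v₂ r c₂ k₂ h₂
    obtain ⟨c, k, hk⟩ := ih h₂
    obtain ⟨x, a, b, y, hR, rfl, rfl, _, _⟩ := hs
    exact ⟨_, k + 1, Run.int _ _ ⟨x, a, b, y ++ u₂, hR, by simp, by simp, rfl, rfl⟩ hk⟩
  | left e hs _ ih =>
    intro u₂ v₂ r c₂ k₂ h₂
    obtain ⟨c, k, hk⟩ := ih h₂
    obtain ⟨y, rfl, rfl⟩ := hs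
    exact ⟨c, k, Run.left e ⟨y ++ u₂, by simp, by simp⟩ hk⟩
  | @right u₁ u₁' v₁ l m' c₁ k₁ e hs _ ih =>
    intro u₂ v₂ r c₂ k₂ h₂
    have aux : ∀ (u₂ v₂ : List Γ) (r m : List ι) (c₂ : ℕ → ℕ) (k₂ : ℕ),
        Run R ev u₂ m r v₂ c₂ k₂ →
        m = e :: m' → ∃ c k, Run R ev (u₁ ++ u₂) l r (v₁ ++ v₂) c k := by
      intro u₂ v₂ r m c₂ k₂ h
      induction h with
      | nil u => intro hm; simp at hm
      | int i j hs' _ ih' =>
        intro hm
        obtain ⟨c, k, hk⟩ := ih' hm
        obtain ⟨x, a, b, y, hR, rfl, rfl, _, _⟩ := hs'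
        exact ⟨_, k + 1, Run.int _ _ ⟨u₁ ++ x, a, b, y, hR, by simp, by simp, rfl, rfl⟩ hk⟩
      | left e' hs' h' _ =>
        intro hm
        obtain ⟨rfl, rfl⟩ := List.cons.inj hm
        obtain ⟨c, k, hk⟩ := ih h'
        obtain ⟨x, rfl, rfl⟩ := hs
        obtain ⟨y, rfl, rfl⟩ := hs'
        exact ⟨_, k + 1, Run.int _ _ ⟨x, _, _, y, hG.mem e', by simp, by simp, rfl, rfl⟩ hk⟩
      | right e' hs' _ ih' =>
        intro hm
        obtain ⟨c, k, hk⟩ := ih' hm
        obtain ⟨x, rfl, rfl⟩ := hs'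
        exact ⟨c, k, Run.right e' ⟨u₁ ++ x, by simp, by simp⟩ hk⟩
    exact aux u₂ v₂ r _ c₂ k₂ h₂ rfl

/-- A run is cut at a position; the number of rule applications across the cut is `c p`. -/
theorem Run.cut (hG : Good R ev L) {u v : List Γ} {l r : List ι} {c : ℕ → ℕ} {k : ℕ}
    (h : Run R ev u l r v c k) (p : ℕ) (hp1 : L ≤ p) : p + L ≤ u.length →
      ∃ m c₁ c₂ k₁ k₂, m.length = c p ∧ (∀ q, c₁ q ≤ c q) ∧ (∀ q, c₂ q ≤ c (q + p)) ∧
        Run R ev (u.take p) l m (v.take p) c₁ k₁ ∧ Run R ev (u.drop p) m r (v.drop p) c₂ k₂ := by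
  induction h with
  | nil u =>
    exact fun _ => ⟨[], 0, 0, 0, 0, rfl, fun _ => le_refl _, fun _ => le_refl _,
      Run.nil _, Run.nil _⟩
  | @int u u' v l r c k i j hs h ih =>
    intro hp2
    have hlen := hs.length hG
    obtain ⟨m, c₁, c₂, k₁, k₂, hm, hc1, hc2, h1, h2⟩ := ih (by omega)
    obtain ⟨x, a, b, y, hR, rfl, rfl, rfl, rfl⟩ := hs
    have hab : a.length = b.length := hG.len _ hR
    rcases Nat.lt_or_ge x.length p with hxp | hxp
    · rcases Nat.lt_or_ge p (x.length + a.length) with hpa | hpa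
      · -- the rule crosses the boundary
        obtain ⟨q, rfl⟩ := Nat.exists_eq_add_of_lt hxp
        obtain ⟨e, he⟩ := hG.split _ hR (q + 1) (by omega) (by simp only; omega)
        have e1 : ∀ z : List Γ, z.length = a.length →
            (x ++ z ++ y).take (x.length + q + 1) = x ++ z.take (q + 1) := by
          intro z hz
          rw [List.append_assoc, List.take_append, List.take_of_length_le (by omega),
            show x.length + q + 1 - x.length = q + 1 by omega,
            List.take_append_of_le_length (by omega)]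
        have e2 : ∀ z : List Γ, z.length = a.length →
            (x ++ z ++ y).drop (x.length + q + 1) = z.drop (q + 1) ++ y := by
          intro z hz
          rw [List.append_assoc, List.drop_append, List.drop_of_length_le (by omega),
            show x.length + q + 1 - x.length = q + 1 by omega,
            List.drop_append_of_le_length (by omega), List.nil_append]
        refine ⟨e :: m, c₁, c₂, k₁, k₂, ?_, ?_, ?_, ?_, ?_⟩
        · simp only [List.length_cons, hm, Pi.add_apply, ind]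
          rw [if_pos ⟨by omega, by omega⟩]
        · exact fun q => (hc1 q).trans (Nat.le_add_right _ _)
        · exact fun q => (hc2 q).trans (Nat.le_add_right _ _)
        · refine Run.right e ⟨x, ?_, ?_⟩ h1
          · rw [e1 a rfl, he]
          · rw [e1 b hab.symm, he]
        · refine Run.left e ⟨y, ?_, ?_⟩ h2
          · rw [e2 a rfl, he]
          · rw [e2 b hab.symm, he]
      · -- the rule is applied to the left of the boundary
        refine ⟨m, c₁ + ind x.length a.length, c₂, k₁ + 1, k₂, ?_, ?_, ?_, ?_, ?_⟩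
        · simp only [hm, Pi.add_apply, ind]
          rw [if_neg (by omega), Nat.add_zero]
        · exact fun q => Nat.add_le_add_right (hc1 q) _
        · exact fun q => (hc2 q).trans (Nat.le_add_right _ _)
        · refine Run.int _ _ ⟨x, a, b, y.take (p - (x.length + a.length)), hR, ?_, ?_,
            rfl, rfl⟩ h1
          · rw [List.take_append, List.take_of_length_le (l := x ++ a)
              (by rw [List.length_append]; omega), List.length_append]
          · rw [List.take_append, List.take_of_length_le (l := x ++ b)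
              (by rw [List.length_append]; omega), List.length_append, hab]
        · have e1 : (x ++ a ++ y).drop p = (x ++ b ++ y).drop p := by
            rw [List.drop_append (l₁ := x ++ a), List.drop_append (l₁ := x ++ b),
              List.drop_of_length_le (l := x ++ a) (by rw [List.length_append]; omega),
              List.drop_of_length_le (l := x ++ b) (by rw [List.length_append]; omega),
              List.length_append, List.length_append, hab]
          rw [e1]
          exact h2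
    · -- the rule is applied to the right of the boundary
      refine ⟨m, c₁, c₂ + ind (x.length - p) a.length, k₁, k₂ + 1, ?_, ?_, ?_, ?_, ?_⟩
      · simp only [hm, Pi.add_apply, ind]
        rw [if_neg (by omega), Nat.add_zero]
      · exact fun q => (hc1 q).trans (Nat.le_add_right _ _)
      · intro q
        refine Nat.add_le_add (hc2 q) ?_
        simp only [ind]
        split_ifs <;> omega
      · have e1 : (x ++ a ++ y).take p = (x ++ b ++ y).take p := by
          rw [List.append_assoc, List.append_assoc, List.take_append_of_le_length hxp,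
            List.take_append_of_le_length hxp]
        rw [e1]
        exact h1
      · refine Run.int _ _ ⟨x.drop p, a, b, y, hR, ?_, ?_, by rw [List.length_drop], rfl⟩ h2
        · rw [List.append_assoc, List.drop_append_of_le_length hxp, List.append_assoc]
        · rw [List.append_assoc, List.drop_append_of_le_length hxp, List.append_assoc]
  | @left u u' v l r c k e hs h ih =>
    intro hp2
    obtain ⟨y, rfl, rfl⟩ := hs
    have h1 := hG.evr e
    have h2 : (ev e).2.1.length ≤ L := by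
      have := hG.le _ (hG.mem e)
      rw [List.length_append] at this
      omega
    obtain ⟨m, c₁, c₂, k₁, k₂, hm, hk1, hk2, h3, h4⟩ := ih (by
      simp only [List.length_append] at hp2 ⊢; omega)
    refine ⟨m, c₁, c₂, k₁, k₂, hm, hk1, hk2, ?_, ?_⟩
    · refine Run.left e ⟨y.take (p - (ev e).2.1.length), ?_, ?_⟩ h3
      · rw [List.take_append, List.take_of_length_le (by omega)]
      · rw [List.take_append, List.take_of_length_le (by omega), h1]
    · have e1 : ((ev e).2.1 ++ y).drop p = ((ev e).2.2 ++ y).drop p := by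
        rw [List.drop_append, List.drop_append,
          List.drop_of_length_le (l := (ev e).2.1) (by omega),
          List.drop_of_length_le (l := (ev e).2.2) (by omega), h1]
      rw [e1]
      exact h4
  | @right u u' v l r c k e hs h ih =>
    intro hp2
    obtain ⟨x, rfl, rfl⟩ := hs
    have h1 := hG.evl e
    have h2 : (ev e).1.1.length ≤ L := by
      have := hG.le _ (hG.mem e)
      rw [List.length_append] at this
      omega
    have hxp : p ≤ x.length := by
      rw [List.length_append] at hp2; omega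
    obtain ⟨m, c₁, c₂, k₁, k₂, hm, hk1, hk2, h3, h4⟩ := ih (by
      simp only [List.length_append] at hp2 ⊢; omega)
    refine ⟨m, c₁, c₂, k₁, k₂, hm, hk1, hk2, ?_, ?_⟩
    · have e1 : (x ++ (ev e).1.1).take p = (x ++ (ev e).1.2).take p := by
        rw [List.take_append_of_le_length hxp, List.take_append_of_le_length hxp]
      rw [e1]
      exact h3
    · refine Run.right e ⟨x.drop p, ?_, ?_⟩ h4
      · rw [List.drop_append_of_le_length hxp]
      · rw [List.drop_append_of_le_length hxp]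

/-- A run is cut in time after any number of steps. -/
theorem Run.split {u v : List Γ} {l r : List ι} {c : ℕ → ℕ} {k : ℕ}
    (h : Run R ev u l r v c k) : ∀ n ≤ k + l.length + r.length,
      ∃ z l₁ l₂ r₁ r₂ c₁ c₂ k₁ k₂, l = l₁ ++ l₂ ∧ r = r₁ ++ r₂ ∧
        k₁ + l₁.length + r₁.length = n ∧
        k₂ + l₂.length + r₂.length = k + l.length + r.length - n ∧
        Run R ev u l₁ r₁ z c₁ k₁ ∧ Run R ev z l₂ r₂ v c₂ k₂ := by
  induction h with
  | nil u =>
    intro n hn
    simp only [List.length_nil, Nat.add_zero, Nat.le_zero] at hn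
    subst hn
    exact ⟨u, [], [], [], [], 0, 0, 0, 0, rfl, rfl, rfl, rfl, Run.nil u, Run.nil u⟩
  | @int u u' v l r c k i j hs h ih =>
    intro n hn
    cases n with
    | zero =>
      exact ⟨u, [], l, [], r, 0, _, 0, k + 1, rfl, rfl, rfl, by omega, Run.nil u,
        Run.int i j hs h⟩
    | succ n =>
      obtain ⟨z, l₁, l₂, r₁, r₂, c₁, c₂, k₁, k₂, h1, h2, h3, h4, h5, h6⟩ := ih n (by omega)
      exact ⟨z, l₁, l₂, r₁, r₂, _, c₂, k₁ + 1, k₂, h1, h2, by omega, by omega,
        Run.int i j hs h5, h6⟩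
  | @left u u' v l r c k e hs h ih =>
    intro n hn
    rw [List.length_cons] at hn
    cases n with
    | zero =>
      exact ⟨u, [], e :: l, [], r, 0, _, 0, k, rfl, rfl, rfl, by omega, Run.nil u,
        Run.left e hs h⟩
    | succ n =>
      obtain ⟨z, l₁, l₂, r₁, r₂, c₁, c₂, k₁, k₂, h1, h2, h3, h4, h5, h6⟩ := ih n (by omega)
      refine ⟨z, e :: l₁, l₂, r₁, r₂, c₁, c₂, k₁, k₂, by rw [h1]; rfl, h2, ?_, ?_,
        Run.left e hs h5, h6⟩
      · rw [List.length_cons]; omega
      · rw [List.length_cons]; omega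
  | @right u u' v l r c k e hs h ih =>
    intro n hn
    rw [List.length_cons] at hn
    cases n with
    | zero =>
      exact ⟨u, [], l, [], e :: r, 0, _, 0, k, rfl, rfl, rfl, by rw [List.length_cons]; omega,
        Run.nil u, Run.right e hs h⟩
    | succ n =>
      obtain ⟨z, l₁, l₂, r₁, r₂, c₁, c₂, k₁, k₂, h1, h2, h3, h4, h5, h6⟩ := ih n (by omega)
      refine ⟨z, l₁, l₂, e :: r₁, r₂, c₁, c₂, k₁, k₂, h1, by rw [h2]; rfl, ?_, ?_,
        Run.right e hs h5, h6⟩
      · rw [List.length_cons]; omega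
      · rw [List.length_cons]; omega

end Pool.Agent.Lib.LinSpace.Quad
end

section

/-!
Runs are cut into time slabs of small weight.
-/

set_option autoImplicit false

namespace Pool.Agent.Lib.LinSpace.Quad

variable {Γ ι : Type} {R : Set (List Γ × List Γ)} {ev : ι → Ev Γ} {L : ℕ}

/-- A block in a time interval: the contents before and after, and the sequences of rule
applications across the two ends. -/
abbrev Blk (Γ ι : Type) := List Γ × (List Γ × (List ι × List ι))

/-- A run in a block. -/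
def RunB (R : Set (List Γ × List Γ)) (ev : ι → Ev Γ) (x : Blk Γ ι) (c : ℕ → ℕ) (k : ℕ) : Prop :=
  Run R ev x.1 x.2.2.1 x.2.2.2 x.2.1 c k

/-- The blocks `zs` are consecutive parts of the block `x`. -/
def Sl (x : Blk Γ ι) (zs : List (Blk Γ ι)) : Prop :=
  x.1 :: zs.map (fun p => p.2.1) = zs.map (fun p => p.1) ++ [x.2.1] ∧
    (zs.map fun p => p.2.2.1).flatten = x.2.2.1 ∧ (zs.map fun p => p.2.2.2).flatten = x.2.2.2

/-- The weight of a part. -/
def wgt (φ : (ℕ → ℕ) → ℕ) (wE : ℕ) (p : Blk Γ ι) (c : ℕ → ℕ) : ℕ :=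
  wE * (p.2.2.1.length + p.2.2.2.length) + φ c

/-- A decomposition into parts of weight at most `θ`, not too many. -/
def Slabs (R : Set (List Γ × List Γ)) (ev : ι → Ev Γ) (φ : (ℕ → ℕ) → ℕ) (wE θ W : ℕ)
    (x : Blk Γ ι) (c : ℕ → ℕ) : Prop :=
  ∃ p ps cp kp, Sl x (p :: ps) ∧ RunB R ev p cp kp ∧ (∀ q, cp q ≤ c q) ∧
    wgt φ wE p cp ≤ θ ∧
    (∀ z ∈ ps, ∃ c' k', RunB R ev z c' k' ∧ (∀ q, c' q ≤ c q) ∧ wgt φ wE z c' ≤ θ) ∧
    ps.length * (θ - W) + wgt φ wE p cp ≤ wgt φ wE x c

theorem Slabs.cons {φ : (ℕ → ℕ) → ℕ} {wE θ W : ℕ} {u u' v : List Γ} {dl dr l r : List ι}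
    {dc c : ℕ → ℕ} {dk : ℕ} (hadd : ∀ c c', φ (c + c') = φ c + φ c')
    (hW : W ≤ θ) (h1 : Run R ev u dl dr u' dc dk)
    (hw : wE * (dl.length + dr.length) + φ dc ≤ W)
    (h : Slabs R ev φ wE θ W (u', (v, (l, r))) c) :
    Slabs R ev φ wE θ W (u, (v, (dl ++ l, dr ++ r))) (dc + c) := by
  obtain ⟨⟨u₀, v₀, l₀, r₀⟩, ps, c₀, k₀, ⟨hch, hl, hr⟩, hrun, hle, hp, hps, hn⟩ := h
  simp only [List.map_cons, List.cons_append, List.cons.injEq, List.flatten_cons] at hch hl hr
  obtain ⟨rfl, hch⟩ := hch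
  simp only [RunB] at hrun
  simp only [wgt] at hp hn
  have e1 : wE * ((dl ++ l).length + (dr ++ r).length) + φ (dc + c) =
      (wE * (dl.length + dr.length) + φ dc) + (wE * (l.length + r.length) + φ c) := by
    simp only [List.length_append, hadd]; ring
  have e2 : wE * ((dl ++ l₀).length + (dr ++ r₀).length) + φ (dc + c₀) =
      (wE * (dl.length + dr.length) + φ dc) + (wE * (l₀.length + r₀.length) + φ c₀) := by
    simp only [List.length_append, hadd]; ring
  have hmono : ∀ z ∈ ps, ∃ c' k', RunB R ev z c' k' ∧ (∀ q, c' q ≤ (dc + c) q) ∧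
      wgt φ wE z c' ≤ θ := by
    intro z hz
    obtain ⟨c', k', a1, a2, a3⟩ := hps z hz
    exact ⟨c', k', a1, fun q => (a2 q).trans (Nat.le_add_left _ _), a3⟩
  by_cases hc : (wE * (dl.length + dr.length) + φ dc) +
      (wE * (l₀.length + r₀.length) + φ c₀) ≤ θ
  · -- merge the step into the first piece
    refine ⟨(u, v₀, dl ++ l₀, dr ++ r₀), ps, dc + c₀, dk + k₀, ⟨?_, ?_, ?_⟩, ?_, ?_, ?_, hmono,
      ?_⟩
    · simp only [List.map_cons, List.cons_append, List.cons.injEq, true_and]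
      exact hch
    · simp only [List.map_cons, List.flatten_cons, List.append_assoc, hl]
    · simp only [List.map_cons, List.flatten_cons, List.append_assoc, hr]
    · exact h1.append hrun
    · exact fun q => Nat.add_le_add_left (hle q) _
    · simp only [wgt]; omega
    · simp only [wgt]; omega
  · -- a new piece
    refine ⟨(u, u', dl, dr), (u', v₀, l₀, r₀) :: ps, dc, dk, ⟨?_, ?_, ?_⟩, h1, ?_, ?_, ?_, ?_⟩
    · simp only [List.map_cons, List.cons_append, List.cons.injEq, true_and]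
      exact hch
    · simp only [List.map_cons, List.flatten_cons, hl]
    · simp only [List.map_cons, List.flatten_cons, hr]
    · exact fun q => Nat.le_add_right _ _
    · simp only [wgt]; omega
    · intro z hz
      rcases List.mem_cons.1 hz with rfl | hz
      · exact ⟨c₀, k₀, hrun, fun q => (hle q).trans (Nat.le_add_left _ _), hp⟩
      · exact hmono z hz
    · simp only [wgt, List.length_cons]
      rw [Nat.add_mul, Nat.one_mul]
      omega

theorem Run.slabs (hG : Good R ev L) {φ : (ℕ → ℕ) → ℕ} {wE θ W n : ℕ} (h0 : φ 0 = 0)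
    (hadd : ∀ c c', φ (c + c') = φ c + φ c') (hE : wE ≤ W)
    (hI : ∀ i j, i + j ≤ n → j ≤ L → φ (ind i j) ≤ W) (hW : W ≤ θ)
    {u v : List Γ} {l r : List ι} {c : ℕ → ℕ} {k : ℕ}
    (h : Run R ev u l r v c k) : u.length = n → Slabs R ev φ wE θ W (u, (v, (l, r))) c := by
  induction h with
  | nil u =>
    intro _
    refine ⟨(u, u, [], []), [], 0, 0, ⟨?_, ?_, ?_⟩, Run.nil u, fun q => le_refl _, ?_, ?_, ?_⟩
    · simp
    · simp
    · simp
    · simp [wgt, h0]
    · simp
    · simp [wgt]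
  | @int u u' v l r c k i j hs h ih =>
    intro hu
    obtain ⟨hl1, hl2, hl3⟩ := hs.length hG
    have h1 := Run.int i j hs (Run.nil (ev := ev) u')
    rw [zero_add] at h1
    have := Slabs.cons (dl := []) (dr := []) hadd hW h1 (by
      simpa using hI i j (by omega) hl3) (ih (by omega))
    rwa [List.nil_append, List.nil_append, add_comm (ind i j) c] at this
  | @left u u' v l r c k e hs h ih =>
    intro hu
    have h1 := Run.left (r := []) e hs (Run.nil (R := R) u')
    have h2 : u'.length = n := by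
      have := Run.length hG h1
      omega
    have := Slabs.cons (dl := [e]) (dr := []) hadd hW h1 (by
      rw [h0]; simp; omega) (ih h2)
    rwa [List.singleton_append, List.nil_append, zero_add] at this
  | @right u u' v l r c k e hs h ih =>
    intro hu
    have h1 := Run.right (l := []) e hs (Run.nil (R := R) u')
    have h2 : u'.length = n := by
      have := Run.length hG h1
      omega
    have := Slabs.cons (dl := []) (dr := [e]) hadd hW h1 (by
      rw [h0]; simp; omega) (ih h2)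
    rwa [List.singleton_append, List.nil_append, zero_add] at this

/-- Conversely, parts give a run. -/
theorem Sl.exists_run {ps : List (Blk Γ ι)} {x : Blk Γ ι}
    (hrun : ∀ p ∈ ps, ∃ c k, RunB R ev p c k) (h : Sl x ps) : ∃ c k, RunB R ev x c k := by
  obtain ⟨hch, hl, hr⟩ := h
  obtain ⟨u, v, l, r⟩ := x
  simp only at hch hl hr
  induction ps generalizing u l r with
  | nil =>
    simp only [List.map_nil, List.flatten_nil, List.nil_append, List.cons.injEq,
      and_true] at hch hl hr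
    subst hch hl hr
    exact ⟨0, 0, Run.nil _⟩
  | cons p ps ih =>
    simp only [List.map_cons, List.flatten_cons, List.cons_append, List.cons.injEq] at hch hl hr
    obtain ⟨rfl, hch⟩ := hch
    subst hl hr
    obtain ⟨c, k, hk⟩ := hrun p (List.mem_cons_self ..)
    obtain ⟨c', k', hk'⟩ := ih (fun q hq => hrun q (List.mem_cons_of_mem _ hq)) _ _ _ hch rfl rfl
    exact ⟨c + c', k + k', Run.append hk hk'⟩

theorem len_of_chain {ps : List (Blk Γ ι)} {u v : List Γ}
    (hrun : ∀ p ∈ ps, p.2.1.length = p.1.length)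
    (hch : u :: ps.map (fun p => p.2.1) = ps.map (fun p => p.1) ++ [v]) :
    ∀ p ∈ ps, p.1.length = u.length := by
  induction ps generalizing u with
  | nil => simp
  | cons p ps ih =>
    simp only [List.map_cons, List.cons_append, List.cons.injEq] at hch
    obtain ⟨rfl, hch⟩ := hch
    intro q hq
    rcases List.mem_cons.1 hq with rfl | hq
    · rfl
    · rw [ih (fun q hq => hrun q (List.mem_cons_of_mem _ hq)) hch q hq]
      exact hrun p (List.mem_cons_self ..)

theorem Sl.len (hG : Good R ev L) {ps : List (Blk Γ ι)} {x : Blk Γ ι}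
    (hrun : ∀ p ∈ ps, ∃ c k, RunB R ev p c k) (h : Sl x ps) :
    ∀ p ∈ ps, p.1.length = x.1.length ∧ p.2.1.length = x.1.length := by
  have h1 : ∀ p ∈ ps, p.2.1.length = p.1.length := by
    intro p hp
    obtain ⟨c, k, hk⟩ := hrun p hp
    exact Run.length hG hk
  intro p hp
  have h2 := len_of_chain h1 h.1 p hp
  exact ⟨h2, (h1 p hp).trans h2⟩

theorem Sl.ev_le {ps : List (Blk Γ ι)} {x : Blk Γ ι} (h : Sl x ps) :
    ∀ p ∈ ps, p.2.2.1.length ≤ x.2.2.1.length ∧ p.2.2.2.length ≤ x.2.2.2.length := by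
  intro p hp
  rw [← h.2.1, ← h.2.2]
  have h1 : p.2.2.1 ∈ ps.map fun p => p.2.2.1 := List.mem_map.2 ⟨p, hp, rfl⟩
  have h2 : p.2.2.2 ∈ ps.map fun p => p.2.2.2 := List.mem_map.2 ⟨p, hp, rfl⟩
  exact ⟨(List.sublist_flatten_of_mem h1).length_le, (List.sublist_flatten_of_mem h2).length_le⟩

end Pool.Agent.Lib.LinSpace.Quad
end

section

section

/-!
Runs can be shortened by removing loops.
-/

set_option autoImplicit false

namespace Pool.Agent.Lib.LinSpace.Quad

/-- Paths in a finite set can be shortened. -/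
theorem exists_short {α : Type} {r : α → α → Prop} {s : Finset α} (n : ℕ) :
    ∀ f : ℕ → α, (∀ i < n, r (f i) (f (i + 1))) → (∀ i ≤ n, f i ∈ s) →
    ∃ (m : ℕ) (g : ℕ → α), m < s.card ∧ g 0 = f 0 ∧ g m = f n ∧
      ∀ i < m, r (g i) (g (i + 1)) := by
  induction n using Nat.strong_induction_on with
  | _ n ih =>
    intro f hf hs
    rcases Nat.lt_or_ge n s.card with h | h
    · exact ⟨n, f, h, rfl, rfl, hf⟩
    · obtain ⟨i, hi, j, hj, hij, he⟩ := Finset.exists_ne_map_eq_of_card_lt_of_maps_to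
        (s := Finset.range (n + 1)) (t := s) (f := f) (by rw [Finset.card_range]; omega)
        (fun i hi => hs i (by have := Finset.mem_range.1 hi; omega))
      have key : ∀ i j, i < j → j ≤ n → f i = f j →
          ∃ (m : ℕ) (g : ℕ → α), m < s.card ∧ g 0 = f 0 ∧
          g m = f n ∧ ∀ i < m, r (g i) (g (i + 1)) := by
        intro i j hij hj he
        obtain ⟨m, g, h1, h2, h3, h4⟩ := ih (n - (j - i)) (by omega)
          (fun t => if t ≤ i then f t else f (t + (j - i))) (by
            intro t ht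
            rcases Nat.lt_trichotomy t i with h | h | h
            · simp only [if_pos h.le, if_pos (show t + 1 ≤ i by omega)]
              exact hf t (by omega)
            · subst h
              simp only [le_refl, if_true, if_neg (show ¬ t + 1 ≤ t by omega)]
              rw [he, show t + 1 + (j - t) = j + 1 by omega]
              exact hf j (by omega)
            · simp only [if_neg (show ¬ t ≤ i by omega), if_neg (show ¬ t + 1 ≤ i by omega)]
              rw [show t + 1 + (j - i) = t + (j - i) + 1 by omega]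
              exact hf _ (by omega)) (by
            intro t ht
            split_ifs
            · exact hs _ (by omega)
            · exact hs _ (by omega))
        refine ⟨m, g, h1, ?_, ?_, h4⟩
        · rw [h2]; simp
        · rw [h3]
          split_ifs with h5
          · have h6 : n = j := by omega
            have h7 : n - (j - i) = i := by omega
            rw [h7, he, h6]
          · rw [show n - (j - i) + (j - i) = n by omega]
      have hi' := Finset.mem_range.1 hi
      have hj' := Finset.mem_range.1 hj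
      rcases Nat.lt_or_gt_of_ne hij with h' | h'
      · exact key i j h' (by omega) he
      · exact key j i h' (by omega) he.symm

variable {Γ ι : Type} {R : Set (List Γ × List Γ)} {ev : ι → Ev Γ} {L : ℕ}

/-- One step, with the pending rule applications across the ends. -/
def TStep (R : Set (List Γ × List Γ)) (ev : ι → Ev Γ) (s s' : List Γ × (List ι × List ι)) :
    Prop :=
  (∃ i j, IStep R i j s.1 s'.1 ∧ s'.2 = s.2) ∨
  (∃ e, s.2.1 = e :: s'.2.1 ∧ s'.2.2 = s.2.2 ∧ LStep (ev e) s.1 s'.1) ∨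
  (∃ e, s.2.2 = e :: s'.2.2 ∧ s'.2.1 = s.2.1 ∧ RStep (ev e) s.1 s'.1)

theorem Run.path (hG : Good R ev L) {u v : List Γ} {l r : List ι} {c : ℕ → ℕ} {k : ℕ}
    (h : Run R ev u l r v c k) : ∃ f : ℕ → List Γ × (List ι × List ι),
      f 0 = (u, (l, r)) ∧ f (k + l.length + r.length) = (v, ([], [])) ∧
      (∀ i < k + l.length + r.length, TStep R ev (f i) (f (i + 1))) ∧
      ∀ i ≤ k + l.length + r.length, (f i).1.length = u.length ∧ (f i).2.1 <:+ l ∧
        (f i).2.2 <:+ r := by
  have ext : ∀ {s : List Γ × (List ι × List ι)} {f : ℕ → List Γ × (List ι × List ι)} {n : ℕ}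
      {u : List Γ} {l r l' r' : List ι}, TStep R ev s (f 0) → s = (u, (l, r)) →
      (f 0).1.length = u.length → l' <:+ l → r' <:+ r →
      (∀ i < n, TStep R ev (f i) (f (i + 1))) →
      (∀ i ≤ n, (f i).1.length = (f 0).1.length ∧ (f i).2.1 <:+ l' ∧ (f i).2.2 <:+ r') →
      (∀ i < n + 1, TStep R ev ((fun i => if i = 0 then s else f (i - 1)) i)
        ((fun i => if i = 0 then s else f (i - 1)) (i + 1))) ∧
      ∀ i ≤ n + 1, ((fun i => if i = 0 then s else f (i - 1)) i).1.length = u.length ∧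
        ((fun i => if i = 0 then s else f (i - 1)) i).2.1 <:+ l ∧
        ((fun i => if i = 0 then s else f (i - 1)) i).2.2 <:+ r := by
    intro s f n u l r l' r' h1 h2 h3 h4 h5 h6 h7
    refine ⟨?_, ?_⟩
    · intro i hi
      cases i with
      | zero => simpa using h1
      | succ i =>
        simp only [Nat.add_eq_zero_iff, one_ne_zero, and_false, if_false, Nat.add_sub_cancel]
        exact h6 i (by omega)
    · intro i hi
      cases i with
      | zero =>
        simp only [if_true]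
        rw [h2]
        exact ⟨rfl, List.suffix_refl _, List.suffix_refl _⟩
      | succ i =>
        simp only [Nat.add_eq_zero_iff, one_ne_zero, and_false, if_false, Nat.add_sub_cancel]
        obtain ⟨a1, a2, a3⟩ := h7 i (by omega)
        exact ⟨a1.trans h3, a2.trans h4, a3.trans h5⟩
  induction h with
  | nil u =>
    refine ⟨fun _ => (u, ([], [])), rfl, rfl, ?_, ?_⟩
    · intro i hi
      simp at hi
    · intro i _
      exact ⟨rfl, List.suffix_refl _, List.suffix_refl _⟩
  | @int u u' v l r c k i j hs h ih =>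
    obtain ⟨f, h1, h2, h3, h4⟩ := ih
    have hlen := hs.length hG
    obtain ⟨a1, a2⟩ := ext (s := (u, (l, r))) (f := f) (n := k + l.length + r.length) (l' := l)
      (r' := r) (Or.inl ⟨i, j, by rw [h1]; exact hs, by rw [h1]⟩) rfl (by rw [h1]; exact hlen.1)
      (List.suffix_refl _) (List.suffix_refl _) h3 (by rw [h1]; exact h4)
    refine ⟨fun i => if i = 0 then (u, (l, r)) else f (i - 1), rfl, ?_, ?_, ?_⟩
    · show (if k + 1 + l.length + r.length = 0 then (u, (l, r)) else
        f (k + 1 + l.length + r.length - 1)) = (v, ([], []))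
      rw [if_neg (by omega), show k + 1 + l.length + r.length - 1 =
        k + l.length + r.length by omega, h2]
    · rw [show k + 1 + l.length + r.length = k + l.length + r.length + 1 by omega]
      exact a1
    · rw [show k + 1 + l.length + r.length = k + l.length + r.length + 1 by omega]
      exact a2
  | @left u u' v l r c k e hs h ih =>
    obtain ⟨f, h1, h2, h3, h4⟩ := ih
    have hlen : u'.length = u.length := by
      obtain ⟨y, rfl, rfl⟩ := hs
      have := hG.evr e
      simp only [List.length_append]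
      omega
    obtain ⟨a1, a2⟩ := ext (s := (u, (e :: l, r))) (f := f) (n := k + l.length + r.length)
      (l' := l) (r' := r) (Or.inr (Or.inl ⟨e, by rw [h1], by rw [h1], by rw [h1]; exact hs⟩)) rfl
      (by rw [h1]; exact hlen) (List.suffix_cons _ _) (List.suffix_refl _) h3
      (by rw [h1]; exact h4)
    refine ⟨fun i => if i = 0 then (u, (e :: l, r)) else f (i - 1), rfl, ?_, ?_, ?_⟩
    · rw [List.length_cons]
      show (if k + (l.length + 1) + r.length = 0 then (u, (e :: l, r)) else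
        f (k + (l.length + 1) + r.length - 1)) = (v, ([], []))
      rw [if_neg (by omega), show k + (l.length + 1) + r.length - 1 =
        k + l.length + r.length by omega, h2]
    · rw [List.length_cons,
        show k + (l.length + 1) + r.length = k + l.length + r.length + 1 by omega]
      exact a1
    · rw [List.length_cons,
        show k + (l.length + 1) + r.length = k + l.length + r.length + 1 by omega]
      exact a2
  | @right u u' v l r c k e hs h ih =>
    obtain ⟨f, h1, h2, h3, h4⟩ := ih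
    have hlen : u'.length = u.length := by
      obtain ⟨y, rfl, rfl⟩ := hs
      have := hG.evl e
      simp only [List.length_append]
      omega
    obtain ⟨a1, a2⟩ := ext (s := (u, (l, e :: r))) (f := f) (n := k + l.length + r.length)
      (l' := l) (r' := r) (Or.inr (Or.inr ⟨e, by rw [h1], by rw [h1], by rw [h1]; exact hs⟩)) rfl
      (by rw [h1]; exact hlen) (List.suffix_refl _) (List.suffix_cons _ _) h3
      (by rw [h1]; exact h4)
    refine ⟨fun i => if i = 0 then (u, (l, e :: r)) else f (i - 1), rfl, ?_, ?_, ?_⟩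
    · rw [List.length_cons]
      show (if k + l.length + (r.length + 1) = 0 then (u, (l, e :: r)) else
        f (k + l.length + (r.length + 1) - 1)) = (v, ([], []))
      rw [if_neg (by omega), show k + l.length + (r.length + 1) - 1 =
        k + l.length + r.length by omega, h2]
    · rw [List.length_cons,
        show k + l.length + (r.length + 1) = k + l.length + r.length + 1 by omega]
      exact a1
    · rw [List.length_cons,
        show k + l.length + (r.length + 1) = k + l.length + r.length + 1 by omega]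
      exact a2

theorem run_of_path {v : List Γ} (n : ℕ) : ∀ (f : ℕ → List Γ × (List ι × List ι)),
    f n = (v, ([], [])) → (∀ i < n, TStep R ev (f i) (f (i + 1))) →
    ∃ c k, Run R ev (f 0).1 (f 0).2.1 (f 0).2.2 v c k ∧
      k + (f 0).2.1.length + (f 0).2.2.length = n := by
  induction n with
  | zero =>
    intro f h _
    rw [h]
    exact ⟨0, 0, Run.nil v, rfl⟩
  | succ n ih =>
    intro f h hf
    obtain ⟨c, k, h1, h2⟩ := ih (fun i => f (i + 1)) h (fun i hi => hf (i + 1) (by omega))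
    simp only [Nat.zero_add] at h1 h2
    rcases hf 0 (by omega) with ⟨i, j, h3, h4⟩ | ⟨e, h3, h4, h5⟩ | ⟨e, h3, h4, h5⟩
    · rw [Nat.zero_add] at h3 h4
      rw [h4] at h1 h2
      exact ⟨_, k + 1, Run.int i j h3 h1, by omega⟩
    · rw [Nat.zero_add] at h3 h4 h5
      rw [h4] at h1 h2
      rw [h3]
      exact ⟨c, k, Run.left e h5 h1, by rw [List.length_cons]; omega⟩
    · rw [Nat.zero_add] at h3 h4 h5
      rw [h4] at h1 h2
      rw [h3]
      exact ⟨c, k, Run.right e h5 h1, by rw [List.length_cons]; omega⟩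

/-- The possible states. -/
noncomputable def allSt (Γ ι : Type) [Fintype Γ] [DecidableEq Γ] [DecidableEq ι] (b : ℕ)
    (l r : List ι) : Finset (List Γ × (List ι × List ι)) :=
  (Finset.univ.image fun f : Fin b → Γ => List.ofFn f) ×ˢ
    (((Finset.range (l.length + 1)).image fun i => l.drop i) ×ˢ
      ((Finset.range (r.length + 1)).image fun i => r.drop i))

theorem Run.short [Fintype Γ] (hG : Good R ev L) {u v : List Γ} {l r : List ι} {c : ℕ → ℕ}
    {k : ℕ} (h : Run R ev u l r v c k) (hlr : l.length + r.length ≤ u.length) :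
    ∃ c' k', Run R ev u l r v c' k' ∧
      k' + l.length + r.length ≤ 2 ^ ((Fintype.card Γ + 2) * u.length) := by
  classical
  obtain ⟨f, h1, h2, h3, h4⟩ := h.path hG
  obtain ⟨m, g, g1, g2, g3, g4⟩ := exists_short (r := TStep R ev)
    (s := allSt Γ ι u.length l r) _ f h3 (by
      intro i hi
      obtain ⟨a1, ⟨a2, ha2⟩, ⟨a3, ha3⟩⟩ := h4 i hi
      simp only [allSt, Finset.mem_product, Finset.mem_image, Finset.mem_univ, true_and,
        Finset.mem_range]
      refine ⟨⟨fun j => (f i).1.get (j.cast a1.symm), ?_⟩, ⟨a2.length, ?_, ?_⟩,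
        ⟨a3.length, ?_, ?_⟩⟩
      · apply List.ext_get
        · rw [List.length_ofFn, a1]
        · intro n _ _
          simp
      · have := congrArg List.length ha2
        rw [List.length_append] at this
        omega
      · rw [← ha2]; simp
      · have := congrArg List.length ha3
        rw [List.length_append] at this
        omega
      · rw [← ha3]; simp)
  obtain ⟨c', k', r1, r2⟩ := run_of_path (R := R) (ev := ev) m g (by rw [g3, h2]) g4
  rw [g2, h1] at r1 r2
  refine ⟨c', k', r1, ?_⟩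
  simp only at r2
  rw [r2]
  refine g1.le.trans ?_
  have c1 : (allSt Γ ι u.length l r).card ≤
      (Fintype.card Γ ^ u.length) * ((l.length + 1) * (r.length + 1)) := by
    rw [allSt, Finset.card_product, Finset.card_product]
    refine Nat.mul_le_mul ?_ (Nat.mul_le_mul ?_ ?_)
    · refine Finset.card_image_le.trans ?_
      rw [Finset.card_univ, Fintype.card_fun, Fintype.card_fin]
    · exact Finset.card_image_le.trans (by rw [Finset.card_range])
    · exact Finset.card_image_le.trans (by rw [Finset.card_range])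
  refine c1.trans ?_
  have e1 : Fintype.card Γ ^ u.length ≤ 2 ^ (Fintype.card Γ * u.length) := by
    rw [Nat.pow_mul]
    exact Nat.pow_le_pow_left Nat.lt_two_pow_self.le _
  have e2 : l.length + 1 ≤ 2 ^ u.length :=
    (show l.length + 1 ≤ u.length + 1 by omega).trans Nat.lt_two_pow_self
  have e3 : r.length + 1 ≤ 2 ^ u.length :=
    (show r.length + 1 ≤ u.length + 1 by omega).trans Nat.lt_two_pow_self
  calc Fintype.card Γ ^ u.length * ((l.length + 1) * (r.length + 1))
      ≤ 2 ^ (Fintype.card Γ * u.length) * (2 ^ u.length * 2 ^ u.length) :=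
        Nat.mul_le_mul e1 (Nat.mul_le_mul e2 e3)
    _ = 2 ^ ((Fintype.card Γ + 2) * u.length) := by
        rw [← Nat.pow_add, ← Nat.pow_add]; congr 1; ring

end Pool.Agent.Lib.LinSpace.Quad
end

section

/-!
The steps of the algorithm: time halving, cuts in space, and single steps; costs of cuts.
-/

set_option autoImplicit false

namespace Pool.Agent.Lib.LinSpace.Quad

variable {Γ ι : Type} {R : Set (List Γ × List Γ)} {ev : ι → Ev Γ} {L : ℕ}

/-- The predicate for narrow blocks. -/
def SS (R : Set (List Γ × List Γ)) (ev : ι → Ev Γ) (x : Blk Γ ι) (h : ℕ) : Prop :=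
  ∃ c k, RunB R ev x c k ∧ k + x.2.2.1.length + x.2.2.2.length ≤ 2 ^ h

/-- The block `x` is divided into the blocks `x₁` and `x₂`. -/
def Spl (x x₁ x₂ : Blk Γ ι) : Prop :=
  x.1 = x₁.1 ++ x₂.1 ∧ x.2.1 = x₁.2.1 ++ x₂.2.1 ∧ x.2.2.1 = x₁.2.2.1 ∧
    x₁.2.2.2 = x₂.2.2.1 ∧ x₂.2.2.2 = x.2.2.2

/-- At most one step. -/
def One (R : Set (List Γ × List Γ)) (ev : ι → Ev Γ) (x : Blk Γ ι) : Prop :=
  (x.1 = x.2.1 ∧ x.2.2.1 = [] ∧ x.2.2.2 = []) ∨
  ((∃ i j, IStep R i j x.1 x.2.1) ∧ x.2.2.1 = [] ∧ x.2.2.2 = []) ∨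
  (∃ e, LStep (ev e) x.1 x.2.1 ∧ x.2.2.1 = [e] ∧ x.2.2.2 = []) ∨
  (∃ e, RStep (ev e) x.1 x.2.1 ∧ x.2.2.1 = [] ∧ x.2.2.2 = [e])

theorem Spl.glue (hG : Good R ev L) {x x₁ x₂ : Blk Γ ι} (h : Spl x x₁ x₂)
    (h1 : ∃ c k, RunB R ev x₁ c k) (h2 : ∃ c k, RunB R ev x₂ c k) :
    ∃ c k, RunB R ev x c k := by
  obtain ⟨c1, k1, r1⟩ := h1
  obtain ⟨c2, k2, r2⟩ := h2
  obtain ⟨a1, a2, a3, a4, a5⟩ := h
  simp only [RunB] at r1 r2 ⊢
  rw [a1, a2, a3, ← a5]
  rw [a4] at r1
  exact Run.glue hG r1 r2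

theorem One.run {x : Blk Γ ι} (h : One R ev x) : ∃ c k, RunB R ev x c k := by
  obtain ⟨u, v, l, r⟩ := x
  simp only [One, RunB] at h ⊢
  rcases h with ⟨rfl, rfl, rfl⟩ | ⟨⟨i, j, h⟩, rfl, rfl⟩ | ⟨e, h, rfl, rfl⟩ | ⟨e, h, rfl, rfl⟩
  · exact ⟨_, _, Run.nil _⟩
  · exact ⟨_, _, Run.int i j h (Run.nil _)⟩
  · exact ⟨_, _, Run.left e h (Run.nil _)⟩
  · exact ⟨_, _, Run.right e h (Run.nil _)⟩

theorem SS.one {x : Blk Γ ι} (h : SS R ev x 0) : One R ev x := by
  obtain ⟨u, v, l, r⟩ := x
  obtain ⟨c, k, h1, h2⟩ := h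
  simp only [RunB, Nat.pow_zero] at h1 h2
  simp only [One]
  cases h1 with
  | nil => exact Or.inl ⟨rfl, rfl, rfl⟩
  | int i j hs h =>
    have hl : l = [] := List.eq_nil_of_length_eq_zero (by omega)
    have hr : r = [] := List.eq_nil_of_length_eq_zero (by omega)
    subst hl hr
    cases h with
    | nil => exact Or.inr (Or.inl ⟨⟨i, j, hs⟩, rfl, rfl⟩)
    | int i j hs h => omega
  | left e hs h =>
    rw [List.length_cons] at h2
    have hr : r = [] := List.eq_nil_of_length_eq_zero (by omega)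
    subst hr
    cases h with
    | nil => exact Or.inr (Or.inr (Or.inl ⟨e, hs, rfl, rfl⟩))
    | int i j hs h => omega
    | left e hs h => rw [List.length_cons] at h2; omega
  | right e hs h =>
    rw [List.length_cons] at h2
    have hl : l = [] := List.eq_nil_of_length_eq_zero (by omega)
    subst hl
    cases h with
    | nil => exact Or.inr (Or.inr (Or.inr ⟨e, hs, rfl, rfl⟩))
    | int i j hs h => omega
    | right e hs h => rw [List.length_cons] at h2; omega

/-- Halving the number of steps. -/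
theorem SS.halve (hG : Good R ev L) {x : Blk Γ ι} {h : ℕ} (hx : SS R ev x (h + 1)) :
    ∃ zs : List (Blk Γ ι), zs.length ≤ 2 ∧ Sl x zs ∧
      ∀ z ∈ zs, z.1.length = x.1.length ∧ z.2.1.length = x.1.length ∧ SS R ev z h := by
  obtain ⟨u, v, l, r⟩ := x
  obtain ⟨c, k, h1, h2⟩ := hx
  simp only [RunB] at h1 h2
  obtain ⟨z, l₁, l₂, r₁, r₂, c₁, c₂, k₁, k₂, rfl, rfl, h3, h4, h5, h6⟩ :=
    h1.split (min (2 ^ h) (k + l.length + r.length)) (Nat.min_le_right _ _)
  have e1 : (2 : ℕ) ^ (h + 1) = 2 * 2 ^ h := by ring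
  have g1 := h1.length hG
  have g2 := h5.length hG
  refine ⟨[(u, (z, (l₁, r₁))), (z, (v, (l₂, r₂)))], le_refl _, ⟨?_, ?_, ?_⟩, ?_⟩
  · simp
  · simp
  · simp
  · intro y hy
    simp only [List.mem_cons, List.not_mem_nil, or_false] at hy
    rcases hy with rfl | rfl
    · exact ⟨rfl, g2, c₁, k₁, h5, by simp only; omega⟩
    · exact ⟨g2, g1, c₂, k₂, h6, by simp only; omega⟩

/-! ### Costs -/

/-- `Cut c x b s`: the interval of the cells `x, ..., x + b - 1` is cut recursively, with cost at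
most `s` on every branch; a block of `b` cells that is not cut costs `b ^ 2`, and cutting it at a
boundary in its middle third that is crossed at most `b * 2 ^ h` times costs `b * (h + 1)`. -/
inductive Cut (c : ℕ → ℕ) : ℕ → ℕ → ℕ → Prop
  | leaf (x b s : ℕ) : b ^ 2 ≤ s → Cut c x b s
  | node (x b s p h s' : ℕ) : b ≤ 3 * p → 3 * p ≤ 2 * b → c (x + p) ≤ b * 2 ^ h →
      b * (h + 1) + s' ≤ s → Cut c x p s' → Cut c (x + p) (b - p) s' → Cut c x b s

theorem Cut.anti {c c' : ℕ → ℕ} {x b s : ℕ} (h : Cut c x b s) : ∀ {y : ℕ},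
    (∀ q, c' q ≤ c (q + y)) → ∀ {x' : ℕ}, x' + y = x → Cut c' x' b s := by
  induction h with
  | leaf x b s hb => exact fun _ _ _ => Cut.leaf _ _ _ hb
  | node x b s p h s' h1 h2 h3 h4 _ _ ih1 ih2 =>
    intro y hc x' hx
    refine Cut.node _ _ _ p h s' h1 h2 ?_ h4 (ih1 hc hx) (ih2 hc (by omega))
    refine (hc _).trans (le_trans (le_of_eq ?_) h3)
    congr 1
    omega

/-- Halving the number of crossings of a boundary. -/
theorem halveCut (hG : Good R ev L) {x : Blk Γ ι} {c : ℕ → ℕ} {k p h : ℕ}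
    (hr : RunB R ev x c k) (hb : 100 ≤ x.1.length) (hc : c p ≤ x.1.length * 2 ^ (h + 1)) :
    ∃ zs : List (Blk Γ ι), zs.length ≤ 3 ∧ Sl x zs ∧
      ∀ z ∈ zs, z.1.length = x.1.length ∧ z.2.1.length = x.1.length ∧
        ∃ c' k', RunB R ev z c' k' ∧ (∀ q, c' q ≤ c q) ∧ c' p ≤ x.1.length * 2 ^ h := by
  obtain ⟨u, v, l, r⟩ := x
  simp only [RunB] at hr hb hc ⊢
  set b := u.length with hbu
  have e1 : b ≤ b * 2 ^ h := Nat.le_mul_of_pos_right _ (Nat.two_pow_pos _)
  have e4 : b * 2 ^ (h + 1) = 2 * (b * 2 ^ h) := by ring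
  obtain ⟨z₀, zs, cp, kp, a1, a2, a3, a4, a5, a6⟩ := hr.slabs hG (φ := fun c => c p) (wE := 0)
    (θ := b * 2 ^ h) (W := 1) (n := b) rfl (fun _ _ => rfl)
    (Nat.zero_le _) (fun i j _ _ => by unfold ind; split_ifs <;> omega) (by omega) rfl
  have hall : ∀ z ∈ z₀ :: zs, ∃ c' k', RunB R ev z c' k' ∧ (∀ q, c' q ≤ c q) ∧
      wgt (fun c => c p) 0 z c' ≤ b * 2 ^ h := by
    intro z hz
    rcases List.mem_cons.1 hz with rfl | hz
    · exact ⟨cp, kp, a2, a3, a4⟩
    · exact a5 z hz
  refine ⟨z₀ :: zs, ?_, a1, ?_⟩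
  · rw [List.length_cons]
    by_contra hcon
    have e6 : 3 * (b * 2 ^ h - 1) ≤ zs.length * (b * 2 ^ h - 1) :=
      Nat.mul_le_mul_right _ (by omega)
    simp only [wgt, Nat.zero_mul, Nat.zero_add] at a6
    omega
  · intro z hz
    obtain ⟨l1, l2⟩ := a1.len hG (fun z hz => by
      obtain ⟨c', k', b1, _⟩ := hall z hz
      exact ⟨c', k', b1⟩) z hz
    simp only at l1 l2
    refine ⟨l1, l2, ?_⟩
    obtain ⟨c', k', b1, b2, b3⟩ := hall z hz
    simp only [wgt, Nat.zero_mul, Nat.zero_add] at b3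
    exact ⟨c', k', b1, b2, b3⟩

/-- A part of a block is divided into time slabs with few crossings of the ends. -/
theorem child (hG : Good R ev L) {b : ℕ} {y : Blk Γ ι} {c : ℕ → ℕ} {k : ℕ}
    (h1 : RunB R ev y c k) (hb1 : b ≤ 3 * y.1.length) (hb : 12 ≤ b)
    (hl : y.2.2.1.length + y.2.2.2.length ≤ 2 * b) :
    ∃ zs : List (Blk Γ ι), zs.length ≤ 13 ∧ Sl y zs ∧
      ∀ z ∈ zs, z.1.length = y.1.length ∧ z.2.1.length = y.1.length ∧
        z.2.2.1.length + z.2.2.2.length ≤ z.1.length ∧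
        ∃ c' k', RunB R ev z c' k' ∧ ∀ q, c' q ≤ c q := by
  obtain ⟨u, v, l, r⟩ := y
  simp only [RunB] at h1 hb1 hl ⊢
  obtain ⟨z₀, zs, cp, kp, a1, a2, a3, a4, a5, a6⟩ := h1.slabs hG (φ := fun _ => 0) (wE := 1)
    (θ := b / 3) (W := 1) (n := u.length) rfl (fun _ _ => rfl)
    (le_refl _) (fun i j _ hj => by omega) (by omega) rfl
  have hall : ∀ z ∈ z₀ :: zs, ∃ c' k', RunB R ev z c' k' ∧ (∀ q, c' q ≤ c q) ∧
      wgt (fun _ => 0) 1 z c' ≤ b / 3 := by
    intro z hz
    rcases List.mem_cons.1 hz with rfl | hz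
    · exact ⟨cp, kp, a2, a3, a4⟩
    · exact a5 z hz
  refine ⟨z₀ :: zs, ?_, a1, ?_⟩
  · rw [List.length_cons]
    simp only [wgt, Nat.one_mul, Nat.add_zero] at a6
    have e1 : zs.length * (b / 3 - 1) ≤ 2 * b := by omega
    have e2 : 2 * b ≤ 12 * (b / 3 - 1) := by omega
    have e4 := Nat.le_of_mul_le_mul_right (e1.trans e2) (by omega)
    omega
  · intro z hz
    obtain ⟨l1, l2⟩ := a1.len hG (fun z hz => by
      obtain ⟨c', k', b1, _⟩ := hall z hz
      exact ⟨c', k', b1⟩) z hz
    simp only at l1 l2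
    obtain ⟨c', k', b1, b2, b3⟩ := hall z hz
    simp only [wgt, Nat.one_mul, Nat.add_zero] at b3
    exact ⟨l1, l2, by omega, c', k', b1, b2⟩

/-- A block is divided into two blocks. -/
theorem cutBlock (hG : Good R ev L) {x : Blk Γ ι} {c : ℕ → ℕ} {k p s : ℕ}
    (hx : RunB R ev x c k) (hp1 : x.1.length ≤ 3 * p) (hp2 : 3 * p ≤ 2 * x.1.length)
    (hcp : c p ≤ x.1.length) (hc1 : Cut c 0 p s) (hc2 : Cut c p (x.1.length - p) s)
    (hb : 100 * (L + 1) ≤ x.1.length)
    (hlr : x.2.2.1.length + x.2.2.2.length ≤ x.1.length) :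
    ∃ (x₁ x₂ : Blk Γ ι) (ls rs : List (Blk Γ ι)), Spl x x₁ x₂ ∧ Sl x₁ ls ∧ Sl x₂ rs ∧
      x₁.1.length = x₁.2.1.length ∧ x₂.1.length = x₂.2.1.length ∧
      x₁.2.2.1.length + x₁.2.2.2.length ≤ 2 * x.1.length ∧
      x₂.2.2.1.length + x₂.2.2.2.length ≤ 2 * x.1.length ∧
      ls.length ≤ 13 ∧ rs.length ≤ 13 ∧
      ∀ z ∈ ls ++ rs, z.1.length = z.2.1.length ∧ 3 * z.1.length ≤ 2 * x.1.length ∧
        x.1.length ≤ 3 * z.1.length ∧
        z.2.2.1.length + z.2.2.2.length ≤ z.1.length ∧
        ∃ c' k', RunB R ev z c' k' ∧ Cut c' 0 z.1.length s := by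
  obtain ⟨u, v, l, r⟩ := x
  simp only [RunB] at hx hp1 hp2 hcp hc2 hb hlr ⊢
  set b := u.length with hbu
  obtain ⟨m, c₁, c₂, k₁, k₂, hm, hc₁, hc₂, r1, r2⟩ := hx.cut hG p (by omega) (by omega)
  have hlt : (u.take p).length = p := by rw [List.length_take]; omega
  have hld : (u.drop p).length = b - p := by rw [List.length_drop]
  have hv := hx.length hG
  obtain ⟨ls, a1, a2, a3⟩ := child hG (y := (u.take p, (v.take p, (l, m)))) (b := b)
    r1 (by simp only; rw [hlt]; exact hp1) (by omega) (by simp only; omega)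
  obtain ⟨rs, b1, b2, b3⟩ := child hG (y := (u.drop p, (v.drop p, (m, r)))) (b := b)
    r2 (by simp only; rw [hld]; omega) (by omega) (by simp only; omega)
  refine ⟨(u.take p, (v.take p, (l, m))), (u.drop p, (v.drop p, (m, r))), ls, rs,
    ⟨?_, ?_, rfl, rfl, rfl⟩, a2, b2, ?_, ?_, ?_, ?_, a1, b1, ?_⟩
  · exact (List.take_append_drop p u).symm
  · exact (List.take_append_drop p v).symm
  · simp only [List.length_take]; rw [hv]
  · simp only [List.length_drop]; rw [hv]
  · simp only; omega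
  · simp only; omega
  · intro z hz
    rcases List.mem_append.1 hz with hz | hz
    · obtain ⟨g1, g2, g3, c', k', g4, g5⟩ := a3 z hz
      simp only at g1 g2
      rw [hlt] at g1 g2
      refine ⟨by omega, by omega, by omega, g3, c', k', g4, ?_⟩
      rw [g1]
      exact hc1.anti (y := 0) (fun q => (g5 q).trans (hc₁ q)) rfl
    · obtain ⟨g1, g2, g3, c', k', g4, g5⟩ := b3 z hz
      simp only at g1 g2
      rw [hld] at g1 g2
      refine ⟨by omega, by omega, by omega, g3, c', k', g4, ?_⟩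
      rw [g1]
      exact hc2.anti (y := p) (fun q => (g5 q).trans (hc₂ q)) (by omega)

end Pool.Agent.Lib.LinSpace.Quad
end

section

/-!
A criterion for cheap cuts: few crossings on large scales.
-/

set_option autoImplicit false

namespace Pool.Agent.Lib.LinSpace.Quad

/-- Every interval of `b` cells, with `b ^ 2 ≥ C * N`, has a boundary in its middle third that is
crossed at most `C * N * 2 ^ φ (N / b)` times. -/
def Hier (φ : ℕ → ℕ) (C N : ℕ) (c : ℕ → ℕ) : Prop :=
  ∀ x b, 0 < b → x + b ≤ N → C * N ≤ b ^ 2 →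
    ∃ p, b ≤ 3 * p ∧ 3 * p ≤ 2 * b ∧ c (x + p) ≤ C * N * 2 ^ φ (N / b)

/-! ### Logarithms -/

theorem succ_sq_le (s : ℕ) : (s + 1) ^ 2 ≤ 4 * 2 ^ s := by
  induction s with
  | zero => norm_num
  | succ s ih =>
    rcases Nat.lt_or_ge s 2 with h | h
    · interval_cases s <;> norm_num
    · rw [Nat.pow_succ 2 s]
      nlinarith

theorem log_sq_le (m : ℕ) : (Nat.log 2 m) ^ 2 ≤ 4 * m := by
  rcases Nat.eq_zero_or_pos m with rfl | hm
  · simp
  · have h1 := succ_sq_le (Nat.log 2 m)
    have h2 : 2 ^ Nat.log 2 m ≤ m := Nat.pow_log_le_self 2 (by omega)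
    have h3 : (Nat.log 2 m) ^ 2 ≤ (Nat.log 2 m + 1) ^ 2 := Nat.pow_le_pow_left (by omega) 2
    omega

theorem log_le_sqrt (m : ℕ) : (Nat.log 2 m : ℝ) ≤ 2 * Real.sqrt m := by
  have h1 : ((Nat.log 2 m : ℕ) : ℝ) ^ 2 ≤ 4 * m := by exact_mod_cast log_sq_le m
  have h2 : (2 * Real.sqrt m) ^ 2 = 4 * (m : ℝ) := by
    rw [mul_pow, Real.sq_sqrt (by positivity)]; norm_num
  exact abs_le_of_sq_le_sq' (by rw [h2]; exact h1) (by positivity) |>.2

theorem summable_log : Summable fun m : ℕ => (Nat.log 2 m : ℝ) / (m : ℝ) ^ 2 := by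
  have h1 : Summable fun m : ℕ => 2 * ((m : ℝ) ^ ((3 : ℝ) / 2))⁻¹ :=
    (Real.summable_nat_rpow_inv.2 (by norm_num)).mul_left 2
  refine Summable.of_nonneg_of_le (fun m => by positivity) (fun m => ?_) h1
  rcases Nat.eq_zero_or_pos m with rfl | hm
  · simp
  · have hm' : (0 : ℝ) < m := by exact_mod_cast hm
    rw [div_le_iff₀ (by positivity)]
    refine (log_le_sqrt m).trans (le_of_eq ?_)
    rw [Real.sqrt_eq_rpow, mul_assoc]
    congr 1
    rw [← Real.rpow_neg hm'.le, ← Real.rpow_natCast, ← Real.rpow_add hm']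
    norm_num

theorem summable_crit {φ : ℕ → ℕ} (hs : Summable fun m : ℕ => (φ m : ℝ) / (m : ℝ) ^ 2) (K : ℕ) :
    Summable fun m : ℕ => ((φ m + Nat.log 2 m + K : ℕ) : ℝ) / (m : ℝ) ^ 2 := by
  have h1 : Summable fun m : ℕ => (K : ℝ) * (1 / (m : ℝ) ^ 2) :=
    (Real.summable_one_div_nat_pow.2 (by norm_num)).mul_left _
  refine ((hs.add summable_log).add h1).congr fun m => ?_
  push_cast
  ring

/-! ### The criterion -/

/-- Tails of the series. -/
noncomputable def tail (a : ℕ → ℝ) (M : ℕ) : ℝ := ∑' i, a (i + M)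

theorem tail_nonneg {a : ℕ → ℝ} (ha : ∀ m, 0 ≤ a m) (M : ℕ) : 0 ≤ tail a M :=
  tsum_nonneg fun _ => ha _

theorem tail_sub {a : ℕ → ℝ} (ha : Summable a) {M M' : ℕ} (h : M ≤ M') :
    tail a M = ∑ i ∈ Finset.range (M' - M), a (i + M) + tail a M' := by
  have h1 : Summable fun i => a (i + M) := (summable_nat_add_iff M).2 ha
  have h2 := h1.sum_add_tsum_nat_add (M' - M)
  unfold tail
  rw [← h2]
  congr 1
  refine tsum_congr fun i => ?_
  congr 1
  omega

theorem tail_gap {g : ℕ → ℕ} (hg : Monotone g)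
    (hs : Summable fun m : ℕ => (g m : ℝ) / (m : ℝ) ^ 2) {N b b' : ℕ} (hb : 0 < b)
    (hbN : b ≤ N) (h1 : b ≤ 3 * b') (h2 : 3 * b' ≤ 2 * b) :
    (b : ℝ) * g (4 * N / b) + 171 * N * tail (fun m => (g m : ℝ) / (m : ℝ) ^ 2) (4 * N / b') ≤
      171 * N * tail (fun m => (g m : ℝ) / (m : ℝ) ^ 2) (4 * N / b) := by
  set M := 4 * N / b with hM
  set M' := 4 * N / b' with hM'
  have hb' : 0 < b' := by omega
  have hM4 : 4 ≤ M := by
    rw [hM, Nat.le_div_iff_mul_le hb]; omega
  have e1 : M * b ≤ 4 * N := Nat.div_mul_le_self _ _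
  have e2 : 4 * N < (M + 1) * b := by
    have := Nat.lt_div_mul_add (a := 4 * N) hb
    rw [← hM] at this
    nlinarith
  have e3 : M' * b' ≤ 4 * N := Nat.div_mul_le_self _ _
  have e4 : 4 * N < (M' + 1) * b' := by
    have := Nat.lt_div_mul_add (a := 4 * N) hb'
    rw [← hM'] at this
    nlinarith
  -- `3 M < 2 (M' + 1)`
  have e5 : 3 * M < 2 * (M' + 1) := by
    by_contra hcon
    have f1 : 2 * (M' + 1) ≤ 3 * M := by omega
    have f2 : (2 * (M' + 1)) * b ≤ (3 * M) * b := Nat.mul_le_mul_right _ f1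
    have f3 : (M' + 1) * (3 * b') ≤ (M' + 1) * (2 * b) := Nat.mul_le_mul_left _ h2
    nlinarith
  -- `M' < 3 (M + 1)`
  have e6 : M' < 3 * (M + 1) := by
    by_contra hcon
    have f1 : 3 * (M + 1) ≤ M' := by omega
    have f2 : (3 * (M + 1)) * b' ≤ M' * b' := Nat.mul_le_mul_right _ f1
    have f3 : (M + 1) * b ≤ (M + 1) * (3 * b') := Nat.mul_le_mul_left _ h1
    nlinarith
  have hMM : M ≤ M' := by omega
  rw [tail_sub hs hMM]
  have hMpos : (0 : ℝ) < M := by exact_mod_cast (show 0 < M by omega)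
  -- the terms of the difference
  have h3 : ∀ i ∈ Finset.range (M' - M), (g M : ℝ) / (16 * (M : ℝ) ^ 2) ≤
      (g (i + M) : ℝ) / ((i + M : ℕ) : ℝ) ^ 2 := by
    intro i hi
    rw [Finset.mem_range] at hi
    have f1 : (g M : ℝ) ≤ g (i + M) := by exact_mod_cast hg (Nat.le_add_left _ _)
    have f2 : ((i + M : ℕ) : ℝ) ≤ 4 * M := by
      have : i + M ≤ 4 * M := by omega
      exact_mod_cast this
    have f3 : (0 : ℝ) < ((i + M : ℕ) : ℝ) := by
      exact_mod_cast (show 0 < i + M by omega)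
    have f4 : ((i + M : ℕ) : ℝ) ^ 2 ≤ 16 * (M : ℝ) ^ 2 := by nlinarith
    calc (g M : ℝ) / (16 * (M : ℝ) ^ 2) ≤ (g M : ℝ) / ((i + M : ℕ) : ℝ) ^ 2 := by
          apply div_le_div_of_nonneg_left (by positivity) (by positivity) f4
      _ ≤ (g (i + M) : ℝ) / ((i + M : ℕ) : ℝ) ^ 2 := by
          apply div_le_div_of_nonneg_right f1 (by positivity)
  have h4 := Finset.sum_le_sum h3
  rw [Finset.sum_const, Finset.card_range, nsmul_eq_mul] at h4
  have h5 : (3 : ℝ) / 8 * M ≤ ((M' - M : ℕ) : ℝ) := by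
    have : 3 * M ≤ 8 * (M' - M) := by omega
    have h6 : (3 : ℝ) * M ≤ 8 * ((M' - M : ℕ) : ℝ) := by exact_mod_cast this
    linarith
  have h6 : (3 : ℝ) / 8 * M * ((g M : ℝ) / (16 * (M : ℝ) ^ 2)) ≤
      ∑ i ∈ Finset.range (M' - M), (g (i + M) : ℝ) / ((i + M : ℕ) : ℝ) ^ 2 :=
    (mul_le_mul_of_nonneg_right h5 (by positivity)).trans h4
  have h7 : (3 : ℝ) / 8 * M * ((g M : ℝ) / (16 * (M : ℝ) ^ 2)) = 3 * g M / (128 * M) := by
    field_simp
    ring
  have h8 : (b : ℝ) ≤ 4 * N / M := by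
    rw [le_div_iff₀ hMpos]
    have : (M : ℝ) * b ≤ 4 * N := by exact_mod_cast e1
    linarith
  have h9 : (b : ℝ) * g M ≤ 4 * N / M * g M := mul_le_mul_of_nonneg_right h8 (by positivity)
  have h10 : 4 * (N : ℝ) / M * g M ≤ 171 * N * (3 * g M / (128 * M)) := by
    have e1 : 171 * (N : ℝ) * (3 * g M / (128 * M)) = (513 / 128) * (N * g M / M) := by
      field_simp
      ring
    have e2 : 4 * (N : ℝ) / M * g M = 4 * (N * g M / M) := by ring
    rw [e1, e2]
    have : (0 : ℝ) ≤ N * g M / M := by positivity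
    nlinarith
  have h11 : 171 * (N : ℝ) * (3 * g M / (128 * M)) ≤ 171 * N *
      ∑ i ∈ Finset.range (M' - M), (g (i + M) : ℝ) / ((i + M : ℕ) : ℝ) ^ 2 := by
    rw [← h7]
    exact mul_le_mul_of_nonneg_left h6 (by positivity)
  rw [mul_add]
  linarith

theorem cut_of_hier {φ : ℕ → ℕ} (hφ : Monotone φ)
    (hs : Summable fun m : ℕ => (φ m : ℝ) / (m : ℝ) ^ 2) (C : ℕ) :
    ∃ C' : ℕ, ∀ (N : ℕ) (c : ℕ → ℕ), 1 ≤ N → Hier φ C N c → Cut c 0 N (C' * N) := by
  obtain ⟨g, hgdef⟩ : ∃ g : ℕ → ℕ, g = fun m => φ m + Nat.log 2 m + (Nat.log 2 C + 3) :=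
    ⟨_, rfl⟩
  have hg : Monotone g := by
    rw [hgdef]
    intro a b hab
    have h1 := hφ hab
    have h2 := Nat.log_mono_right (b := 2) hab
    simp only
    omega
  have hgs : Summable fun m : ℕ => (g m : ℝ) / (m : ℝ) ^ 2 := by
    rw [hgdef]
    exact summable_crit hs _
  set a : ℕ → ℝ := fun m => (g m : ℝ) / (m : ℝ) ^ 2 with ha
  have ha0 : ∀ m, 0 ≤ a m := fun m => by rw [ha]; positivity
  refine ⟨⌈(C : ℝ) + 171 * tail a 4⌉₊, fun N c hN hc => ?_⟩
  have key : ∀ b : ℕ, 0 < b → ∀ x s : ℕ, x + b ≤ N →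
      (C : ℝ) * N + 171 * N * tail a (4 * N / b) ≤ s → Cut c x b s := by
    intro b
    induction b using Nat.strong_induction_on with
    | _ b ih =>
      intro hb x s hx hs'
      have htn := tail_nonneg ha0 (4 * N / b)
      have hN0 : (0 : ℝ) ≤ N := Nat.cast_nonneg _
      rcases Nat.lt_or_ge (b ^ 2) (C * N) with hlt | hge
      · refine Cut.leaf _ _ _ ?_
        have h1 : ((C * N : ℕ) : ℝ) ≤ s := by
          push_cast
          nlinarith [mul_nonneg hN0 htn]
        have h2 : C * N ≤ s := by exact_mod_cast h1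
        omega
      · obtain ⟨p, h1, h2, h3⟩ := hc x b hb hx hge
        have hp : 0 < p := by omega
        have hM : N / b ≤ 4 * N / b := Nat.div_le_div_right (by omega)
        -- the number of halvings
        have hh : c (x + p) ≤ b * 2 ^ (g (4 * N / b) - 1) := by
          have e1 : g (4 * N / b) - 1 = φ (4 * N / b) + (Nat.log 2 (4 * N / b) + 1) +
              (Nat.log 2 C + 1) := by
            rw [hgdef]; simp only; omega
          have e2 : C ≤ 2 ^ (Nat.log 2 C + 1) := (Nat.lt_pow_succ_log_self (by norm_num) C).le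
          have e3 : 4 * N / b ≤ 2 ^ (Nat.log 2 (4 * N / b) + 1) :=
            (Nat.lt_pow_succ_log_self (by norm_num) _).le
          have e4 : N ≤ b * (4 * N / b) := by
            have f1 := Nat.lt_div_mul_add (a := 4 * N) hb
            have f2 : 4 ≤ 4 * N / b := by
              rw [Nat.le_div_iff_mul_le hb]; omega
            nlinarith
          have e5 : 2 ^ φ (N / b) ≤ 2 ^ φ (4 * N / b) :=
            Nat.pow_le_pow_right (by norm_num) (hφ hM)
          calc c (x + p) ≤ C * N * 2 ^ φ (N / b) := h3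
            _ ≤ 2 ^ (Nat.log 2 C + 1) * (b * 2 ^ (Nat.log 2 (4 * N / b) + 1)) *
                2 ^ φ (4 * N / b) :=
              Nat.mul_le_mul (Nat.mul_le_mul e2 (e4.trans (Nat.mul_le_mul_left _ e3))) e5
            _ = b * 2 ^ (g (4 * N / b) - 1) := by
              rw [e1, pow_add, pow_add]; ring
        have hg1 : g (4 * N / b) - 1 + 1 = g (4 * N / b) := by
          rw [hgdef]; simp only; omega
        have g1 := tail_gap (N := N) hg hgs hb (by omega) h1 h2
        have g2 := tail_gap (N := N) (b' := b - p) hg hgs hb (by omega) (by omega) (by omega)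
        rw [← ha] at g1 g2
        have t1 := tail_nonneg ha0 (4 * N / p)
        have t2 := tail_nonneg ha0 (4 * N / (b - p))
        have hbs : b * g (4 * N / b) ≤ s := by
          have : ((b * g (4 * N / b) : ℕ) : ℝ) ≤ s := by
            push_cast
            nlinarith [mul_nonneg hN0 t1, mul_nonneg (Nat.cast_nonneg (α := ℝ) C) hN0]
          exact_mod_cast this
        refine Cut.node x b s p (g (4 * N / b) - 1) (s - b * g (4 * N / b)) h1 h2 hh ?_
          (ih p (by omega) hp x _ (by omega) ?_)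
          (ih (b - p) (by omega) (by omega) (x + p) _ (by omega) ?_)
        · rw [hg1]; omega
        · rw [Nat.cast_sub hbs]
          push_cast
          linarith
        · rw [Nat.cast_sub hbs]
          push_cast
          linarith
  refine key N hN 0 _ (by omega) ?_
  have e1 : 4 * N / N = 4 := by
    rw [Nat.mul_div_assoc _ (dvd_refl N), Nat.div_self hN]
  rw [e1]
  push_cast
  have e2 := Nat.le_ceil ((C : ℝ) + 171 * tail a 4)
  have hN0 : (0 : ℝ) ≤ N := Nat.cast_nonneg _
  nlinarith [mul_le_mul_of_nonneg_right e2 hN0]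

end Pool.Agent.Lib.LinSpace.Quad
end

section

/-!
The tests of the algorithm work in linear space.
-/

set_option autoImplicit false
set_option linter.unusedSectionVars false

namespace Pool.Agent.Lib.LinSpace

/-- Membership in a finite set. -/
theorem Lin.mem_finset {γ : Type} [Enc γ] [DecidableEq γ] (s : Finset γ) :
    Lin (fun x : γ => decide (x ∈ s)) := by
  induction s using Finset.induction_on with
  | empty => exact (Lin.const false).of_eq fun x => by simp
  | insert a s _ ih =>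
    refine ((Lin.eq Lin.id (Lin.const a)).or ih).of_eq fun x => ?_
    by_cases h : x = a <;> simp [h]

/-- Membership in a finite set. -/
theorem Lin.mem_finite {γ : Type} [Enc γ] {s : Set γ} (hs : s.Finite) :
    ∃ f : γ → Bool, Lin f ∧ ∀ x, f x = true ↔ x ∈ s := by
  classical
  refine ⟨fun x => decide (x ∈ hs.toFinset), Lin.mem_finset _, fun x => by simp⟩

theorem sz_le_length {α : Type} [Enc α] {c : ℕ} (hc : ∀ a : α, sz a ≤ c) (l : List α) :
    sz l ≤ (c + 1) * l.length + 1 := by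
  induction l with
  | nil => simp [sz_nil]
  | cons a l ih =>
    rw [sz_cons, List.length_cons, Nat.mul_add]
    have := hc a
    omega

theorem sz_list_le {α : Type} [Enc α] {B n : ℕ} {l : List α} (h : ∀ a ∈ l, sz a ≤ B)
    (hn : l.length ≤ n) : sz l ≤ n * (B + 1) + 1 := by
  have h1 : sz l ≤ l.length * (B + 1) + 1 := by
    clear hn
    induction l with
    | nil => simp [sz_nil]
    | cons a l ih =>
      rw [sz_cons, List.length_cons, Nat.add_mul]
      have h2 := h a (List.mem_cons_self ..)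
      have h3 := ih fun b hb => h b (List.mem_cons_of_mem _ hb)
      omega
  have := Nat.mul_le_mul_right (B + 1) hn
  omega

namespace Quad

open Classical

variable {Γ ι : Type} [Enc Γ] [Enc ι] [Rd Γ] [Rd ι] [Finite Γ] [Finite ι] [Nonempty ι]
variable {R : Set (List Γ × List Γ)} {ev : ι → Ev Γ} {L : ℕ}

theorem b_u : Lin (fun x : Blk Γ ι => x.1) := Lin.fst
theorem b_v : Lin (fun x : Blk Γ ι => x.2.1) := Lin.fst.comp Lin.snd
theorem b_l : Lin (fun x : Blk Γ ι => x.2.2.1) := Lin.fst.comp (Lin.snd.comp Lin.snd)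
theorem b_r : Lin (fun x : Blk Γ ι => x.2.2.2) := Lin.snd.comp (Lin.snd.comp Lin.snd)

theorem sz_blk {c : ℕ} (h1 : ∀ a : Γ, sz a ≤ c) (h2 : ∀ a : ι, sz a ≤ c) (x : Blk Γ ι) :
    sz x ≤ (c + 1) * (x.1.length + x.2.1.length + x.2.2.1.length + x.2.2.2.length) + 7 := by
  obtain ⟨u, v, l, r⟩ := x
  rw [sz_pair, sz_pair, sz_pair]
  have e1 := sz_le_length h1 u
  have e2 := sz_le_length h1 v
  have e3 := sz_le_length h2 l
  have e4 := sz_le_length h2 r
  simp only
  rw [Nat.mul_add, Nat.mul_add, Nat.mul_add]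
  omega

/-- The test for parts of a run. -/
noncomputable def slc (p : Blk Γ ι × List (Blk Γ ι)) : Bool :=
  decide (p.1.1 :: p.2.map (fun q => q.2.1) = p.2.map (fun q => q.1) ++ [p.1.2.1]) &&
  (decide ((p.2.map fun q => q.2.2.1).flatten = p.1.2.2.1) &&
   decide ((p.2.map fun q => q.2.2.2).flatten = p.1.2.2.2))

theorem slc_iff {x : Blk Γ ι} {zs : List (Blk Γ ι)} : slc (x, zs) = true ↔ Sl x zs := by
  simp only [slc, Sl, Bool.and_eq_true, decide_eq_true_eq]

theorem lin_slc : Lin (slc : Blk Γ ι × List (Blk Γ ι) → Bool) := by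
  refine (Lin.eq ((b_u.comp Lin.fst).cons (Lin.map' Lin.snd b_v))
    ((Lin.map' Lin.snd b_u).append ((b_v.comp Lin.fst).cons (Lin.const [])))).and
    ((Lin.eq (Lin.flatten (Lin.map' Lin.snd b_l)) (b_l.comp Lin.fst)).and
      (Lin.eq (Lin.flatten (Lin.map' Lin.snd b_r)) (b_r.comp Lin.fst)))

/-- The test for the two halves of a block. -/
noncomputable def spl (p : Blk Γ ι × (Blk Γ ι × Blk Γ ι)) : Bool :=
  decide (p.1.1 = p.2.1.1 ++ p.2.2.1) && (decide (p.1.2.1 = p.2.1.2.1 ++ p.2.2.2.1) &&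
    (decide (p.1.2.2.1 = p.2.1.2.2.1) && (decide (p.2.1.2.2.2 = p.2.2.2.2.1) &&
      decide (p.2.2.2.2.2 = p.1.2.2.2))))

theorem spl_iff {x x₁ x₂ : Blk Γ ι} : spl (x, (x₁, x₂)) = true ↔ Spl x x₁ x₂ := by
  simp only [spl, Spl, Bool.and_eq_true, decide_eq_true_eq]

theorem lin_spl : Lin (spl : Blk Γ ι × (Blk Γ ι × Blk Γ ι) → Bool) := by
  have h1 : Lin (fun p : Blk Γ ι × (Blk Γ ι × Blk Γ ι) => p.2.1) := Lin.fst.comp Lin.snd
  have h2 : Lin (fun p : Blk Γ ι × (Blk Γ ι × Blk Γ ι) => p.2.2) := Lin.snd.comp Lin.snd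
  exact (Lin.eq (b_u.comp Lin.fst) ((b_u.comp h1).append (b_u.comp h2))).and
    ((Lin.eq (b_v.comp Lin.fst) ((b_v.comp h1).append (b_v.comp h2))).and
    ((Lin.eq (b_l.comp Lin.fst) (b_l.comp h1)).and
    ((Lin.eq (b_r.comp h1) (b_l.comp h2)).and (Lin.eq (b_r.comp h2) (b_r.comp Lin.fst)))))

/-- The test for one step; the second block contains the words needed. -/
noncomputable def oneB (mR : List Γ × List Γ → Bool) (ev : ι → Ev Γ)
    (p : Blk Γ ι × (Blk Γ ι × Blk Γ ι)) : Bool :=
  ((decide (p.1.1 = p.1.2.1) && (p.1.2.2.1.isEmpty && p.1.2.2.2.isEmpty)) ||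
  (mR (p.2.1.1, p.2.1.2.1) && (decide (p.1.1 = p.2.2.1 ++ (p.2.1.1 ++ p.2.2.2.1)) &&
    (decide (p.1.2.1 = p.2.2.1 ++ (p.2.1.2.1 ++ p.2.2.2.1)) &&
    (p.1.2.2.1.isEmpty && p.1.2.2.2.isEmpty))))) ||
  (((!p.1.2.2.1.isEmpty) && (p.1.2.2.1.tail.isEmpty && (p.1.2.2.2.isEmpty &&
    (decide (p.1.1 = (ev (p.1.2.2.1.headD (Classical.arbitrary ι))).2.1 ++ p.2.2.1) &&
     decide (p.1.2.1 = (ev (p.1.2.2.1.headD (Classical.arbitrary ι))).2.2 ++ p.2.2.1))))) ||
  ((!p.1.2.2.2.isEmpty) && (p.1.2.2.2.tail.isEmpty && (p.1.2.2.1.isEmpty &&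
    (decide (p.1.1 = p.2.2.1 ++ (ev (p.1.2.2.2.headD (Classical.arbitrary ι))).1.1) &&
     decide (p.1.2.1 = p.2.2.1 ++ (ev (p.1.2.2.2.headD (Classical.arbitrary ι))).1.2))))))

theorem lin_oneB {mR : List Γ × List Γ → Bool} (hmR : Lin mR) :
    Lin (oneB mR ev : Blk Γ ι × (Blk Γ ι × Blk Γ ι) → Bool) := by
  have h0 : Lin (fun p : Blk Γ ι × (Blk Γ ι × Blk Γ ι) => p.1) := Lin.fst
  have h1 : Lin (fun p : Blk Γ ι × (Blk Γ ι × Blk Γ ι) => p.2.1) := Lin.fst.comp Lin.snd
  have h2 : Lin (fun p : Blk Γ ι × (Blk Γ ι × Blk Γ ι) => p.2.2) := Lin.snd.comp Lin.snd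
  have u := b_u.comp h0
  have v := b_v.comp h0
  have l := b_l.comp h0
  have r := b_r.comp h0
  have e1 : Lin (fun e : ι => (ev e).2.1) := Lin.of_finite _
  have e2 : Lin (fun e : ι => (ev e).2.2) := Lin.of_finite _
  have e3 : Lin (fun e : ι => (ev e).1.1) := Lin.of_finite _
  have e4 : Lin (fun e : ι => (ev e).1.2) := Lin.of_finite _
  have lr := (Lin.isEmpty l).and (Lin.isEmpty r)
  refine (((Lin.eq u v).and lr).or ((hmR.comp ((b_u.comp h1).pair (b_v.comp h1))).and
    ((Lin.eq u ((b_u.comp h2).append ((b_u.comp h1).append (b_v.comp h2)))).and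
    ((Lin.eq v ((b_u.comp h2).append ((b_v.comp h1).append (b_v.comp h2)))).and lr)))).or
    (((Lin.isEmpty l).not.and ((Lin.isEmpty l.tail).and ((Lin.isEmpty r).and
      ((Lin.eq u ((e1.comp (l.headD _)).append (b_u.comp h2))).and
        (Lin.eq v ((e2.comp (l.headD _)).append (b_u.comp h2))))))).or
    ((Lin.isEmpty r).not.and ((Lin.isEmpty r.tail).and ((Lin.isEmpty l).and
      ((Lin.eq u ((b_u.comp h2).append (e3.comp (r.headD _)))).and
        (Lin.eq v ((b_u.comp h2).append (e4.comp (r.headD _)))))))))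

theorem oneB_sound {mR : List Γ × List Γ → Bool} (hR : ∀ p, mR p = true ↔ p ∈ R)
    {x y₁ y₂ : Blk Γ ι} (h : oneB mR ev (x, (y₁, y₂)) = true) : One R ev x := by
  obtain ⟨u, v, l, r⟩ := x
  simp only [oneB, Bool.or_eq_true, Bool.and_eq_true, decide_eq_true_eq, List.isEmpty_iff,
    Bool.not_eq_true', hR] at h
  simp only [One]
  rcases h with (⟨h1, h2, h3⟩ | ⟨h1, h2, h3, h4, h5⟩) | (⟨h1, h2, h3, h4, h5⟩ |
    ⟨h1, h2, h3, h4, h5⟩)
  · exact Or.inl ⟨h1, h2, h3⟩
  · refine Or.inr (Or.inl ⟨⟨_, _, y₂.1, y₁.1, y₁.2.1, y₂.2.1, h1, ?_, ?_, rfl, rfl⟩, h4, h5⟩)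
    · rw [h2, List.append_assoc]
    · rw [h3, List.append_assoc]
  · cases l with
    | nil => simp at h1
    | cons e l =>
      simp only [List.tail_cons] at h2
      subst h2
      exact Or.inr (Or.inr (Or.inl ⟨e, ⟨y₂.1, h4, h5⟩, rfl, h3⟩))
  · cases r with
    | nil => simp at h1
    | cons e r =>
      simp only [List.tail_cons] at h2
      subst h2
      exact Or.inr (Or.inr (Or.inr ⟨e, ⟨y₂.1, h4, h5⟩, h3, rfl⟩))

theorem oneB_complete (hG : Good R ev L) {mR : List Γ × List Γ → Bool}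
    (hR : ∀ p, mR p = true ↔ p ∈ R) {x : Blk Γ ι} (h : One R ev x) :
    ∃ y₁ y₂ : Blk Γ ι, oneB mR ev (x, (y₁, y₂)) = true ∧
      y₁.1.length ≤ x.1.length ∧ y₁.2.1.length ≤ x.1.length ∧ y₂.1.length ≤ x.1.length ∧
      y₂.2.1.length ≤ x.1.length ∧ y₁.2.2.1 = [] ∧ y₁.2.2.2 = [] ∧ y₂.2.2.1 = [] ∧
      y₂.2.2.2 = [] := by
  obtain ⟨u, v, l, r⟩ := x
  simp only [One] at h
  simp only [oneB, Bool.or_eq_true, Bool.and_eq_true, decide_eq_true_eq, List.isEmpty_iff,
    Bool.not_eq_true', hR]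
  rcases h with ⟨rfl, rfl, rfl⟩ | ⟨⟨i, j, x, a, b, y, hab, rfl, rfl, rfl, rfl⟩, rfl, rfl⟩ |
    ⟨e, ⟨y, rfl, rfl⟩, rfl, rfl⟩ | ⟨e, ⟨y, rfl, rfl⟩, rfl, rfl⟩
  · exact ⟨([], [], [], []), ([], [], [], []), Or.inl (Or.inl ⟨rfl, rfl, rfl⟩), by simp⟩
  · have h1 := hG.len _ hab
    simp only at h1
    refine ⟨(a, b, [], []), (x, y, [], []), Or.inl (Or.inr ⟨hab, by simp, by simp, rfl, rfl⟩),
      ?_⟩
    simp only [List.length_append]
    refine ⟨by omega, by omega, by omega, by omega, ?_⟩
    simp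
  · refine ⟨([], [], [], []), (y, [], [], []), Or.inr (Or.inl ⟨rfl, rfl, rfl, rfl, rfl⟩), ?_⟩
    simp only [List.length_append, List.length_nil]
    refine ⟨by omega, by omega, by omega, by omega, ?_⟩
    simp
  · refine ⟨([], [], [], []), (y, [], [], []), Or.inr (Or.inr ⟨rfl, rfl, rfl, rfl, rfl⟩), ?_⟩
    simp only [List.length_append, List.length_nil]
    refine ⟨by omega, by omega, by omega, by omega, ?_⟩
    simp

/-! ### Tests and subinstances -/

/-- Guesses: the mode, two blocks, and the parts of the runs in them. -/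
abbrev Gue (Γ ι : Type) :=
  (Bool × Bool) × (Blk Γ ι × (Blk Γ ι × (List (Blk Γ ι) × List (Blk Γ ι))))

/-- The test of guesses. -/
noncomputable def chk (mR : List Γ × List Γ → Bool) (ev : ι → Ev Γ)
    (p : Blk Γ ι × Gue Γ ι) : Bool :=
  if p.2.1.1 then
    spl (p.1, (p.2.2.1, p.2.2.2.1)) && (slc (p.2.2.1, p.2.2.2.2.1) &&
      slc (p.2.2.2.1, p.2.2.2.2.2))
  else if p.2.1.2 then slc (p.1, p.2.2.2.2.1) else oneB mR ev (p.1, (p.2.2.1, p.2.2.2.1))

/-- The subinstances. -/
noncomputable def subs (p : Blk Γ ι × Gue Γ ι) : List (Blk Γ ι) :=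
  if p.2.1.1 then p.2.2.2.2.1 ++ p.2.2.2.2.2 else if p.2.1.2 then p.2.2.2.2.1 else []

theorem g_a : Lin (fun p : Blk Γ ι × Gue Γ ι => p.2.1.1) :=
  Lin.fst.comp (Lin.fst.comp Lin.snd)
theorem g_b : Lin (fun p : Blk Γ ι × Gue Γ ι => p.2.1.2) :=
  Lin.snd.comp (Lin.fst.comp Lin.snd)
theorem g_1 : Lin (fun p : Blk Γ ι × Gue Γ ι => p.2.2.1) :=
  Lin.fst.comp (Lin.snd.comp Lin.snd)
theorem g_2 : Lin (fun p : Blk Γ ι × Gue Γ ι => p.2.2.2.1) :=
  Lin.fst.comp (Lin.snd.comp (Lin.snd.comp Lin.snd))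
theorem g_l : Lin (fun p : Blk Γ ι × Gue Γ ι => p.2.2.2.2.1) :=
  Lin.fst.comp (Lin.snd.comp (Lin.snd.comp (Lin.snd.comp Lin.snd)))
theorem g_r : Lin (fun p : Blk Γ ι × Gue Γ ι => p.2.2.2.2.2) :=
  Lin.snd.comp (Lin.snd.comp (Lin.snd.comp (Lin.snd.comp Lin.snd)))

theorem lin_chk {mR : List Γ × List Γ → Bool} (hmR : Lin mR) :
    Lin (chk mR ev : Blk Γ ι × Gue Γ ι → Bool) :=
  g_a.ite ((lin_spl.comp (Lin.fst.pair (g_1.pair g_2))).and
    ((lin_slc.comp (g_1.pair g_l)).and (lin_slc.comp (g_2.pair g_r))))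
    (g_b.ite (lin_slc.comp (Lin.fst.pair g_l)) ((lin_oneB hmR).comp
      (Lin.fst.pair (g_1.pair g_2))))

theorem lin_subs : Lin (subs : Blk Γ ι × Gue Γ ι → List (Blk Γ ι)) :=
  g_a.ite (g_l.append g_r) (g_b.ite g_l (Lin.const []))

theorem chk_sound (hG : Good R ev L) {mR : List Γ × List Γ → Bool}
    (hR : ∀ p, mR p = true ↔ p ∈ R) (x : Blk Γ ι) (y : Gue Γ ι)
    (h : chk mR ev (x, y) = true) (hs : ∀ z ∈ subs (x, y), ∃ c k, RunB R ev z c k) :
    ∃ c k, RunB R ev x c k := by
  rcases Bool.eq_false_or_eq_true y.1.1 with ha | ha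
  · simp only [chk, ha, if_true, Bool.and_eq_true] at h
    simp only [subs, ha, if_true] at hs
    obtain ⟨h1, h2, h3⟩ := h
    exact Spl.glue hG (spl_iff.1 h1)
      ((slc_iff.1 h2).exists_run fun p hp => hs p (List.mem_append_left _ hp))
      ((slc_iff.1 h3).exists_run fun p hp => hs p (List.mem_append_right _ hp))
  · rcases Bool.eq_false_or_eq_true y.1.2 with hb | hb
    · simp only [chk, ha, hb, if_true, Bool.false_eq_true, if_false] at h
      simp only [subs, ha, hb, if_true, Bool.false_eq_true, if_false] at hs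
      exact (slc_iff.1 h).exists_run hs
    · simp only [chk, ha, hb, Bool.false_eq_true, if_false] at h
      exact (oneB_sound hR h).run

theorem sz_gue {c s : ℕ} (h1 : ∀ a : Γ, sz a ≤ c) (h2 : ∀ a : ι, sz a ≤ c) (hs : 1 ≤ s)
    {a b : Bool} {x₁ x₂ : Blk Γ ι} {ls rs : List (Blk Γ ι)}
    (g1 : x₁.1.length + x₁.2.1.length + x₁.2.2.1.length + x₁.2.2.2.length ≤ 6 * s)
    (g2 : x₂.1.length + x₂.2.1.length + x₂.2.2.1.length + x₂.2.2.2.length ≤ 6 * s)
    (g3 : ∀ z ∈ ls ++ rs, z.1.length + z.2.1.length + z.2.2.1.length + z.2.2.2.length ≤ 6 * s)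
    (hl : ls.length ≤ 13) (hr : rs.length ≤ 13) :
    sz (((a, b), (x₁, (x₂, (ls, rs)))) : Gue Γ ι) ≤ (28 * (6 * (c + 1) + 8) + 13) * s := by
  have e1 := sz_blk h1 h2 x₁
  have e2 := sz_blk h1 h2 x₂
  have f1 := Nat.mul_le_mul_left (c + 1) g1
  have f2 := Nat.mul_le_mul_left (c + 1) g2
  have hz : ∀ z ∈ ls ++ rs, sz z ≤ (6 * (c + 1) + 7) * s := by
    intro z hz
    have a1 := sz_blk h1 h2 z
    have a2 := Nat.mul_le_mul_left (c + 1) (g3 z hz)
    have a3 : (6 * (c + 1) + 7) * s = (c + 1) * (6 * s) + 7 * s := by ring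
    omega
  have e3 := sz_list_le (fun z hz' => hz z (List.mem_append_left _ hz')) hl
  have e4 := sz_list_le (fun z hz' => hz z (List.mem_append_right _ hz')) hr
  have p0 := sz_pair ((a, b) : Bool × Bool) (x₁, (x₂, (ls, rs)))
  have p1 := sz_pair x₁ (x₂, (ls, rs))
  have p2 := sz_pair x₂ (ls, rs)
  have p3 := sz_pair ls rs
  have p4 := sz_pair a b
  have q1 := sz_bool a
  have q2 := sz_bool b
  have a4 : 13 * ((6 * (c + 1) + 7) * s + 1) ≤ 13 * ((6 * (c + 1) + 8) * s) := by
    refine Nat.mul_le_mul_left _ ?_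
    have : (6 * (c + 1) + 8) * s = (6 * (c + 1) + 7) * s + s := by ring
    omega
  have a5 : (28 * (6 * (c + 1) + 8) + 13) * s =
      28 * ((6 * (c + 1) + 8) * s) + 13 * s := by
    ring
  have a6 : (6 * (c + 1) + 8) * s = (c + 1) * (6 * s) + 8 * s := by ring
  omega

end Quad

end Pool.Agent.Lib.LinSpace
end

section

/-!
Runs with cheap cuts are found in linear space.
-/

set_option autoImplicit false
set_option linter.unusedSectionVars false

namespace Pool.Agent.Lib.LinSpace.Quad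

open Classical

variable {Γ ι : Type} [Enc Γ] [Enc ι] [Rd Γ] [Rd ι] [Fintype Γ] [Finite ι] [Nonempty ι]
variable {R : Set (List Γ × List Γ)} {ev : ι → Ev Γ} {L : ℕ}

/-- The strong predicate: instances that are accepted with budget `n`. -/
def Sp (R : Set (List Γ × List Γ)) (ev : ι → Ev Γ) (L D D' n : ℕ) (x : Blk Γ ι) : Prop :=
  x.2.1.length = x.1.length ∧ x.2.2.1.length + x.2.2.2.length ≤ x.1.length ∧
    1 ≤ x.1.length ∧
    ((∃ h, SS R ev x h ∧ D * x.1.length * (h + 1) ≤ n) ∨
    ∃ c k p h s, RunB R ev x c k ∧ x.1.length ≤ 3 * p ∧ 3 * p ≤ 2 * x.1.length ∧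
      100 * (L + 1) ≤ x.1.length ∧ c p ≤ x.1.length * 2 ^ h ∧ Cut c 0 p s ∧
      Cut c p (x.1.length - p) s ∧ D * x.1.length * (h + 1) + D' * s ≤ n)

theorem Sp.start (hG : Good R ev L) {D D' n : ℕ} {x : Blk Γ ι} {c : ℕ → ℕ} {k s : ℕ}
    (hr : RunB R ev x c k) (hlr : x.2.2.1.length + x.2.2.2.length ≤ x.1.length)
    (h1 : 1 ≤ x.1.length) (hc : Cut c 0 x.1.length s)
    (hD' : D' = D * ((Fintype.card Γ + 3) * (100 * (L + 1)))) (hn : D' * s ≤ n) :
    Sp R ev L D D' n x := by
  have hlen := hr.length hG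
  refine ⟨hlen, hlr, h1, ?_⟩
  -- not too large blocks
  have hsav : D * x.1.length * ((Fintype.card Γ + 3) * x.1.length) ≤ n →
      ∃ h, SS R ev x h ∧ D * x.1.length * (h + 1) ≤ n := by
    intro h
    obtain ⟨c', k', h2, h3⟩ := Run.short hG hr hlr
    refine ⟨(Fintype.card Γ + 2) * x.1.length, ⟨c', k', h2, h3⟩,
      (Nat.mul_le_mul_left _ ?_).trans h⟩
    have : (Fintype.card Γ + 3) * x.1.length = (Fintype.card Γ + 2) * x.1.length +
      x.1.length := by ring
    omega
  cases hc with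
  | leaf _ _ _ hb =>
    left
    refine hsav ?_
    have e1 : D' * x.1.length ^ 2 ≤ D' * s := Nat.mul_le_mul_left _ hb
    have e2 : D * x.1.length * ((Fintype.card Γ + 3) * x.1.length) =
      D * (Fintype.card Γ + 3) * x.1.length ^ 2 := by ring
    have e3 : D * (Fintype.card Γ + 3) * x.1.length ^ 2 ≤ D' * x.1.length ^ 2 := by
      refine Nat.mul_le_mul_right _ ?_
      rw [hD', ← Nat.mul_assoc]
      exact Nat.le_mul_of_pos_right _ (by omega)
    omega
  | node _ _ _ p h s' h2 h3 h4 h5 h6 h7 =>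
    rcases Nat.lt_or_ge x.1.length (100 * (L + 1)) with hb | hb
    · left
      refine hsav ?_
      have e0 : x.1.length ≤ s := by
        have : x.1.length ≤ x.1.length * (h + 1) := Nat.le_mul_of_pos_right _ (by omega)
        omega
      have e1 : D' * x.1.length ≤ D' * s := Nat.mul_le_mul_left _ e0
      have e2 : D * x.1.length * ((Fintype.card Γ + 3) * x.1.length) ≤
          D * x.1.length * ((Fintype.card Γ + 3) * (100 * (L + 1))) :=
        Nat.mul_le_mul_left _ (Nat.mul_le_mul_left _ hb.le)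
      have e3 : D * x.1.length * ((Fintype.card Γ + 3) * (100 * (L + 1))) =
        D' * x.1.length := by rw [hD']; ring
      omega
    · right
      rw [Nat.zero_add] at h4 h7
      refine ⟨c, k, p, h, s', hr, h2, h3, hb, h4, h6, h7, ?_⟩
      have e1 : D' * (x.1.length * (h + 1) + s') ≤ D' * s := Nat.mul_le_mul_left _ h5
      have e2 : D' * (x.1.length * (h + 1) + s') = D' * (x.1.length * (h + 1)) + D' * s' := by
        ring
      have e3 : D * x.1.length * (h + 1) ≤ D' * (x.1.length * (h + 1)) := by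
        rw [Nat.mul_assoc]
        refine Nat.mul_le_mul_right _ ?_
        rw [hD']
        exact Nat.le_mul_of_pos_right _ (by positivity)
      omega

theorem exists_guess (hG : Good R ev L) {mR : List Γ × List Γ → Bool}
    (hR : ∀ p, mR p = true ↔ p ∈ R) {c : ℕ}
    (h1 : ∀ a : Γ, sz a ≤ c) (h2 : ∀ a : ι, sz a ≤ c) {D D' : ℕ} (hD : D = 3 * (c + 1) + 7)
    (hD' : D' = D * ((Fintype.card Γ + 3) * (100 * (L + 1)))) (n : ℕ) (x : Blk Γ ι)
    (hx : Sp R ev L D D' n x) :
    sz x ≤ n ∧ ∃ y : Gue Γ ι, sz y ≤ (28 * (6 * (c + 1) + 8) + 13) * sz x ∧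
      chk mR ev (x, y) = true ∧ ∀ z ∈ subs (x, y), Sp R ev L D D' (n - sz x) z := by
  obtain ⟨a1, a2, a3, a4⟩ := hx
  have hszx : sz x ≤ D * x.1.length := by
    have e1 := sz_blk h1 h2 x
    have e2 : (c + 1) * (x.1.length + x.2.1.length + x.2.2.1.length + x.2.2.2.length) ≤
      (c + 1) * (3 * x.1.length) := Nat.mul_le_mul_left _ (by omega)
    have e3 : D * x.1.length = (c + 1) * (3 * x.1.length) + 7 * x.1.length := by
      rw [hD]; ring
    omega
  have hs : x.1.length ≤ sz x := by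
    have e1 := length_le_sz x.1
    have e2 : sz x = sz x.1 + sz x.2 + 1 := sz_pair x.1 x.2
    omega
  have hs1 : 1 ≤ sz x := sz_pos x
  rcases a4 with ⟨h, b1, b2⟩ | ⟨cr, k, p, h, s, b1, b2, b3, b4, b5, b6, b7, b8⟩
  · -- halving the number of steps
    have hmul : D * x.1.length ≤ D * x.1.length * (h + 1) := Nat.le_mul_of_pos_right _ (by omega)
    refine ⟨by omega, ?_⟩
    cases h with
    | zero =>
      obtain ⟨y₁, y₂, c1, c2, c3, c4, c5, c6, c7, c8, c9⟩ := oneB_complete hG hR b1.one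
      refine ⟨((false, false), (y₁, (y₂, ([], [])))), ?_, ?_, ?_⟩
      · refine sz_gue h1 h2 hs1 ?_ ?_ ?_ ?_ ?_
        · rw [c6, c7]; simp only [List.length_nil]; omega
        · rw [c8, c9]; simp only [List.length_nil]; omega
        · simp
        · simp
        · simp
      · simp only [chk, Bool.false_eq_true, if_false]
        exact c1
      · intro z hz
        simp [subs] at hz
    | succ h =>
      obtain ⟨zs, c1, c2, c3⟩ := b1.halve hG
      refine ⟨((false, true), (x, (x, (zs, [])))), ?_, ?_, ?_⟩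
      · refine sz_gue h1 h2 hs1 (by omega) (by omega) ?_ (by omega) (by simp)
        intro z hz
        rw [List.append_nil] at hz
        obtain ⟨d1, d2, _⟩ := c3 z hz
        have d3 := c2.ev_le z hz
        omega
      · simp only [chk, Bool.false_eq_true, if_false, if_true]
        exact slc_iff.2 c2
      · intro z hz
        simp only [subs, Bool.false_eq_true, if_false, if_true] at hz
        obtain ⟨d1, d2, d4⟩ := c3 z hz
        have d3 := c2.ev_le z hz
        refine ⟨by omega, by omega, by omega, Or.inl ⟨h, d4, ?_⟩⟩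
        rw [d1]
        have e1 : D * x.1.length * (h + 1 + 1) = D * x.1.length * (h + 1) +
          D * x.1.length := by ring
        omega
  · have hmul : D * x.1.length ≤ D * x.1.length * (h + 1) := Nat.le_mul_of_pos_right _ (by omega)
    refine ⟨by omega, ?_⟩
    cases h with
    | zero =>
      -- a cut
      rw [Nat.pow_zero, Nat.mul_one] at b5
      obtain ⟨x₁, x₂, ls, rs, c1, c2, c3, c4, c5, c6, c7, c8, c9, c10⟩ :=
        cutBlock hG b1 b2 b3 b5 b6 b7 b4 a2
      have j1' : x.1.length = x₁.1.length + x₂.1.length := by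
        rw [c1.1, List.length_append]
      refine ⟨((true, false), (x₁, (x₂, (ls, rs)))), ?_, ?_, ?_⟩
      · refine sz_gue h1 h2 hs1 (by omega) (by omega) ?_ c8 c9
        intro z hz
        obtain ⟨d1, d2, d3, d4, _⟩ := c10 z hz
        omega
      · simp only [chk, if_true, Bool.and_eq_true]
        exact ⟨spl_iff.2 c1, slc_iff.2 c2, slc_iff.2 c3⟩
      · intro z hz
        simp only [subs, if_true] at hz
        obtain ⟨d1, d2, d3, d4, c', k', d5, d6⟩ := c10 z hz
        refine Sp.start hG d5 d4 (by omega) d6 hD' ?_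
        omega
    | succ h =>
      obtain ⟨zs, c1, c2, c3⟩ := halveCut hG b1 (by omega) b5
      refine ⟨((false, true), (x, (x, (zs, [])))), ?_, ?_, ?_⟩
      · refine sz_gue h1 h2 hs1 (by omega) (by omega) ?_ (by omega) (by simp)
        intro z hz
        rw [List.append_nil] at hz
        obtain ⟨d1, d2, _⟩ := c3 z hz
        have d3 := c2.ev_le z hz
        omega
      · simp only [chk, Bool.false_eq_true, if_false, if_true]
        exact slc_iff.2 c2
      · intro z hz
        simp only [subs, Bool.false_eq_true, if_false, if_true] at hz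
        obtain ⟨d1, d2, c', k', d4, d5, d6⟩ := c3 z hz
        have d3 := c2.ev_le z hz
        refine ⟨by omega, by omega, by omega, Or.inr ⟨c', k', p, h, s, d4, by omega, by omega,
          by omega, by rw [d1]; exact d6, ?_, ?_, ?_⟩⟩
        · exact b6.anti (y := 0) d5 rfl
        · rw [d1]
          exact b7.anti (y := 0) d5 rfl
        · rw [d1]
          have e1 : D * x.1.length * (h + 1 + 1) = D * x.1.length * (h + 1) +
            D * x.1.length := by ring
          omega

/-- Runs with cheap cuts are found in linear space. -/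
theorem lin_core (hG : Good R ev L) (hRf : R.Finite) (C : ℕ) {ω : Type} [Enc ω]
    {u v : ω → List Γ} (hu : Lin u) (hv : Lin v) :
    ∃ f : ω → Bool, Lin f ∧
      (∀ w c k, 1 ≤ (u w).length → Run R ev (u w) [] [] (v w) c k →
        Cut c 0 (u w).length (C * (u w).length) → f w = true) ∧
      ∀ w, f w = true → ∃ c k, Run R ev (u w) [] [] (v w) c k := by
  obtain ⟨c1, hc1⟩ : ∃ c, ∀ a : Γ, sz a ≤ c := by
    obtain ⟨a, ha⟩ := (Set.finite_range fun l : Γ => sz l).bddAbove
    exact ⟨a, fun l => ha ⟨l, rfl⟩⟩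
  obtain ⟨c2, hc2⟩ : ∃ c, ∀ a : ι, sz a ≤ c := by
    obtain ⟨a, ha⟩ := (Set.finite_range fun l : ι => sz l).bddAbove
    exact ⟨a, fun l => ha ⟨l, rfl⟩⟩
  obtain ⟨c, hcdef⟩ : ∃ c, c = c1 + c2 := ⟨_, rfl⟩
  have h1 : ∀ a : Γ, sz a ≤ c := fun a => (hc1 a).trans (by omega)
  have h2 : ∀ a : ι, sz a ≤ c := fun a => (hc2 a).trans (by omega)
  obtain ⟨mR, hmR, hR⟩ := Lin.mem_finite hRf
  obtain ⟨D, hD⟩ : ∃ D, D = 3 * (c + 1) + 7 := ⟨_, rfl⟩
  obtain ⟨D', hD'⟩ : ∃ D', D' = D * ((Fintype.card Γ + 3) * (100 * (L + 1))) := ⟨_, rfl⟩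
  obtain ⟨E, hE⟩ : ∃ E, E = 28 * (6 * (c + 1) + 8) + 13 := ⟨_, rfl⟩
  have hm : Lin (fun w => rn ((D' * C) * (u w).length)) := by
    refine (Lin.rep (Lin.map' hu (Lin.const false)) (D' * C)).of_eq fun w => ?_
    rw [List.map_const', rep_replicate]
    rfl
  obtain ⟨f, hf, f1, f2⟩ := lin_budget (C := E) (S := Sp R ev L D D')
    (W := fun x => ∃ c k, RunB R ev x c k) (chk := chk mR ev) (subs := subs)
    (x0 := fun w => ((u w, (v w, ([], []))) : Blk Γ ι)) (m := fun w => (D' * C) * (u w).length)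
    (lin_chk hmR) lin_subs
    (fun x y hy hs => chk_sound hG hR x y hy hs)
    (fun n x hS => by
      obtain ⟨g0, y, g1, g2, g3⟩ := exists_guess hG hR h1 h2 hD hD' n x hS
      rw [← hE] at g1
      exact ⟨g0, y, by omega, g2, g3⟩)
    (hu.pair (hv.pair (Lin.const _))) hm
  refine ⟨f, hf, ?_, f2⟩
  intro w c k hw hr hc
  refine f1 w (Sp.start hG (x := (u w, (v w, ([], [])))) hr ?_ hw hc hD' ?_)
  · simp
  · exact (Nat.mul_assoc _ _ _).symm.le

end Pool.Agent.Lib.LinSpace.Quad
end

section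

/-!
Length-preserving rewriting systems: all ways to split the rules, and the averaging argument.
-/

set_option autoImplicit false

namespace Pool.Agent.Lib.LinSpace.Quad

variable {Γ : Type}

/-- The splittings of the rules. -/
def splits (R : Set (List Γ × List Γ)) : Set (Ev Γ) :=
  {e | (e.1.1 ++ e.2.1, e.1.2 ++ e.2.2) ∈ R ∧ e.1.1.length = e.1.2.length ∧
    e.2.1.length = e.2.2.length}

theorem splits_finite {R : Set (List Γ × List Γ)} (hR : R.Finite) : (splits R).Finite := by
  refine Set.Finite.subset (Set.Finite.biUnion hR (t := fun r =>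
    (fun q => ((r.1.take q, r.2.take q), (r.1.drop q, r.2.drop q))) ''
      ((Finset.range (r.1.length + 1) : Finset ℕ) : Set ℕ)) fun r _ =>
    (Finset.finite_toSet _).image _) ?_
  rintro ⟨⟨a, a'⟩, ⟨b, b'⟩⟩ ⟨h1, h2, h3⟩
  simp only at h1 h2 h3
  simp only [Set.mem_iUnion]
  refine ⟨_, h1, a.length, ?_, ?_⟩
  · simp only [Finset.coe_range, Set.mem_Iio, List.length_append]; omega
  · simp only
    rw [List.take_left, List.drop_left, h2, List.take_left, List.drop_left]

theorem splits_good {R : Set (List Γ × List Γ)} (hlen : ∀ p ∈ R, p.1.length = p.2.length)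
    {L : ℕ} (hL : ∀ p ∈ R, p.1.length ≤ L) :
    Good R (fun e : splits R => (e : Ev Γ)) L where
  len := hlen
  le := hL
  evl e := e.2.2.1
  evr e := e.2.2.2
  mem e := e.2.1
  split p hp q h0 hq := by
    have h1 := hlen p hp
    refine ⟨⟨((p.1.take q, p.2.take q), (p.1.drop q, p.2.drop q)), ?_, ?_, ?_⟩, rfl⟩
    · simp only [List.take_append_drop]; exact hp
    · simp only [List.length_take]; omega
    · simp only [List.length_drop]; omega

/-- Runs of a length-preserving rewriting system with few crossings on large scales are found in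
linear space. -/
theorem lin_rw [Enc Γ] [Rd Γ] [Finite Γ] {R : Set (List Γ × List Γ)}
    (hRf : R.Finite) (hlen : ∀ p ∈ R, p.1.length = p.2.length) (h0 : (([], []) : _ × _) ∈ R)
    {φ : ℕ → ℕ} (hφ : Monotone φ) (hs : Summable fun m : ℕ => (φ m : ℝ) / (m : ℝ) ^ 2)
    (C : ℕ) {ω : Type} [Enc ω] {u v : ω → List Γ} (hu : Lin u) (hv : Lin v) :
    ∃ f : ω → Bool, Lin f ∧
      (∀ w c k, 1 ≤ (u w).length →
        Run R (fun e : splits R => (e : Ev Γ)) (u w) [] [] (v w) c k →
        Hier φ C (u w).length c → f w = true) ∧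
      ∀ w, f w = true → ∃ c k, Run R (fun e : splits R => (e : Ev Γ)) (u w) [] [] (v w) c k := by
  have _ : Fintype Γ := Fintype.ofFinite Γ
  obtain ⟨L, hL⟩ : ∃ L, ∀ p ∈ R, p.1.length ≤ L := by
    obtain ⟨L, hL⟩ := (hRf.image fun p => p.1.length).bddAbove
    exact ⟨L, fun p hp => hL ⟨p, hp, rfl⟩⟩
  have hG := splits_good hlen hL
  have _ : Finite (splits R) := (splits_finite hRf).to_subtype
  have _ : Nonempty (splits R) := ⟨⟨(([], []), ([], [])), h0, rfl, rfl⟩⟩
  let _ : Enc (splits R) := encFinite (splits R)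
  let _ : Rd (splits R) := rdFinite (splits R)
  obtain ⟨C', hC'⟩ := cut_of_hier hφ hs C
  obtain ⟨f, hf, f1, f2⟩ := lin_core hG hRf C' hu hv
  exact ⟨f, hf, fun w c k h1 h2 h3 => f1 w c k h1 h2 (hC' _ c h1 h3), f2⟩

/-! ### Averaging -/

/-- The condition on crossings follows from a quadratic bound for the number of all
crossings. -/
theorem hier_of_sum {K N : ℕ} {c : ℕ → ℕ} (h : ∑ q ∈ Finset.Ico 1 N, c q ≤ K * N ^ 2) :
    Hier (fun m => Nat.log 2 m + 1) (8 * K + 100) N c := by
  intro x b h0 hx hb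
  by_contra hcon
  push Not at hcon
  have hbN : b ≤ N := by omega
  have hb100 : 8 * K + 100 ≤ b := by
    have e1 : (8 * K + 100) * b ≤ (8 * K + 100) * N := Nat.mul_le_mul_left _ hbN
    have e2 : (8 * K + 100) * b ≤ b * b := by
      have : b ^ 2 = b * b := by ring
      omega
    exact Nat.le_of_mul_le_mul_right e2 h0
  set Z := (8 * K + 100) * N * 2 ^ (Nat.log 2 (N / b) + 1) with hZ
  have h1 : ∑ q ∈ Finset.Ico (x + (b / 3 + 1)) (x + (b / 3 + 1) + b / 4), (Z + 1) ≤
      ∑ q ∈ Finset.Ico (x + (b / 3 + 1)) (x + (b / 3 + 1) + b / 4), c q := by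
    refine Finset.sum_le_sum fun q hq => ?_
    rw [Finset.mem_Ico] at hq
    have h2 := hcon (q - x) (by omega) (by omega)
    rw [show x + (q - x) = q by omega] at h2
    exact h2
  have h2 : ∑ q ∈ Finset.Ico (x + (b / 3 + 1)) (x + (b / 3 + 1) + b / 4), c q ≤
      ∑ q ∈ Finset.Ico 1 N, c q := by
    refine Finset.sum_le_sum_of_subset fun q hq => ?_
    rw [Finset.mem_Ico] at hq ⊢
    omega
  rw [Finset.sum_const, Nat.card_Ico, smul_eq_mul, Nat.add_sub_cancel_left] at h1
  have h3 : b ≤ 5 * (b / 4) := by omega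
  set P := 2 ^ (Nat.log 2 (N / b) + 1) with hP
  have h4 : N < P * b := by
    have e1 : N / b < P := Nat.lt_pow_succ_log_self (by norm_num) _
    have e2 := Nat.lt_div_mul_add (a := N) h0
    have e3 : (N / b + 1) * b ≤ P * b := Nat.mul_le_mul_right _ e1
    nlinarith
  have hP0 : 0 < P := Nat.two_pow_pos _
  have hN0 : 0 < N := by omega
  -- `b / 4 * Z ≤ K * N ^ 2`
  have h5 : b / 4 * Z ≤ K * N ^ 2 := by
    have : b / 4 * Z ≤ b / 4 * (Z + 1) := Nat.mul_le_mul_left _ (Nat.le_succ _)
    omega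
  have h6 : b * Z ≤ 5 * (K * N ^ 2) := by
    have : b * Z ≤ 5 * (b / 4) * Z := Nat.mul_le_mul_right _ h3
    have e : 5 * (b / 4) * Z = 5 * (b / 4 * Z) := by ring
    omega
  have h7 : (8 * K + 100) * N * N ≤ b * Z := by
    have e1 : (8 * K + 100) * N * N ≤ (8 * K + 100) * N * (P * b) :=
      Nat.mul_le_mul_left _ h4.le
    have e2 : (8 * K + 100) * N * (P * b) = b * Z := by rw [hZ]; ring
    omega
  have h8 : 0 < N * N := Nat.mul_pos hN0 hN0
  have h9 : (8 * K + 100) * N * N = 8 * (K * (N * N)) + 100 * (N * N) := by ring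
  have h10 : K * N ^ 2 = K * (N * N) := by ring
  omega

theorem mono_log : Monotone fun m => Nat.log 2 m + 1 := fun _ _ h =>
  Nat.add_le_add_right (Nat.log_mono_right h) 1

theorem summable_log' : Summable fun m : ℕ => ((Nat.log 2 m + 1 : ℕ) : ℝ) / (m : ℝ) ^ 2 := by
  have h := summable_crit (φ := fun _ => 0) (by simp) 1
  exact h.congr fun m => by simp

theorem sum_ind_le (i j b : ℕ) : ∑ q ∈ Finset.Ico 1 b, ind i j q ≤ j := by
  unfold ind
  rw [← Finset.card_filter]
  refine le_trans (Finset.card_le_card (t := Finset.Ioo i (i + j)) ?_) ?_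
  · intro p hp
    rw [Finset.mem_filter] at hp
    rw [Finset.mem_Ioo]
    exact hp.2
  · rw [Nat.card_Ioo]; omega

end Pool.Agent.Lib.LinSpace.Quad
end
end
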